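import Mathlib

namespace Pool.Agent.H59.KRes

theorem arithI {m n : ℤ} (hn : 2 ≤ n) (h : 4*n ≤ (m-n-1)^2) :
    4*n^2 < (n+1)*(m-n-1)^2 := by nlinarith

theorem arithII {m n : ℤ} (hn : 2 ≤ n) (hm : n + 18 ≤ m) (b : ℤ) (hb : 0 ≤ b)
    (hb1 : (m-n+1)*b ≤ 2*n) :
    2*b*(m+n-1)*(2*m+n-2) < (2*m*n - 2*n - (m+n-1)*b)*n := by
  obtain ⟨a, rfl⟩ : ∃ a, m = n + a + 1 := ⟨m - n - 1, by ring⟩
  have ha : 17 ≤ a := by linarith
  rcases eq_or_lt_of_le hb with rfl | hb'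
  · nlinarith [mul_pos (show (0:ℤ) < n by linarith) (show (0:ℤ) < n by linarith)]
  · have hb2 : 1 ≤ b := hb'
    have h1 : (a + 2) * b ≤ 2 * n := by
      have : (n + a + 1 - n + 1) = a + 2 := by ring
      rw [this] at hb1; exact hb1
    have h2 : a + 2 ≤ 2 * n := by nlinarith
    -- key polynomial inequality
    have key : (2*n+a)*(7*n+4*a) < n*(n+a)*(a+2) := by
      rcases eq_or_lt_of_le ha with rfl | ha'
      · have h10 : 10 ≤ n := by omega
        nlinarith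
      · obtain ⟨s, rfl⟩ : ∃ s, a = 18 + s := ⟨a - 18, by ring⟩
        have hs : 0 ≤ s := by linarith
        obtain ⟨t, ht⟩ : ∃ t, 2 * n = 20 + s + t := ⟨2*n - 20 - s, by ring⟩
        have ht0 : 0 ≤ t := by linarith
        have : 4 * ((2*n+(18+s))*(7*n+4*(18+s))) < 4 * (n*(n+(18+s))*((18+s)+2)) := by
          have e1 : 4 * ((2*n+(18+s))*(7*n+4*(18+s)))
            = 2*((2*n)+(18+s))*(7*(2*n)+8*(18+s)) := by ring
          have e2 : 4 * (n*(n+(18+s))*((18+s)+2)) = (2*n)*((2*n)+2*(18+s))*(s+20) := by ring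
          rw [e1, e2, ht]
          nlinarith [mul_nonneg hs ht0, mul_nonneg hs hs, mul_nonneg ht0 ht0,
            mul_nonneg (mul_nonneg hs hs) ht0, mul_nonneg (mul_nonneg hs hs) hs,
            mul_nonneg (mul_nonneg hs ht0) ht0]
        linarith
    have hc : 0 < (2*n+a)*(7*n+4*a) := by
      have : 0 < 2*n+a := by linarith
      have : 0 < 7*n+4*a := by linarith
      positivity
    have h3 : (a+2) * (b * ((2*n+a)*(7*n+4*a))) ≤ 2*n*((2*n+a)*(7*n+4*a)) := by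
      have := mul_le_mul_of_nonneg_right h1 hc.le
      linarith
    have h4 : 2*n*((2*n+a)*(7*n+4*a)) < 2*n*(n*(n+a)*(a+2)) :=
      mul_lt_mul_of_pos_left key (by linarith)
    have h5 : (a+2) * (b * ((2*n+a)*(7*n+4*a))) < (a+2) * (2*n*n*(n+a)) := by linarith
    have h6 : b * ((2*n+a)*(7*n+4*a)) < 2*n*n*(n+a) :=
      lt_of_mul_lt_mul_left h5 (by linarith)
    nlinarith

end Pool.Agent.H59.KRes
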