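import Mathlib

open Finset

namespace Pool.Agent.H59.KRes

variable {V : Type*} [Fintype V] [DecidableEq V]

/-- The data extracted from a connected graph `H` having the resistance spectrum of `K_{m,n}`:
`r = m n R` is integer valued, `e` is the (scaled) resistance curvature. -/
structure Data (H : SimpleGraph V) [DecidableRel H.Adj] (m n : ℤ) (r : V → V → ℤ)
    (e : V → ℤ) : Prop where
  hn : 2 ≤ n
  hm : n + 2 ≤ m
  self : ∀ u, r u u = 0
  symm : ∀ u v, r u v = r v u
  val : ∀ u v, u ≠ v → r u v = 2*n ∨ r u v = m+n-1 ∨ r u v = 2*m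
  idt : ∀ u v, u ≠ v → ∑ w ∈ H.neighborFinset u, (r u v - r w v) = e u
  ids : ∀ u, ∑ w ∈ H.neighborFinset u, r w u = 2*m*n - e u
  conn : H.Connected
  card : (Fintype.card V : ℤ) = m + n
  cnear : ((univ.filter (fun p : V × V => r p.1 p.2 = 2*n)).card : ℤ) = n*(n-1)
  cfar : ((univ.filter (fun p : V × V => r p.1 p.2 = 2*m)).card : ℤ) = m*(m-1)

namespace Data

variable {H : SimpleGraph V} [DecidableRel H.Adj] {m n : ℤ} {r : V → V → ℤ} {e : V → ℤ}

theorem le_far (D : Data H m n r e) (u v : V) : r u v ≤ 2*m := by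
  have := D.hn
  have := D.hm
  rcases eq_or_ne u v with rfl | h
  · rw [D.self]; linarith
  · rcases D.val u v h with h | h | h <;> rw [h] <;> linarith

theorem ne_of_near (D : Data H m n r e) {u v : V} (h : r u v = 2*n) : u ≠ v := by
  have := D.hn
  rintro rfl
  rw [D.self] at h
  linarith

theorem ne_of_far (D : Data H m n r e) {u v : V} (h : r u v = 2*m) : u ≠ v := by
  have := D.hn
  have := D.hm
  rintro rfl
  rw [D.self] at h
  linarith

theorem near_bound (D : Data H m n r e) {u v : V} (h : r u v = 2*n) :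
    e u + (m-n-1) *
      (((H.neighborFinset u).filter (fun w => w ≠ v ∧ r w v ≠ 2*n)).card : ℤ)
      ≤ if H.Adj u v then 2*n else 0 := by
  have hn := D.hn
  have hm := D.hm
  have huv : u ≠ v := D.ne_of_near h
  rw [← D.idt u v huv]
  have h1 : (m-n-1) * (((H.neighborFinset u).filter (fun w => w ≠ v ∧ r w v ≠ 2*n)).card : ℤ)
      = ∑ w ∈ H.neighborFinset u, (if w ≠ v ∧ r w v ≠ 2*n then (m-n-1) else 0) := by
    rw [← Finset.sum_filter, Finset.sum_const, nsmul_eq_mul]; ring
  have h2 : (if H.Adj u v then 2*n else 0)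
      = ∑ w ∈ H.neighborFinset u, (if w = v then 2*n else 0) := by
    rw [Finset.sum_ite_eq']; simp
  rw [h1, h2, ← Finset.sum_add_distrib]
  apply Finset.sum_le_sum
  intro w hw
  by_cases hwv : w = v
  · subst hwv; simp [D.self, h]
  · have hlt : 2 * n < m + n - 1 := by linarith
    rw [if_neg hwv, h]
    rcases D.val w v hwv with h' | h' | h'
    · rw [if_neg (by rw [h']; simp), h']; linarith
    · rw [if_pos ⟨hwv, by rw [h']; exact hlt.ne'⟩, h']; linarith
    · rw [if_pos ⟨hwv, by rw [h']; intro hh; linarith⟩, h']; linarith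

theorem far_bound (D : Data H m n r e) {u z : V} (h : r u z = 2*m) :
    (m-n+1) * (((H.neighborFinset u).filter (fun w => r w z ≠ 2*m)).card : ℤ) ≤ e u := by
  have hn := D.hn
  have hm := D.hm
  have huv : u ≠ z := D.ne_of_far h
  rw [← D.idt u z huv]
  have h1 : (m-n+1) * (((H.neighborFinset u).filter (fun w => r w z ≠ 2*m)).card : ℤ)
      = ∑ w ∈ H.neighborFinset u, (if r w z ≠ 2*m then (m-n+1) else 0) := by
    rw [← Finset.sum_filter, Finset.sum_const, nsmul_eq_mul]; ring
  rw [h1]
  apply Finset.sum_le_sum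
  intro w hw
  rw [h]
  by_cases hwv : w = z
  · subst hwv
    rw [D.self, if_pos (by intro hh; linarith)]
    linarith
  · rcases D.val w z hwv with h' | h' | h'
    · rw [if_pos (by rw [h']; intro hh; linarith), h']; linarith
    · rw [if_pos (by rw [h']; intro hh; linarith), h']; linarith
    · rw [if_neg (by rw [h']; simp), h']; linarith

theorem e_nonneg (D : Data H m n r e) {u z : V} (h : r u z = 2*m) : 0 ≤ e u := by
  have h1 := D.far_bound h
  have hn := D.hn
  have hm := D.hm
  have : (0:ℤ) ≤ (m-n+1) * (((H.neighborFinset u).filter (fun w => r w z ≠ 2*m)).card : ℤ) := by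
    apply mul_nonneg (by linarith) (by positivity)
  linarith

theorem e_le (D : Data H m n r e) {u v : V} (h : r u v = 2*n) : e u ≤ 2*n := by
  have h1 := D.near_bound h
  have hn := D.hn
  have hm := D.hm
  have : (0:ℤ) ≤ (m-n-1) *
      (((H.neighborFinset u).filter (fun w => w ≠ v ∧ r w v ≠ 2*n)).card : ℤ) := by
    apply mul_nonneg (by linarith) (by positivity)
  split_ifs at h1 <;> linarith

theorem far_not_adj (D : Data H m n r e) {u v z : V} (h : r u v = 2*n) (h' : r u z = 2*m) :
    ¬ H.Adj u z := by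
  intro hadj
  have hn := D.hn
  have hm := D.hm
  have h1 := D.e_le h
  have huv : u ≠ z := D.ne_of_far h'
  have h2 : (r u z - r z z) ≤ ∑ w ∈ H.neighborFinset u, (r u z - r w z) := by
    apply Finset.single_le_sum (f := fun w => r u z - r w z)
    · intro w hw
      have := D.le_far w z
      rw [h']; linarith
    · simpa using hadj
  rw [D.idt u z huv, D.self, h'] at h2
  linarith

theorem deg_bound (D : Data H m n r e) {u v z : V} (h : r u v = 2*n) (h' : r u z = 2*m) :
    2*m*n - 2*n ≤ (m+n-1) * (H.degree u : ℤ) := by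
  have hn := D.hn
  have hm := D.hm
  have h1 := D.e_le h
  have h2 := D.ids u
  have h3 : ∑ w ∈ H.neighborFinset u, r w u ≤ ∑ w ∈ H.neighborFinset u, (m+n-1) := by
    apply Finset.sum_le_sum
    intro w hw
    have hadj : H.Adj u w := by simpa using hw
    rcases D.val w u hadj.ne' with h4 | h4 | h4
    · linarith
    · linarith
    · exfalso
      rw [D.symm] at h4
      exact D.far_not_adj h h4 hadj
  rw [Finset.sum_const, H.card_neighborFinset_eq_degree, nsmul_eq_mul] at h3
  linarith

/-- near partners -/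
def nr (r : V → V → ℤ) (n : ℤ) (u : V) : Finset V := univ.filter (fun v => r u v = 2*n)

omit [DecidableEq V] in
@[simp] theorem mem_nr {u v : V} : v ∈ nr r n u ↔ r u v = 2*n := by simp [nr]

theorem sum_nr (D : Data H m n r e) : ∑ u, ((nr r n u).card : ℤ) = n*(n-1) := by
  rw [← D.cnear]
  have : (univ.filter (fun p : V × V => r p.1 p.2 = 2*n)).card = ∑ u, (nr r n u).card := by
    rw [Finset.card_filter, Fintype.sum_prod_type]
    refine Finset.sum_congr rfl fun u _ => ?_
    rw [nr, Finset.card_filter]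
  rw [this]; push_cast; rfl

theorem nr_card (D : Data H m n r e) (hI : 4*n^2 < (n+1)*(m-n-1)^2) {v w z : V}
    (h : r v w = 2*n) (h' : r v z = 2*m) : n ≤ ((nr r n w).card : ℤ) := by
  have hn := D.hn
  have hm := D.hm
  have h1 := D.near_bound h
  have h2 := D.e_nonneg h'
  have h3 := D.deg_bound h h'
  set k := (((H.neighborFinset v).filter (fun x => x ≠ w ∧ r x w ≠ 2*n)).card : ℤ) with hk
  -- the neighbours of v
  have h4 : (H.degree v : ℤ) - k ≤ ((nr r n w).card : ℤ) := by
    have h5 : (H.neighborFinset v).card ≤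
        ((H.neighborFinset v).filter (fun x => r x w = 2*n)).card +
        ((H.neighborFinset v).filter (fun x => x ≠ w ∧ r x w ≠ 2*n)).card +
        1 := by
      have hsub : H.neighborFinset v ⊆
        (((H.neighborFinset v).filter (fun x => r x w = 2*n)) ∪
        ((H.neighborFinset v).filter (fun x => x ≠ w ∧ r x w ≠ 2*n))) ∪ {w} := by
        intro x hx
        simp only [mem_union, mem_filter, mem_singleton]
        by_cases hxw : x = w
        · right; exact hxw
        · by_cases hr : r x w = 2*n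
          · left; left; exact ⟨hx, hr⟩
          · left; right; exact ⟨hx, hxw, hr⟩
      refine (Finset.card_le_card hsub).trans ?_
      refine (Finset.card_union_le _ _).trans ?_
      rw [Finset.card_singleton]
      gcongr
      exact Finset.card_union_le _ _
    have h6 : ((H.neighborFinset v).filter (fun x => r x w = 2*n)).card + 1 ≤ (nr r n w).card := by
      have hv : v ∉ (H.neighborFinset v).filter (fun x => r x w = 2*n) := by simp
      rw [← Finset.card_insert_of_notMem hv]
      apply Finset.card_le_card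
      intro x hx
      simp only [mem_insert, mem_filter] at hx
      rw [mem_nr, D.symm]
      rcases hx with rfl | hx
      · exact h
      · exact hx.2
    rw [H.card_neighborFinset_eq_degree] at h5
    have h7 : H.degree v ≤ (nr r n w).card +
      ((H.neighborFinset v).filter (fun x => x ≠ w ∧ r x w ≠ 2*n)).card := by omega
    have h8 : (H.degree v : ℤ) ≤ ((nr r n w).card : ℤ) + k := by rw [hk]; exact_mod_cast h7
    linarith
  have h9 : (m-n-1) * k ≤ 2*n := by
    split_ifs at h1 <;> linarith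
  by_contra hcon
  push Not at hcon
  have h10 : (H.degree v : ℤ) ≤ n - 1 + k := by linarith
  have h11 : 2*m*n - 2*n ≤ (m+n-1) * (n-1+k) :=
    h3.trans (mul_le_mul_of_nonneg_left h10 (by linarith))
  have h12 : (m-n-1) * (2*m*n - 2*n) ≤ (m-n-1) * ((m+n-1) * (n-1+k)) :=
    mul_le_mul_of_nonneg_left h11 (by linarith)
  have h13 : (m+n-1) * ((m-n-1)*k) ≤ (m+n-1)*(2*n) :=
    mul_le_mul_of_nonneg_left h9 (by linarith)
  nlinarith

/-- two near vertices cannot both have near and far partners -/
theorem caseI (D : Data H m n r e) (hI : 4*n^2 < (n+1)*(m-n-1)^2) {u v z y : V}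
    (h : r u v = 2*n) (hz : r u z = 2*m) (hy : r v y = 2*m) : False := by
  have hn := D.hn
  have hv : v ∉ nr r n v := by
    rw [mem_nr, D.self]; intro hh; linarith
  have h1 : ∑ w ∈ insert v (nr r n v), n ≤ ∑ w ∈ insert v (nr r n v), ((nr r n w).card : ℤ) := by
    apply Finset.sum_le_sum
    intro w hw
    rw [mem_insert, mem_nr] at hw
    rcases hw with rfl | hw
    · exact D.nr_card hI h hz
    · exact D.nr_card hI hw hy
  have h2 : ∑ w ∈ insert v (nr r n v), ((nr r n w).card : ℤ) ≤ ∑ w, ((nr r n w).card : ℤ) := by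
    apply Finset.sum_le_sum_of_subset_of_nonneg (subset_univ _)
    intro i _ _; positivity
  rw [D.sum_nr] at h2
  rw [Finset.sum_const, Finset.card_insert_of_notMem hv, nsmul_eq_mul] at h1
  have h3 := D.nr_card hI h hz
  push_cast at h1
  nlinarith


/-- far partners -/
def fr (r : V → V → ℤ) (m : ℤ) (u : V) : Finset V := univ.filter (fun v => r u v = 2*m)

omit [DecidableEq V] in
@[simp] theorem mem_fr {u v : V} : v ∈ fr r m u ↔ r u v = 2*m := by simp [fr]

theorem sum_fr (D : Data H m n r e) : ∑ u, ((fr r m u).card : ℤ) = m*(m-1) := by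
  rw [← D.cfar]
  have : (univ.filter (fun p : V × V => r p.1 p.2 = 2*m)).card = ∑ u, (fr r m u).card := by
    rw [Finset.card_filter, Fintype.sum_prod_type]
    refine Finset.sum_congr rfl fun u _ => ?_
    rw [fr, Finset.card_filter]
  rw [this]; push_cast; rfl

/-- vertices with a far partner -/
def W (r : V → V → ℤ) (m : ℤ) : Finset V := univ.filter (fun u => ∃ z, r u z = 2*m)

omit [DecidableEq V] in
@[simp] theorem mem_W {u : V} : u ∈ W r m ↔ ∃ z, r u z = 2*m := by simp [W]

/-- vertices with a near and a far partner -/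
def X (r : V → V → ℤ) (m n : ℤ) : Finset V :=
  univ.filter (fun u => (∃ v, r u v = 2*n) ∧ ∃ z, r u z = 2*m)

omit [DecidableEq V] in
@[simp] theorem mem_X {u : V} : u ∈ X r m n ↔ (∃ v, r u v = 2*n) ∧ ∃ z, r u z = 2*m := by
  simp [X]

theorem nbr_out (D : Data H m n r e) {u v z : V} (h : r u v = 2*n) (h' : r u z = 2*m) :
    (m-n+1) * (((H.neighborFinset u).filter (fun w => w ∉ W r m)).card : ℤ) ≤ 2*n := by
  have hn := D.hn
  have hm := D.hm
  have h1 := D.far_bound h'
  have h2 := D.e_le h
  have h3 : ((H.neighborFinset u).filter (fun w => w ∉ W r m)).card ≤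
      ((H.neighborFinset u).filter (fun w => r w z ≠ 2*m)).card := by
    apply Finset.card_le_card
    intro w hw
    simp only [mem_filter, mem_W, not_exists] at hw ⊢
    exact ⟨hw.1, hw.2 z⟩
  have h4 : (((H.neighborFinset u).filter (fun w => w ∉ W r m)).card : ℤ) ≤
      (((H.neighborFinset u).filter (fun w => r w z ≠ 2*m)).card : ℤ) := by exact_mod_cast h3
  have h5 := mul_le_mul_of_nonneg_left h4 (show (0:ℤ) ≤ m-n+1 by linarith)
  linarith

omit [Fintype V] [DecidableEq V] [DecidableRel H.Adj] in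
theorem closed_univ (hc : H.Connected) (S : V → Prop) (hS : ∀ u w, S u → H.Adj u w → S w)
    {u : V} (hu : S u) (v : V) : S v := by
  obtain ⟨p⟩ := hc.preconnected u v
  induction p with
  | nil => exact hu
  | cons h _ ih => exact ih (hS _ _ hu h)

theorem nr_small (D : Data H m n r e)
    (hX : ∀ u v z y, r u v = 2*n → r u z = 2*m → r v y ≠ 2*m)
    {u v z : V} (h : r u v = 2*n) (h' : r u z = 2*m) :
    (m-n+1) * ((nr r n u).card : ℤ) ≤ 2*n := by
  have hn := D.hn
  have hm := D.hm
  by_contra hcon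
  push Not at hcon
  have key := closed_univ D.conn
    (fun u => (∃ v, r u v = 2*n) ∧ (∃ z, r u z = 2*m) ∧ 2*n < (m-n+1) * ((nr r n u).card : ℤ))
    ?_ (u := u) ⟨⟨v, h⟩, ⟨z, h'⟩, hcon⟩ v
  · obtain ⟨_, ⟨y, hy⟩, _⟩ := key
    exact hX u v z y h h' hy
  · clear h h' hcon u v z
    rintro u w ⟨⟨v, h⟩, ⟨z, h'⟩, hcon⟩ huw
    -- a nonadjacent near partner
    have h1 : ∃ v0, r u v0 = 2*n ∧ ¬ H.Adj u v0 := by
      by_contra hno
      push Not at hno
      have h2 : (nr r n u).card ≤ ((H.neighborFinset u).filter (fun w => w ∉ W r m)).card := by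
        apply Finset.card_le_card
        intro x hx
        rw [mem_nr] at hx
        simp only [mem_filter, mem_W, not_exists, SimpleGraph.mem_neighborFinset]
        exact ⟨hno x hx, fun y => hX u x z y hx h'⟩
      have h3 := D.nbr_out h h'
      have h4 : ((nr r n u).card : ℤ) ≤
        (((H.neighborFinset u).filter (fun w => w ∉ W r m)).card : ℤ) := by exact_mod_cast h2
      have h5 := mul_le_mul_of_nonneg_left h4 (show (0:ℤ) ≤ m-n+1 by linarith)
      linarith
    obtain ⟨v0, hv0, hv0'⟩ := h1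
    have he0 : 0 ≤ e u := D.e_nonneg h'
    have hnb := D.near_bound hv0
    rw [if_neg hv0'] at hnb
    have hnn : (0:ℤ) ≤ (m-n-1) *
      (((H.neighborFinset u).filter (fun w => w ≠ v0 ∧ r w v0 ≠ 2*n)).card : ℤ) :=
      mul_nonneg (by linarith) (by positivity)
    have he : e u = 0 := by linarith
    -- every neighbour is far from z
    have hfar : ∀ x, H.Adj u x → r x z = 2*m := by
      intro x hx
      have hfb := D.far_bound h'
      rw [he] at hfb
      by_contra hne
      have hpos : 0 < ((H.neighborFinset u).filter (fun w => r w z ≠ 2*m)).card := by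
        apply Finset.card_pos.mpr
        exact ⟨x, by simp [hx, hne]⟩
      have hpos' : (1:ℤ) ≤ (((H.neighborFinset u).filter (fun w => r w z ≠ 2*m)).card : ℤ) := by
        exact_mod_cast hpos
      have := mul_le_mul_of_nonneg_left hpos' (show (0:ℤ) ≤ m-n+1 by linarith)
      linarith
    have hnadj : ∀ x, r u x = 2*n → ¬ H.Adj u x := by
      intro x hx hadj
      exact hX u x z z hx h' (hfar x hadj)
    have hnear : ∀ x, r u x = 2*n → r w x = 2*n := by
      intro x hx
      have hb := D.near_bound hx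
      rw [if_neg (hnadj x hx), he] at hb
      by_contra hne
      have hwx : w ≠ x := by
        rintro rfl
        exact hnadj w hx huw
      have hpos : 0 < ((H.neighborFinset u).filter (fun w => w ≠ x ∧ r w x ≠ 2*n)).card := by
        apply Finset.card_pos.mpr
        exact ⟨w, by simp [huw, hne, hwx]⟩
      have hpos' : (1:ℤ) ≤
        (((H.neighborFinset u).filter (fun w => w ≠ x ∧ r w x ≠ 2*n)).card : ℤ) := by
        exact_mod_cast hpos
      have := mul_le_mul_of_nonneg_left hpos' (show (0:ℤ) ≤ m-n-1 by linarith)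
      linarith
    refine ⟨⟨v0, hnear v0 hv0⟩, ⟨z, hfar w huw⟩, ?_⟩
    have hsub : (nr r n u).card ≤ (nr r n w).card := by
      apply Finset.card_le_card
      intro x hx
      rw [mem_nr] at hx ⊢
      exact hnear x hx
    have hsub' : ((nr r n u).card : ℤ) ≤ ((nr r n w).card : ℤ) := by exact_mod_cast hsub
    have := mul_le_mul_of_nonneg_left hsub' (show (0:ℤ) ≤ m-n+1 by linarith)
    linarith

theorem fr_subset (D : Data H m n r e) (u : V) : fr r m u ⊆ (W r m).erase u := by
  intro z hz
  rw [mem_fr] at hz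
  rw [mem_erase, mem_W]
  exact ⟨(D.ne_of_far hz).symm, u, by rw [D.symm]; exact hz⟩

theorem sum_h (D : Data H m n r e) :
    ∑ u ∈ W r m, (((W r m).card : ℤ) - 1 - ((fr r m u).card : ℤ))
      = ((W r m).card : ℤ) * (((W r m).card : ℤ) - 1) - m*(m-1) := by
  have h1 : ∑ u ∈ W r m, ((fr r m u).card : ℤ) = m*(m-1) := by
    rw [← D.sum_fr]
    apply Finset.sum_subset (subset_univ _)
    intro u _ hu
    have : fr r m u = ∅ := by
      ext z
      simp only [mem_fr, notMem_empty, iff_false]
      intro hz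
      exact hu (by rw [mem_W]; exact ⟨z, hz⟩)
    rw [this]; simp
  rw [Finset.sum_sub_distrib, h1, Finset.sum_const, nsmul_eq_mul]

theorem card_W_ge (D : Data H m n r e) : m ≤ ((W r m).card : ℤ) := by
  have hn := D.hn
  have hm := D.hm
  have h1 := D.sum_h
  have h2 : (0:ℤ) ≤ ∑ u ∈ W r m, (((W r m).card : ℤ) - 1 - ((fr r m u).card : ℤ)) := by
    apply Finset.sum_nonneg
    intro u hu
    have h3 := Finset.card_le_card (D.fr_subset u)
    rw [Finset.card_erase_of_mem hu] at h3
    have h4 : 0 < (W r m).card := Finset.card_pos.mpr ⟨u, hu⟩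
    have h5 : (fr r m u).card + 1 ≤ (W r m).card := by omega
    have h6 : ((fr r m u).card : ℤ) + 1 ≤ ((W r m).card : ℤ) := by exact_mod_cast h5
    linarith
  by_contra hcon
  push Not at hcon
  have h0 : (0:ℤ) ≤ ((W r m).card : ℤ) := by positivity
  nlinarith

theorem one_side (D : Data H m n r e)
    (b : ℤ) (hb : ∀ x : ℤ, (m-n+1)*x ≤ 2*n → x ≤ b) :
    (2*m*n - 2*n) * ((X r m n).card : ℤ) ≤ (m+n-1) *
      ((((W r m).card : ℤ) * (((W r m).card : ℤ) - 1) - m*(m-1)) + b * ((X r m n).card : ℤ)) := by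
  have hn := D.hn
  have hm := D.hm
  have hXW : X r m n ⊆ W r m := by
    intro u hu
    rw [mem_X] at hu
    rw [mem_W]
    exact hu.2
  have hterm : ∀ u ∈ W r m, (0:ℤ) ≤ (((W r m).card : ℤ) - 1 - ((fr r m u).card : ℤ)) := by
    intro u hu
    have h3 := Finset.card_le_card (D.fr_subset u)
    rw [Finset.card_erase_of_mem hu] at h3
    have h4 : 0 < (W r m).card := Finset.card_pos.mpr ⟨u, hu⟩
    have h5 : (fr r m u).card + 1 ≤ (W r m).card := by omega
    have h6 : ((fr r m u).card : ℤ) + 1 ≤ ((W r m).card : ℤ) := by exact_mod_cast h5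
    linarith
  have h1 : ∑ u ∈ X r m n, (((W r m).card : ℤ) - 1 - ((fr r m u).card : ℤ)) ≤
      ∑ u ∈ W r m, (((W r m).card : ℤ) - 1 - ((fr r m u).card : ℤ)) :=
    Finset.sum_le_sum_of_subset_of_nonneg hXW (fun i hi _ => hterm i hi)
  rw [D.sum_h] at h1
  have h2 : ∑ u ∈ X r m n, (2*m*n - 2*n) ≤
      ∑ u ∈ X r m n, (m+n-1) * ((((W r m).card : ℤ) - 1 - ((fr r m u).card : ℤ)) + b) := by
    apply Finset.sum_le_sum
    intro u hu
    rw [mem_X] at hu
    obtain ⟨⟨v, hv⟩, z, hz⟩ := hu
    have h3 := D.deg_bound hv hz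
    have h4 := hb _ (D.nbr_out hv hz)
    have h5 : ((H.neighborFinset u).filter (fun w => w ∈ W r m)).card + (fr r m u).card + 1
        ≤ (W r m).card := by
      have huW : u ∈ W r m := by rw [mem_W]; exact ⟨z, hz⟩
      have hdisj : Disjoint ((H.neighborFinset u).filter (fun w => w ∈ W r m)) (fr r m u) := by
        rw [Finset.disjoint_left]
        intro x hx hx'
        simp only [mem_filter, SimpleGraph.mem_neighborFinset] at hx
        rw [mem_fr] at hx'
        exact D.far_not_adj hv hx' hx.1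
      rw [← Finset.card_union_of_disjoint hdisj]
      have hsub : ((H.neighborFinset u).filter (fun w => w ∈ W r m)) ∪ fr r m u
          ⊆ (W r m).erase u := by
        intro x hx
        rw [mem_union] at hx
        rcases hx with hx | hx
        · simp only [mem_filter, SimpleGraph.mem_neighborFinset] at hx
          rw [mem_erase]
          exact ⟨hx.1.ne', hx.2⟩
        · exact D.fr_subset u hx
      have h6 := Finset.card_le_card hsub
      rw [Finset.card_erase_of_mem huW] at h6
      have h7 : 0 < (W r m).card := Finset.card_pos.mpr ⟨u, huW⟩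
      omega
    have h6 : (H.degree u) = ((H.neighborFinset u).filter (fun w => w ∈ W r m)).card
        + ((H.neighborFinset u).filter (fun w => w ∉ W r m)).card := by
      rw [← H.card_neighborFinset_eq_degree, Finset.card_filter_add_card_filter_not]
    have h7 : (H.degree u : ℤ) ≤ (((W r m).card : ℤ) - 1 - ((fr r m u).card : ℤ)) + b := by
      have h8 : (((H.neighborFinset u).filter (fun w => w ∈ W r m)).card : ℤ)
        + ((fr r m u).card : ℤ) + 1 ≤ ((W r m).card : ℤ) := by exact_mod_cast h5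
      have h9 : (H.degree u : ℤ) = (((H.neighborFinset u).filter (fun w => w ∈ W r m)).card : ℤ)
        + (((H.neighborFinset u).filter (fun w => w ∉ W r m)).card : ℤ) := by exact_mod_cast h6
      linarith
    exact h3.trans (mul_le_mul_of_nonneg_left h7 (by linarith))
  rw [Finset.sum_const, nsmul_eq_mul, ← Finset.mul_sum, Finset.sum_add_distrib,
    Finset.sum_const, nsmul_eq_mul] at h2
  have h3 : (m+n-1) * (∑ u ∈ X r m n, (((W r m).card : ℤ) - 1 - ((fr r m u).card : ℤ))
      + ((X r m n).card : ℤ) * b) ≤ (m+n-1) *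
      ((((W r m).card : ℤ) * (((W r m).card : ℤ) - 1) - m*(m-1)) + b * ((X r m n).card : ℤ)) := by
    apply mul_le_mul_of_nonneg_left _ (by linarith)
    linarith
  linarith


theorem other_side (D : Data H m n r e)
    (hX : ∀ u v z y, r u v = 2*n → r u z = 2*m → r v y ≠ 2*m)
    (b : ℤ) (hb : ∀ x : ℤ, (m-n+1)*x ≤ 2*n → x ≤ b) :
    n*(n-1) ≤ 2*(b*((X r m n).card : ℤ)) +
      (m+n-((W r m).card : ℤ)) * (m+n-((W r m).card : ℤ)-1) := by
  have hn := D.hn
  have hm := D.hm
  -- bound on X
  have hbX : ∑ u ∈ X r m n, ((nr r n u).card : ℤ) ≤ b * ((X r m n).card : ℤ) := by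
    have : ∑ u ∈ X r m n, ((nr r n u).card : ℤ) ≤ ∑ u ∈ X r m n, b := by
      apply Finset.sum_le_sum
      intro u hu
      rw [mem_X] at hu
      obtain ⟨⟨v, hv⟩, z, hz⟩ := hu
      exact hb _ (D.nr_small hX hv hz)
    rw [Finset.sum_const, nsmul_eq_mul] at this
    linarith
  have hXW : X r m n ⊆ W r m := by
    intro u hu
    rw [mem_X] at hu
    rw [mem_W]
    exact hu.2
  -- splitting
  have hsplit : ∑ u, ((nr r n u).card : ℤ) = ∑ u ∈ W r m, ((nr r n u).card : ℤ)
      + ∑ u ∈ (W r m)ᶜ, ((nr r n u).card : ℤ) := (Finset.sum_add_sum_compl _ _).symm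
  have hW : ∑ u ∈ W r m, ((nr r n u).card : ℤ) = ∑ u ∈ X r m n, ((nr r n u).card : ℤ) := by
    symm
    apply Finset.sum_subset hXW
    intro u hu hu'
    rw [mem_W] at hu
    rw [mem_X] at hu'
    have : nr r n u = ∅ := by
      ext v
      simp only [mem_nr, notMem_empty, iff_false]
      intro hv
      exact hu' ⟨⟨v, hv⟩, hu⟩
    rw [this]; simp
  have hcardC : (((W r m)ᶜ.card : ℕ) : ℤ) = m + n - ((W r m).card : ℤ) := by
    have h1 := Finset.card_compl_add_card (W r m)
    have h2 : (((W r m)ᶜ.card : ℕ) : ℤ) + ((W r m).card : ℤ) = (Fintype.card V : ℤ) := by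
      exact_mod_cast h1
    rw [D.card] at h2
    linarith
  have hC : ∑ u ∈ (W r m)ᶜ, ((nr r n u).card : ℤ) ≤
      ∑ u ∈ (W r m)ᶜ, ((((X r m n).filter (fun x => r u x = 2*n)).card : ℤ)
        + (m+n-((W r m).card : ℤ)-1)) := by
    apply Finset.sum_le_sum
    intro u hu
    have h1 : nr r n u ⊆ ((X r m n).filter (fun x => r u x = 2*n)) ∪ ((W r m)ᶜ.erase u) := by
      intro v hv
      rw [mem_nr] at hv
      rw [mem_union, mem_filter, mem_erase, mem_compl]
      by_cases hvW : v ∈ W r m
      · left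
        rw [mem_W] at hvW
        rw [mem_X]
        exact ⟨⟨⟨u, by rw [D.symm]; exact hv⟩, hvW⟩, hv⟩
      · right
        exact ⟨(D.ne_of_near hv).symm, hvW⟩
    have h2 := (Finset.card_le_card h1).trans (Finset.card_union_le _ _)
    rw [Finset.card_erase_of_mem hu] at h2
    have h3 : 0 < (W r m)ᶜ.card := Finset.card_pos.mpr ⟨u, hu⟩
    have h4 : (nr r n u).card + 1 ≤ ((X r m n).filter (fun x => r u x = 2*n)).card
      + (W r m)ᶜ.card := by omega
    have h5 : ((nr r n u).card : ℤ) + 1 ≤ (((X r m n).filter (fun x => r u x = 2*n)).card : ℤ)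
      + (((W r m)ᶜ.card : ℕ) : ℤ) := by exact_mod_cast h4
    rw [hcardC] at h5
    linarith
  have hdc : ∑ u ∈ (W r m)ᶜ, (((X r m n).filter (fun x => r u x = 2*n)).card : ℤ) ≤
      ∑ u ∈ X r m n, ((nr r n u).card : ℤ) := by
    have h1 : ∑ u ∈ (W r m)ᶜ, (((X r m n).filter (fun x => r u x = 2*n)).card)
      = ∑ x ∈ X r m n, (((W r m)ᶜ.filter (fun u => r u x = 2*n)).card) := by
      simp only [Finset.card_filter]
      exact Finset.sum_comm
    have h2 : ∑ x ∈ X r m n, (((W r m)ᶜ.filter (fun u => r u x = 2*n)).card)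
      ≤ ∑ u ∈ X r m n, ((nr r n u).card) := by
      apply Finset.sum_le_sum
      intro x _
      apply Finset.card_le_card
      intro u hu
      rw [mem_filter] at hu
      rw [mem_nr, D.symm]
      exact hu.2
    exact_mod_cast h1.trans_le h2
  rw [Finset.sum_add_distrib, Finset.sum_const, nsmul_eq_mul, hcardC] at hC
  have := D.sum_nr
  linarith

/-- no vertex has both near and far partners, given that two near vertices do not both have
near and far partners -/
theorem noX' (D : Data H m n r e)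
    (hX : ∀ u v z y, r u v = 2*n → r u z = 2*m → r v y ≠ 2*m)
    (hII : ∀ b : ℤ, 0 ≤ b → (m-n+1)*b ≤ 2*n →
      2*b*(m+n-1)*(2*m+n-2) < (2*m*n - 2*n - (m+n-1)*b)*n)
    {u v z : V} (h : r u v = 2*n) (hz : r u z = 2*m) : False := by
  have hn := D.hn
  have hm := D.hm
  set b : ℤ := 2*n / (m-n+1) with hbdef
  have hpos : (0:ℤ) < m-n+1 := by linarith
  have hb : ∀ x : ℤ, (m-n+1)*x ≤ 2*n → x ≤ b := by
    intro x hx
    rw [hbdef, Int.le_ediv_iff_mul_le hpos]
    linarith
  have hb0 : 0 ≤ b := Int.ediv_nonneg (by linarith) hpos.le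
  have hb1 : (m-n+1)*b ≤ 2*n := Int.mul_ediv_self_le hpos.ne'
  have h1 := D.one_side b hb
  have h2 := D.other_side hX b hb
  have h3 := D.card_W_ge
  have h4 := hII b hb0 hb1
  have hv : v ∉ W r m := by
    rw [mem_W]
    rintro ⟨y, hy⟩
    exact hX u v z y h hz hy
  have h5 : (W r m).card < Fintype.card V := by
    rw [← Finset.card_univ]
    apply Finset.card_lt_card
    rw [Finset.ssubset_univ_iff]
    intro hh
    rw [hh] at hv
    exact hv (mem_univ _)
  have h6 : ((W r m).card : ℤ) < m + n := by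
    rw [← D.card]; exact_mod_cast h5
  have h7 : 0 < (X r m n).card := by
    apply Finset.card_pos.mpr
    exact ⟨u, by rw [mem_X]; exact ⟨⟨v, h⟩, z, hz⟩⟩
  have h8 : (1:ℤ) ≤ ((X r m n).card : ℤ) := by exact_mod_cast h7
  generalize ((X r m n).card : ℤ) = x at *
  generalize ((W r m).card : ℤ) = w at *
  obtain ⟨j, rfl⟩ : ∃ j, w = m + j := ⟨w - m, by ring⟩
  have hj0 : 0 ≤ j := by linarith
  have hj1 : j ≤ n - 1 := by linarith
  clear h h5 h7 hz hv hX hb hbdef
  -- the two inequalities
  set P : ℤ := 2*m*n - 2*n - (m+n-1)*b with hP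
  have hmu : 0 < m + n - 1 := by linarith
  have hPpos : 0 < P := by
    by_contra hneg
    push Not at hneg
    have : P * n ≤ 0 := mul_nonpos_of_nonpos_of_nonneg hneg (by linarith)
    have h9 : 0 ≤ 2*b*(m+n-1)*(2*m+n-2) := by
      have : 0 ≤ 2*m+n-2 := by linarith
      positivity
    linarith
  have e1 : P * x ≤ (m+n-1) * (j*(2*m+j-1)) := by
    have : (m+n-1) * ((m+j)*(m+j-1) - m*(m-1) + b*x)
      = (m+n-1) * (j*(2*m+j-1)) + (m+n-1)*b*x := by ring
    rw [this] at h1
    rw [hP]; linarith
  have e2 : j*(2*n-j-1) ≤ 2*b*x := by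
    have : (m+n-(m+j)) * (m+n-(m+j)-1) = n*(n-1) - j*(2*n-j-1) := by ring
    rw [this] at h2
    linarith
  rcases eq_or_lt_of_le hj0 with hj | hj
  · rw [← hj] at e1
    have : 0 < P * x := by positivity
    linarith [e1]
  · have e3 : P * (j*(2*n-j-1)) ≤ P * (2*b*x) := mul_le_mul_of_nonneg_left e2 hPpos.le
    have e4 : 2*b*(P*x) ≤ 2*b*((m+n-1) * (j*(2*m+j-1))) :=
      mul_le_mul_of_nonneg_left e1 (by linarith)
    have e5 : j * (P*(2*n-j-1)) ≤ j*(2*b*(m+n-1)*(2*m+j-1)) := by linarith
    have e6 : P*(2*n-j-1) ≤ 2*b*(m+n-1)*(2*m+j-1) := le_of_mul_le_mul_left e5 hj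
    have e7 : P * n ≤ P*(2*n-j-1) := mul_le_mul_of_nonneg_left (by linarith) hPpos.le
    have e8 : 2*b*(m+n-1)*(2*m+j-1) ≤ 2*b*(m+n-1)*(2*m+n-2) :=
      mul_le_mul_of_nonneg_left (by linarith) (by positivity)
    linarith

/-- no vertex has both near and far partners -/
theorem noX (D : Data H m n r e) (hI : 4*n^2 < (n+1)*(m-n-1)^2)
    (hII : ∀ b : ℤ, 0 ≤ b → (m-n+1)*b ≤ 2*n →
      2*b*(m+n-1)*(2*m+n-2) < (2*m*n - 2*n - (m+n-1)*b)*n)
    {u v z : V} (h : r u v = 2*n) (hz : r u z = 2*m) : False :=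
  D.noX' (fun _ _ _ _ h1 h2 h3 => D.caseI hI h1 h2 h3) hII h hz

end Data

end Pool.Agent.H59.KRes
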