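import Mathlib
import Pool.Agent.H59.KRes.Core

open Finset

namespace Pool.Agent.H59.KRes

variable {V : Type*} [Fintype V] [DecidableEq V]

/-- ordered adjacent pairs -/
def adjP (H : SimpleGraph V) [DecidableRel H.Adj] : Finset (V × V) :=
  univ.filter (fun p : V × V => H.Adj p.1 p.2)

/-- ordered pairs crossing from `T` to its complement along an edge -/
def cutP (H : SimpleGraph V) [DecidableRel H.Adj] (T : Finset V) : Finset (V × V) :=
  univ.filter (fun p : V × V => H.Adj p.1 p.2 ∧ p.1 ∈ T ∧ p.2 ∉ T)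

theorem sum_adjP (H : SimpleGraph V) [DecidableRel H.Adj] (f : V → V → ℤ) :
    ∑ p ∈ adjP H, f p.1 p.2 = ∑ u, ∑ w ∈ H.neighborFinset u, f u w := by
  rw [adjP, Finset.sum_filter, Fintype.sum_prod_type]
  refine Finset.sum_congr rfl fun u _ => ?_
  rw [SimpleGraph.neighborFinset_eq_filter, Finset.sum_filter]

theorem sum_adjP_swap (H : SimpleGraph V) [DecidableRel H.Adj] (f : V → V → ℤ) :
    ∑ p ∈ adjP H, f p.1 p.2 = ∑ p ∈ adjP H, f p.2 p.1 := by
  apply Finset.sum_nbij' (fun p => (p.2, p.1)) (fun p => (p.2, p.1))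
  · intro p hp
    simp only [adjP, mem_filter, mem_univ, true_and] at hp ⊢
    exact hp.symm
  · intro p hp
    simp only [adjP, mem_filter, mem_univ, true_and] at hp ⊢
    exact hp.symm
  · intro p _; rfl
  · intro p _; rfl
  · intro p _; rfl

namespace Data

variable {H : SimpleGraph V} [DecidableRel H.Adj] {m n : ℤ} {r : V → V → ℤ} {e : V → ℤ}

theorem idall (D : Data H m n r e) (u v : V) :
    ∑ w ∈ H.neighborFinset u, (r u v - r w v) = e u - (if u = v then 2*m*n else 0) := by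
  by_cases h : u = v
  · subst h
    rw [if_pos rfl]
    have h1 := D.ids u
    simp only [D.self, zero_sub, Finset.sum_neg_distrib]
    linarith
  · rw [if_neg h, sub_zero]
    exact D.idt u v h

/-- the cut inequality -/
theorem cut_ineq (D : Data H m n r e) (T : Finset V) (x : V → ℤ) (hx : ∑ v, x v = 0) :
    2*m*n * (∑ u ∈ T, x u)^2 ≤ ((cutP H T).card : ℤ) * (-∑ u, ∑ v, x u * x v * r u v) := by
  have hn := D.hn
  have hm := D.hm
  have hmn : 0 < 2*m*n := by
    have : 0 < m := by linarith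
    have : 0 < n := by linarith
    positivity
  set z : V → ℤ := fun u => ∑ v, r u v * x v with hz
  have c1 : ∀ u, ∑ w ∈ H.neighborFinset u, (z u - z w) = -(2*m*n) * x u := by
    intro u
    have h1 : ∑ w ∈ H.neighborFinset u, (z u - z w)
        = ∑ v, x v * ∑ w ∈ H.neighborFinset u, (r u v - r w v) := by
      simp only [hz, ← Finset.sum_sub_distrib, Finset.mul_sum]
      rw [Finset.sum_comm]
      refine Finset.sum_congr rfl fun v _ => Finset.sum_congr rfl fun w _ => ?_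
      ring
    rw [h1]
    simp only [D.idall, mul_sub, Finset.sum_sub_distrib]
    rw [← Finset.sum_mul, hx]
    simp [mul_comm]
  have c2 : ∑ p ∈ adjP H, (z p.1 - z p.2)^2 = 2*(2*m*n) * (-∑ u, ∑ v, x u * x v * r u v) := by
    have h1 : ∑ p ∈ adjP H, (z p.1 - z p.2)^2
        = ∑ p ∈ adjP H, z p.1 * (z p.1 - z p.2) + ∑ p ∈ adjP H, z p.2 * (z p.2 - z p.1) := by
      rw [← Finset.sum_add_distrib]
      refine Finset.sum_congr rfl fun p _ => ?_
      ring
    have h2 : ∑ p ∈ adjP H, z p.2 * (z p.2 - z p.1) = ∑ p ∈ adjP H, z p.1 * (z p.1 - z p.2) :=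
      sum_adjP_swap H (fun u w => z w * (z w - z u))
    have h3 : ∑ p ∈ adjP H, z p.1 * (z p.1 - z p.2) = ∑ u, z u * (-(2*m*n) * x u) := by
      rw [sum_adjP H (fun u w => z u * (z u - z w))]
      refine Finset.sum_congr rfl fun u _ => ?_
      rw [← Finset.mul_sum, c1]
    have h4 : ∑ u, z u * (-(2*m*n) * x u) = (2*m*n) * (-∑ u, ∑ v, x u * x v * r u v) := by
      rw [mul_neg, Finset.mul_sum, ← Finset.sum_neg_distrib]
      refine Finset.sum_congr rfl fun u _ => ?_
      rw [hz]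
      simp only [Finset.sum_mul, Finset.mul_sum, ← Finset.sum_neg_distrib]
      refine Finset.sum_congr rfl fun v _ => ?_
      ring
    rw [h1, h2, h3, h4]; ring
  -- the flow over the cut
  have c3 : ∑ p ∈ cutP H T, (z p.1 - z p.2) = -(2*m*n) * ∑ u ∈ T, x u := by
    have h1 : ∑ u ∈ T, ∑ w ∈ H.neighborFinset u, (z u - z w) = -(2*m*n) * ∑ u ∈ T, x u := by
      rw [Finset.mul_sum]
      exact Finset.sum_congr rfl fun u _ => c1 u
    rw [← h1]
    have h2 : ∑ u ∈ T, ∑ w ∈ H.neighborFinset u, (z u - z w)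
        = ∑ p ∈ adjP H, (if p.1 ∈ T then (z p.1 - z p.2) else 0) := by
      rw [sum_adjP H (fun u w => if u ∈ T then (z u - z w) else 0), ← Finset.sum_filter_add_sum_filter_not univ (fun u => u ∈ T)]
      have h5 : ∑ x ∈ univ.filter (fun u => ¬ u ∈ T), ∑ w ∈ H.neighborFinset x,
          (if x ∈ T then (z x - z w) else 0) = 0 := by
        apply Finset.sum_eq_zero
        intro u hu
        apply Finset.sum_eq_zero
        intro w _
        rw [if_neg (by simpa using hu)]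
      rw [h5, add_zero]
      apply Finset.sum_congr
      · ext u; simp
      · intro u hu
        refine Finset.sum_congr rfl fun w _ => ?_
        rw [if_pos (by simpa using hu)]
    rw [h2]
    have h3 : ∑ p ∈ adjP H, (if p.1 ∈ T then (z p.1 - z p.2) else 0)
        = ∑ p ∈ adjP H, (if p.1 ∈ T ∧ p.2 ∉ T then (z p.1 - z p.2) else 0)
        + ∑ p ∈ adjP H, (if p.1 ∈ T ∧ p.2 ∈ T then (z p.1 - z p.2) else 0) := by
      rw [← Finset.sum_add_distrib]
      refine Finset.sum_congr rfl fun p _ => ?_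
      by_cases h1 : p.1 ∈ T <;> by_cases h2 : p.2 ∈ T <;> simp [h1, h2]
    have h4 : ∑ p ∈ adjP H, (if p.1 ∈ T ∧ p.2 ∈ T then (z p.1 - z p.2) else 0) = 0 := by
      have h5 := sum_adjP_swap H (fun u w => if u ∈ T ∧ w ∈ T then (z u - z w) else 0)
      have h6 : ∑ p ∈ adjP H, (if p.2 ∈ T ∧ p.1 ∈ T then (z p.2 - z p.1) else 0)
          = - ∑ p ∈ adjP H, (if p.1 ∈ T ∧ p.2 ∈ T then (z p.1 - z p.2) else 0) := by
        rw [← Finset.sum_neg_distrib]
        refine Finset.sum_congr rfl fun p _ => ?_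
        by_cases h1 : p.1 ∈ T <;> by_cases h2 : p.2 ∈ T <;> simp [h1, h2]
      rw [h6] at h5
      linarith
    rw [h3, h4, add_zero, ← Finset.sum_filter]
    apply Finset.sum_congr
    · ext p
      simp only [cutP, adjP, mem_filter, mem_univ, true_and]
    · intro p _; rfl
  -- Cauchy-Schwarz
  have c4 : (∑ p ∈ cutP H T, (z p.1 - z p.2))^2
      ≤ ((cutP H T).card : ℤ) * ∑ p ∈ cutP H T, (z p.1 - z p.2)^2 :=
    sq_sum_le_card_mul_sum_sq
  have c5 : 2 * ∑ p ∈ cutP H T, (z p.1 - z p.2)^2 ≤ ∑ p ∈ adjP H, (z p.1 - z p.2)^2 := by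
    have h1 : ∑ p ∈ cutP H T, (z p.1 - z p.2)^2
        = ∑ p ∈ adjP H, (if p.1 ∈ T ∧ p.2 ∉ T then (z p.1 - z p.2)^2 else 0) := by
      rw [← Finset.sum_filter]
      apply Finset.sum_congr
      · ext p
        simp only [cutP, adjP, mem_filter, mem_univ, true_and]
      · intro p _; rfl
    have h2 : ∑ p ∈ adjP H, (if p.1 ∈ T ∧ p.2 ∉ T then (z p.1 - z p.2)^2 else 0)
        = ∑ p ∈ adjP H, (if p.2 ∈ T ∧ p.1 ∉ T then (z p.2 - z p.1)^2 else 0) :=
      sum_adjP_swap H (fun u w => if u ∈ T ∧ w ∉ T then (z u - z w)^2 else 0)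
    have h3 := h1.trans h2
    have h4 : 2 * ∑ p ∈ cutP H T, (z p.1 - z p.2)^2
        = ∑ p ∈ adjP H, (if p.1 ∈ T ∧ p.2 ∉ T then (z p.1 - z p.2)^2 else 0)
        + ∑ p ∈ adjP H, (if p.2 ∈ T ∧ p.1 ∉ T then (z p.2 - z p.1)^2 else 0) := by
      linarith [h1, h3]
    rw [h4, ← Finset.sum_add_distrib]
    apply Finset.sum_le_sum
    intro p _
    have hsq : 0 ≤ (z p.1 - z p.2)^2 := sq_nonneg _
    have hsq' : (z p.2 - z p.1)^2 = (z p.1 - z p.2)^2 := by ring
    by_cases h1 : p.1 ∈ T <;> by_cases h2 : p.2 ∈ T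
    · rw [if_neg (by tauto), if_neg (by tauto)]; linarith
    · rw [if_pos ⟨h1, h2⟩, if_neg (by tauto)]; linarith
    · rw [if_neg (by tauto), if_pos ⟨h2, h1⟩]; linarith
    · rw [if_neg (by tauto), if_neg (by tauto)]; linarith
  rw [c3] at c4
  set Q : ℤ := -∑ u, ∑ v, x u * x v * r u v with hQ
  set E : ℤ := ((cutP H T).card : ℤ) with hE
  have hE0 : 0 ≤ E := by rw [hE]; positivity
  set s : ℤ := ∑ u ∈ T, x u with hs
  have h1 : ∑ p ∈ cutP H T, (z p.1 - z p.2)^2 ≤ (2*m*n) * Q := by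
    rw [c2] at c5
    linarith
  have h2 : (2*m*n) * ((2*m*n) * s^2) ≤ (2*m*n) * (E * Q) := by
    have h3 := mul_le_mul_of_nonneg_left h1 hE0
    have h4 : (-(2*m*n) * s)^2 = (2*m*n) * ((2*m*n) * s^2) := by ring
    rw [h4] at c4
    linarith
  exact le_of_mul_le_mul_left h2 hmn

end Data

end Pool.Agent.H59.KRes
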