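import Mathlib
import Pool.Agent.H59.KRes.Cut

open Finset

namespace Pool.Agent.H59.KRes

variable {V : Type*} [Fintype V] [DecidableEq V]

namespace Data

variable {H : SimpleGraph V} [DecidableRel H.Adj] {m n : ℤ} {r : V → V → ℤ} {e : V → ℤ}

theorem near_le (D : Data H m n r e) {u v : V} (h : u ≠ v) : 2*n ≤ r u v := by
  have := D.hn
  have := D.hm
  rcases D.val u v h with h | h | h <;> rw [h] <;> linarith

theorem le_mid (D : Data H m n r e) {u v : V} (h : r u v ≠ 2*m) : r u v ≤ m+n-1 := by
  have := D.hn
  have := D.hm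
  rcases eq_or_ne u v with rfl | h'
  · rw [D.self]; linarith
  · rcases D.val u v h' with h1 | h1 | h1
    · linarith
    · linarith
    · exact absurd h1 h

theorem exc_bound (D : Data H m n r e) {x v z : V} (hv : r x v = 2*n) (hz : r x z = 2*m) :
    (m-n-1) * (((H.neighborFinset x).filter
      (fun w => w ≠ v ∧ ¬ (r w v = 2*n ∧ r w z = 2*m))).card : ℤ) ≤ 2*n := by
  have hn := D.hn
  have hm := D.hm
  have h1 := D.idt x v (D.ne_of_near hv)
  have h2 := D.idt x z (D.ne_of_far hz)
  have h3 : ∑ w ∈ H.neighborFinset x,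
      ((m-n-1) * (if w ≠ v ∧ ¬ (r w v = 2*n ∧ r w z = 2*m) then 1 else 0)
        - (if w = v then 2*n else 0))
      ≤ ∑ w ∈ H.neighborFinset x, ((r x z - r w z) - (r x v - r w v)) := by
    apply Finset.sum_le_sum
    intro w _
    rw [hv, hz]
    by_cases hwv : w = v
    · subst hwv
      rw [if_neg (by tauto), if_pos rfl, D.self]
      have := D.le_far w z
      linarith
    · rw [if_neg hwv]
      have h4 := D.near_le hwv
      have h5 := D.le_far w z
      by_cases h6 : r w v = 2*n
      · by_cases h7 : r w z = 2*m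
        · rw [if_neg (by tauto)]; linarith
        · rw [if_pos (by tauto)]
          have := D.le_mid h7
          linarith
      · rw [if_pos (by tauto)]
        rcases D.val w v hwv with h | h | h
        · exact absurd h h6
        · linarith
        · linarith
  rw [Finset.sum_sub_distrib, Finset.sum_sub_distrib, h1, h2, ← Finset.mul_sum,
    Finset.sum_boole, Finset.sum_ite_eq'] at h3
  have h4 : (if v ∈ H.neighborFinset x then 2*n else 0) ≤ 2*n := by
    split_ifs
    · exact le_rfl
    · linarith
  linarith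

theorem deg_ge (D : Data H m n r e) {u v z : V} (h : r u v = 2*n) (h' : r u z = 2*m) :
    n ≤ (H.degree u : ℤ) := by
  have hn := D.hn
  have hm := D.hm
  have h1 := D.deg_bound h h'
  have h2 : (m+n-1) * n ≤ (m+n-1) * (H.degree u : ℤ) := by nlinarith
  exact le_of_mul_le_mul_left h2 (by linarith)

theorem deg_le (D : Data H m n r e) {u z : V} (h' : r u z = 2*m) :
    (H.degree u : ℤ) ≤ m := by
  have hn := D.hn
  have hm := D.hm
  have h1 := D.e_nonneg h'
  have h2 := D.ids u
  have h3 : ∑ w ∈ H.neighborFinset u, (2*n) ≤ ∑ w ∈ H.neighborFinset u, r w u := by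
    apply Finset.sum_le_sum
    intro w hw
    have hadj : H.Adj u w := by simpa using hw
    exact D.near_le hadj.ne'
  rw [Finset.sum_const, H.card_neighborFinset_eq_degree, nsmul_eq_mul] at h3
  have h4 : (2*n) * (H.degree u : ℤ) ≤ (2*n) * m := by linarith
  exact le_of_mul_le_mul_left h4 (by linarith)

theorem nr_lower (D : Data H m n r e) {v w z : V}
    (h : r v w = 2*n) (h' : r v z = 2*m) :
    (m-n-1)*n - 2*n ≤ (m-n-1) * ((nr r n w).card : ℤ) := by
  have hn := D.hn
  have hm := D.hm
  have h1 := D.near_bound h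
  have h2 := D.e_nonneg h'
  have h3 := D.deg_ge h h'
  set k := (((H.neighborFinset v).filter (fun x => x ≠ w ∧ r x w ≠ 2*n)).card : ℤ) with hk
  have h4 : (H.degree v : ℤ) - k ≤ ((nr r n w).card : ℤ) := by
    have h5 : (H.neighborFinset v).card ≤
        ((H.neighborFinset v).filter (fun x => r x w = 2*n)).card +
        ((H.neighborFinset v).filter (fun x => x ≠ w ∧ r x w ≠ 2*n)).card +
        1 := by
      have hsub : H.neighborFinset v ⊆
        (((H.neighborFinset v).filter (fun x => r x w = 2*n)) ∪
        ((H.neighborFinset v).filter (fun x => x ≠ w ∧ r x w ≠ 2*n))) ∪ {w} := by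
        intro x hx
        simp only [mem_union, mem_filter, mem_singleton]
        by_cases hxw : x = w
        · right; exact hxw
        · by_cases hr : r x w = 2*n
          · left; left; exact ⟨hx, hr⟩
          · left; right; exact ⟨hx, hxw, hr⟩
      refine (Finset.card_le_card hsub).trans ?_
      refine (Finset.card_union_le _ _).trans ?_
      rw [Finset.card_singleton]
      gcongr
      exact Finset.card_union_le _ _
    have h6 : ((H.neighborFinset v).filter (fun x => r x w = 2*n)).card + 1 ≤ (nr r n w).card := by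
      have hv : v ∉ (H.neighborFinset v).filter (fun x => r x w = 2*n) := by simp
      rw [← Finset.card_insert_of_notMem hv]
      apply Finset.card_le_card
      intro x hx
      simp only [mem_insert, mem_filter] at hx
      rw [mem_nr, D.symm]
      rcases hx with rfl | hx
      · exact h
      · exact hx.2
    rw [H.card_neighborFinset_eq_degree] at h5
    have h7 : H.degree v ≤ (nr r n w).card +
      ((H.neighborFinset v).filter (fun x => x ≠ w ∧ r x w ≠ 2*n)).card := by omega
    have h8 : (H.degree v : ℤ) ≤ ((nr r n w).card : ℤ) + k := by rw [hk]; exact_mod_cast h7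
    linarith
  have h9 : (m-n-1) * k ≤ 2*n := by
    split_ifs at h1 <;> linarith
  have h10 : n - k ≤ ((nr r n w).card : ℤ) := by linarith
  have h11 := mul_le_mul_of_nonneg_left h10 (show (0:ℤ) ≤ m-n-1 by linarith)
  linarith

/-- negative vertices are pairwise near -/
theorem neg_near (D : Data H m n r e) {y y' : V} (hy : e y < 0) (hy' : e y' < 0) (hne : y ≠ y') :
    r y y' = 2*n := by
  have hn := D.hn
  have hm := D.hm
  rcases D.val y y' hne with h | h | h
  · exact h
  · exfalso
    have h1 := D.idt y y' hne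
    have h2 : 0 ≤ ∑ w ∈ H.neighborFinset y, (r y y' - r w y') := by
      apply Finset.sum_nonneg
      intro w _
      have h3 : r w y' ≠ 2*m := by
        intro h4
        rw [D.symm] at h4
        have := D.e_nonneg h4
        linarith
      have := D.le_mid h3
      linarith
    linarith
  · exfalso
    have := D.e_nonneg h
    linarith

/-! ### The clump -/

/-- near partners of `v` which have a far partner -/
def T' (r : V → V → ℤ) (m n : ℤ) (v : V) : Finset V := (nr r n v).filter (fun x => x ∈ W r m)

theorem mem_T' {v x : V} : x ∈ T' r m n v ↔ r v x = 2*n ∧ ∃ z, r x z = 2*m := by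
  simp [T']

/-- the clump of `v` -/
def TT (r : V → V → ℤ) (m n : ℤ) (v : V) : Finset V := insert v (T' r m n v)

theorem v_notMem (D : Data H m n r e) (v : V) : v ∉ T' r m n v := by
  rw [mem_T']
  rintro ⟨h, _⟩
  exact D.ne_of_near h rfl

theorem card_TT (D : Data H m n r e) (v : V) :
    ((TT r m n v).card : ℤ) = ((T' r m n v).card : ℤ) + 1 := by
  rw [TT, Finset.card_insert_of_notMem (D.v_notMem v)]
  push_cast; ring

theorem far_in_T' (D : Data H m n r e) {v x z : V} (hx : x ∈ T' r m n v) (hz : r x z = 2*m) :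
    (m-n-1)*n - (m-n-1) - 2*n ≤
      (m-n-1) * (((T' r m n v).filter (fun w => r w z = 2*m)).card : ℤ) := by
  have hn := D.hn
  have hm := D.hm
  rw [mem_T'] at hx
  have hxv : r x v = 2*n := by rw [D.symm]; exact hx.1
  have h1 := D.exc_bound hxv hz
  have h2 := D.deg_ge hxv hz
  have h3 : (H.neighborFinset x).card ≤
      ((T' r m n v).filter (fun w => r w z = 2*m)).card +
      ((H.neighborFinset x).filter (fun w => w ≠ v ∧ ¬ (r w v = 2*n ∧ r w z = 2*m))).card + 1 := by
    have hsub : H.neighborFinset x ⊆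
      (((T' r m n v).filter (fun w => r w z = 2*m)) ∪
      ((H.neighborFinset x).filter (fun w => w ≠ v ∧ ¬ (r w v = 2*n ∧ r w z = 2*m)))) ∪ {v} := by
      intro w hw
      simp only [mem_union, mem_filter, mem_singleton]
      by_cases hwv : w = v
      · right; exact hwv
      · by_cases hr : r w v = 2*n ∧ r w z = 2*m
        · left; left
          refine ⟨?_, hr.2⟩
          rw [mem_T']
          exact ⟨by rw [D.symm]; exact hr.1, z, hr.2⟩
        · left; right; exact ⟨hw, hwv, hr⟩
    refine (Finset.card_le_card hsub).trans ?_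
    refine (Finset.card_union_le _ _).trans ?_
    rw [Finset.card_singleton]
    gcongr
    exact Finset.card_union_le _ _
  rw [H.card_neighborFinset_eq_degree] at h3
  have h4 : (H.degree x : ℤ) ≤ (((T' r m n v).filter (fun w => r w z = 2*m)).card : ℤ) +
      (((H.neighborFinset x).filter (fun w => w ≠ v ∧ ¬ (r w v = 2*n ∧ r w z = 2*m))).card : ℤ)
      + 1 := by exact_mod_cast h3
  set F := (((T' r m n v).filter (fun w => r w z = 2*m)).card : ℤ)
  set X := (((H.neighborFinset x).filter (fun w => w ≠ v ∧ ¬ (r w v = 2*n ∧ r w z = 2*m))).card : ℤ)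
  have h5 : n - 1 - X ≤ F := by linarith
  have h6 := mul_le_mul_of_nonneg_left h5 (show (0:ℤ) ≤ m-n-1 by linarith)
  linarith

theorem out_nbr (D : Data H m n r e) {v x : V} (hx : x ∈ T' r m n v) :
    (m-n-1) * (((H.neighborFinset x).filter (fun w => w ∉ TT r m n v)).card : ℤ) ≤ 2*n := by
  have hn := D.hn
  have hm := D.hm
  rw [mem_T'] at hx
  have hxv : r x v = 2*n := by rw [D.symm]; exact hx.1
  obtain ⟨z, hz⟩ := hx.2
  have h1 := D.exc_bound hxv hz
  have h2 : ((H.neighborFinset x).filter (fun w => w ∉ TT r m n v)).card ≤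
      ((H.neighborFinset x).filter (fun w => w ≠ v ∧ ¬ (r w v = 2*n ∧ r w z = 2*m))).card := by
    apply Finset.card_le_card
    intro w hw
    simp only [mem_filter, TT, mem_insert, not_or] at hw ⊢
    refine ⟨hw.1, hw.2.1, ?_⟩
    intro hr
    apply hw.2.2
    rw [mem_T']
    exact ⟨by rw [D.symm]; exact hr.1, z, hr.2⟩
  have h3 : (((H.neighborFinset x).filter (fun w => w ∉ TT r m n v)).card : ℤ) ≤
      (((H.neighborFinset x).filter (fun w => w ≠ v ∧ ¬ (r w v = 2*n ∧ r w z = 2*m))).card : ℤ) := by
    exact_mod_cast h2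
  have h4 := mul_le_mul_of_nonneg_left h3 (show (0:ℤ) ≤ m-n-1 by linarith)
  linarith

theorem cut_card (D : Data H m n r e) {v z : V} (hz : r v z = 2*m) :
    (m-n-1) * ((cutP H (TT r m n v)).card : ℤ) ≤ 2*n*((T' r m n v).card : ℤ) + (m-n-1)*m := by
  have hn := D.hn
  have hm := D.hm
  have h1 : (cutP H (TT r m n v)).card
      = ∑ x ∈ TT r m n v, ((H.neighborFinset x).filter (fun w => w ∉ TT r m n v)).card := by
    rw [cutP, Finset.card_filter, Fintype.sum_prod_type]
    rw [← Finset.sum_filter_add_sum_filter_not univ (fun u => u ∈ TT r m n v)]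
    have h5 : ∑ x ∈ univ.filter (fun u => ¬ u ∈ TT r m n v), ∑ y : V,
        (if H.Adj x y ∧ x ∈ TT r m n v ∧ y ∉ TT r m n v then 1 else 0) = 0 := by
      apply Finset.sum_eq_zero
      intro u hu
      apply Finset.sum_eq_zero
      intro w _
      rw [if_neg]
      simp only [mem_filter, mem_univ, true_and] at hu
      tauto
    rw [h5, add_zero]
    apply Finset.sum_congr
    · ext u; simp
    · intro u hu
      rw [SimpleGraph.neighborFinset_eq_filter, Finset.filter_filter, Finset.card_filter]
      refine Finset.sum_congr rfl fun w _ => ?_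
      have hu' : u ∈ TT r m n v := by simpa using hu
      simp [hu']
  have h2 : (m-n-1) * ((cutP H (TT r m n v)).card : ℤ)
      = ∑ x ∈ TT r m n v, (m-n-1) *
        (((H.neighborFinset x).filter (fun w => w ∉ TT r m n v)).card : ℤ) := by
    rw [h1, ← Finset.mul_sum]; push_cast; rfl
  rw [h2]
  have h3 : ∑ x ∈ TT r m n v, (m-n-1) *
        (((H.neighborFinset x).filter (fun w => w ∉ TT r m n v)).card : ℤ)
      = (m-n-1) * (((H.neighborFinset v).filter (fun w => w ∉ TT r m n v)).card : ℤ)
        + ∑ x ∈ T' r m n v, (m-n-1) *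
        (((H.neighborFinset x).filter (fun w => w ∉ TT r m n v)).card : ℤ) := by
    conv_lhs => rw [TT, Finset.sum_insert (D.v_notMem v)]
    rfl
  rw [h3]
  have h4 : ∑ x ∈ T' r m n v, (m-n-1) *
        (((H.neighborFinset x).filter (fun w => w ∉ TT r m n v)).card : ℤ)
      ≤ ∑ x ∈ T' r m n v, 2*n := by
    apply Finset.sum_le_sum
    intro x hx
    exact D.out_nbr hx
  rw [Finset.sum_const, nsmul_eq_mul] at h4
  have h5 : (((H.neighborFinset v).filter (fun w => w ∉ TT r m n v)).card : ℤ) ≤ m := by
    refine le_trans ?_ (D.deg_le hz)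
    rw [← H.card_neighborFinset_eq_degree]
    exact_mod_cast Finset.card_filter_le _ _
  have h6 := mul_le_mul_of_nonneg_left h5 (show (0:ℤ) ≤ m-n-1 by linarith)
  linarith

/-- near pairs starting outside the clump -/
theorem near_out (D : Data H m n r e) {u v z y : V} (h : r u v = 2*n) (hz : r u z = 2*m)
    (hy : r v y = 2*m) :
    ((TT r m n v).card : ℤ) * ((m-n-1)*n - 2*n) +
      (m-n-1) * ∑ x ∈ (TT r m n v)ᶜ, ((nr r n x).card : ℤ) ≤ (m-n-1) * (n*(n-1)) := by
  have hn := D.hn
  have hm := D.hm
  rw [← D.sum_nr, ← Finset.sum_add_sum_compl (TT r m n v), mul_add]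
  have h1 : ∑ x ∈ TT r m n v, ((m-n-1)*n - 2*n) ≤
      ∑ x ∈ TT r m n v, (m-n-1) * ((nr r n x).card : ℤ) := by
    apply Finset.sum_le_sum
    intro x hx
    rw [TT, mem_insert, mem_T'] at hx
    rcases hx with rfl | hx
    · exact D.nr_lower h hz
    · exact D.nr_lower hx.1 hy
  rw [Finset.sum_const, nsmul_eq_mul, ← Finset.mul_sum] at h1
  linarith

end Data

end Pool.Agent.H59.KRes
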