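import Mathlib
import Pool.Agent.H59.KRes.Clump

open Finset

namespace Pool.Agent.H59.KRes

variable {V : Type*} [Fintype V] [DecidableEq V]

namespace Data

variable {H : SimpleGraph V} [DecidableRel H.Adj] {m n : ℤ} {r : V → V → ℤ} {e : V → ℤ}

/-- outside vertices that are far from a vertex of the clump (other than `v`) -/
def ZZ (r : V → V → ℤ) (m n : ℤ) (v : V) : Finset V :=
  (TT r m n v)ᶜ.filter (fun z => ∃ x ∈ T' r m n v, r x z = 2*m)

/-- outside vertices not in `ZZ` with nonnegative curvature -/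
def YY (r : V → V → ℤ) (e : V → ℤ) (m n : ℤ) (v : V) : Finset V :=
  (TT r m n v)ᶜ.filter (fun y => y ∉ ZZ r m n v ∧ 0 ≤ e y)

/-- outside vertices with negative curvature -/
def PP (r : V → V → ℤ) (e : V → ℤ) (m n : ℤ) (v : V) : Finset V :=
  (TT r m n v)ᶜ.filter (fun y => e y < 0)

theorem mem_ZZ {v z : V} : z ∈ ZZ r m n v ↔
    z ∉ TT r m n v ∧ ∃ x ∈ T' r m n v, r x z = 2*m := by
  simp [ZZ]

theorem mem_YY {v z : V} : z ∈ YY r e m n v ↔
    z ∉ TT r m n v ∧ z ∉ ZZ r m n v ∧ 0 ≤ e z := by
  simp [YY]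

theorem mem_PP {v z : V} : z ∈ PP r e m n v ↔ z ∉ TT r m n v ∧ e z < 0 := by
  simp [PP]

theorem sub_TT {v x : V} (h : x ∈ T' r m n v) : x ∈ TT r m n v := by
  rw [TT]; exact mem_insert_of_mem h

theorem card_Z (D : Data H m n r e) (v : V) :
    2 * (((m-n-1)*n - (m-n-1) - 2*n) * ((ZZ r m n v).card : ℤ)) ≤ (m-n-1) * (m*(m-1)) := by
  have hn := D.hn
  have hm := D.hm
  set K := (m-n-1)*n - (m-n-1) - 2*n with hK
  have h1 : ∀ z ∈ ZZ r m n v, K ≤
      (m-n-1) * (((T' r m n v).filter (fun w => r w z = 2*m)).card : ℤ) := by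
    intro z hz
    rw [mem_ZZ] at hz
    obtain ⟨_, x, hx, hxz⟩ := hz
    exact D.far_in_T' hx hxz
  have h2 : K * ((ZZ r m n v).card : ℤ) ≤ (m-n-1) *
      ∑ z ∈ ZZ r m n v, (((T' r m n v).filter (fun w => r w z = 2*m)).card : ℤ) := by
    rw [Finset.mul_sum]
    have := Finset.sum_le_sum h1
    rw [Finset.sum_const, nsmul_eq_mul] at this
    linarith
  have h3 : ∑ z ∈ ZZ r m n v, (((T' r m n v).filter (fun w => r w z = 2*m)).card : ℤ)
      ≤ ∑ z ∈ ZZ r m n v, ((fr r m z).card : ℤ) := by
    apply Finset.sum_le_sum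
    intro z _
    have : ((T' r m n v).filter (fun w => r w z = 2*m)).card ≤ (fr r m z).card := by
      apply Finset.card_le_card
      intro w hw
      rw [mem_filter] at hw
      rw [mem_fr, D.symm]
      exact hw.2
    exact_mod_cast this
  have h4 : ∑ z ∈ ZZ r m n v, (((T' r m n v).filter (fun w => r w z = 2*m)).card : ℤ)
      ≤ ∑ x ∈ T' r m n v, ((fr r m x).card : ℤ) := by
    have h5 : ∑ z ∈ ZZ r m n v, (((T' r m n v).filter (fun w => r w z = 2*m)).card)
        = ∑ x ∈ T' r m n v, (((ZZ r m n v).filter (fun z => r x z = 2*m)).card) := by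
      simp only [Finset.card_filter]
      exact Finset.sum_comm
    have h6 : ∑ x ∈ T' r m n v, (((ZZ r m n v).filter (fun z => r x z = 2*m)).card)
        ≤ ∑ x ∈ T' r m n v, (fr r m x).card := by
      apply Finset.sum_le_sum
      intro x _
      apply Finset.card_le_card
      intro w hw
      rw [mem_filter] at hw
      rw [mem_fr]
      exact hw.2
    exact_mod_cast h5.trans_le h6
  have h7 : ∑ z ∈ ZZ r m n v, ((fr r m z).card : ℤ) + ∑ x ∈ T' r m n v, ((fr r m x).card : ℤ)
      ≤ m*(m-1) := by
    have hdisj : Disjoint (ZZ r m n v) (T' r m n v) := by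
      rw [Finset.disjoint_left]
      intro z hz hz'
      rw [mem_ZZ] at hz
      exact hz.1 (sub_TT hz')
    rw [← Finset.sum_union hdisj, ← D.sum_fr]
    apply Finset.sum_le_sum_of_subset_of_nonneg (subset_univ _)
    intro i _ _; positivity
  have h8 : (0:ℤ) ≤ m-n-1 := by linarith
  have h9 := mul_le_mul_of_nonneg_left (add_le_add h3 h4) h8
  have h10 := mul_le_mul_of_nonneg_left h7 h8
  linarith

theorem e_cut (H : SimpleGraph V) [DecidableRel H.Adj] (T S : Finset V) (hS : ∀ y ∈ S, y ∉ T) :
    ∑ y ∈ S, (((H.neighborFinset y).filter (fun w => w ∈ T)).card : ℤ) ≤ ((cutP H T).card : ℤ) := by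
  have h1 : (cutP H T).card = ∑ y, ∑ t, (if H.Adj t y ∧ t ∈ T ∧ y ∉ T then 1 else 0) := by
    rw [cutP, Finset.card_filter, Fintype.sum_prod_type, Finset.sum_comm]
  have h2 : ∑ y ∈ S, ((H.neighborFinset y).filter (fun w => w ∈ T)).card
      ≤ ∑ y, ∑ t, (if H.Adj t y ∧ t ∈ T ∧ y ∉ T then 1 else 0) := by
    calc ∑ y ∈ S, ((H.neighborFinset y).filter (fun w => w ∈ T)).card
        = ∑ y ∈ S, ∑ t, (if H.Adj t y ∧ t ∈ T ∧ y ∉ T then 1 else 0) := by
          refine Finset.sum_congr rfl fun y hy => ?_
          rw [SimpleGraph.neighborFinset_eq_filter, Finset.filter_filter, Finset.card_filter]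
          refine Finset.sum_congr rfl fun t _ => ?_
          have := hS y hy
          simp [this, H.adj_comm y t]
      _ ≤ _ := by
          apply Finset.sum_le_sum_of_subset_of_nonneg (subset_univ _)
          intro i _ _; positivity
  rw [← h1] at h2
  exact_mod_cast h2

theorem eYZ (D : Data H m n r e) (v : V) :
    ((2*(m-n-1)+2) * ((m-n-1)*n - (m-n-1) - 2*n) - (m-n-1)^2 * ((T' r m n v).card : ℤ))
      * ∑ y ∈ YY r e m n v, (((H.neighborFinset y).filter (fun w => w ∈ ZZ r m n v)).card : ℤ)
    ≤ (m-n-1) * ((m+n-1) + (m-n-1) * ((T' r m n v).card : ℤ)) * ((cutP H (TT r m n v)).card : ℤ)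
      + (m-n-1)^2 * (((TT r m n v)ᶜ.card : ℤ) * ∑ x ∈ (TT r m n v)ᶜ, ((nr r n x).card : ℤ)) := by
  have hn := D.hn
  have hm := D.hm
  set a := m-n-1 with ha
  have ha1 : 1 ≤ a := by linarith
  set K := a*n - a - 2*n with hK
  set τ := ((T' r m n v).card : ℤ) with hτ
  set κ := (2*a+2) * K - a^2 * τ with hκ
  set G := ∑ x ∈ (TT r m n v)ᶜ, ((nr r n x).card : ℤ) with hG
  have hτ0 : 0 ≤ τ := by rw [hτ]; positivity
  -- pointwise bound on h
  have hh : ∀ w, a * ∑ x ∈ T' r m n v, ((m+n-1) - r w x) ≤
      -κ * (if w ∈ ZZ r m n v then 1 else 0)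
      + a * ((m+n-1) + a*τ) * (if w ∈ TT r m n v then 1 else 0)
      + a^2 * (if w ∉ TT r m n v then ((nr r n w).card : ℤ) else 0) := by
    intro w
    by_cases hwT : w ∈ TT r m n v
    · have hwZ : w ∉ ZZ r m n v := by rw [mem_ZZ]; tauto
      rw [if_neg hwZ, if_pos hwT, if_neg (by tauto)]
      have h1 : ∑ x ∈ T' r m n v, ((m+n-1) - r w x) ≤
          ∑ x ∈ T' r m n v, (a + (if w = x then (m+n-1) else 0)) := by
        apply Finset.sum_le_sum
        intro x _
        by_cases hwx : w = x
        · rw [if_pos hwx, hwx, D.self]; linarith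
        · rw [if_neg hwx]
          have := D.near_le hwx
          linarith
      rw [Finset.sum_add_distrib, Finset.sum_const, nsmul_eq_mul, Finset.sum_ite_eq] at h1
      have h2 : (if w ∈ T' r m n v then (m+n-1) else 0) ≤ m+n-1 := by
        split_ifs
        · exact le_rfl
        · linarith
      have h3 : ∑ x ∈ T' r m n v, ((m+n-1) - r w x) ≤ (m+n-1) + a*τ := by
        rw [hτ]; linarith
      have := mul_le_mul_of_nonneg_left h3 (show (0:ℤ) ≤ a by linarith)
      linarith
    · have hwT' : w ∉ T' r m n v := fun h => hwT (sub_TT h)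
      by_cases hwZ : w ∈ ZZ r m n v
      · rw [if_pos hwZ, if_neg hwT, if_pos hwT]
        have hF : K ≤ a * (((T' r m n v).filter (fun x => r x w = 2*m)).card : ℤ) := by
          rw [mem_ZZ] at hwZ
          obtain ⟨_, x, hx, hxz⟩ := hwZ
          exact D.far_in_T' hx hxz
        have h1 : ∑ x ∈ T' r m n v, ((m+n-1) - r w x) ≤
            ∑ x ∈ T' r m n v, (a - (if r x w = 2*m then (2*a+2) else 0)) := by
          apply Finset.sum_le_sum
          intro x hx
          have hwx : w ≠ x := by rintro rfl; exact hwT' hx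
          by_cases hf : r x w = 2*m
          · rw [if_pos hf, D.symm w x, hf]; linarith
          · rw [if_neg hf]
            have := D.near_le hwx
            linarith
        have h1' : ∑ x ∈ T' r m n v, (a - (if r x w = 2*m then (2*a+2) else 0))
            = τ * a - (((T' r m n v).filter (fun x => r x w = 2*m)).card : ℤ) * (2*a+2) := by
          rw [Finset.sum_sub_distrib, Finset.sum_const, nsmul_eq_mul, ← Finset.sum_filter,
            Finset.sum_const, nsmul_eq_mul]
        rw [h1'] at h1
        set F := (((T' r m n v).filter (fun x => r x w = 2*m)).card : ℤ)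
        have h2 := mul_le_mul_of_nonneg_left h1 (show (0:ℤ) ≤ a by linarith)
        have h3 := mul_le_mul_of_nonneg_left hF (show (0:ℤ) ≤ 2*a+2 by linarith)
        have h4 : (0:ℤ) ≤ a^2 * ((nr r n w).card : ℤ) := by positivity
        rw [hκ]
        linarith
      · rw [if_neg hwZ, if_neg hwT, if_pos hwT]
        have h1 : ∑ x ∈ T' r m n v, ((m+n-1) - r w x) ≤
            ∑ x ∈ T' r m n v, (if r w x = 2*n then a else 0) := by
          apply Finset.sum_le_sum
          intro x hx
          have hwx : w ≠ x := by rintro rfl; exact hwT' hx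
          rcases D.val w x hwx with h | h | h
          · rw [if_pos h, h]; linarith
          · rw [h]
            split_ifs
            · linarith
            · linarith
          · exfalso
            apply hwZ
            rw [mem_ZZ]
            exact ⟨hwT, x, hx, by rw [D.symm]; exact h⟩
        rw [← Finset.sum_filter, Finset.sum_const, nsmul_eq_mul] at h1
        have h2 : (((T' r m n v).filter (fun x => r w x = 2*n)).card : ℤ)
            ≤ ((nr r n w).card : ℤ) := by
          have : ((T' r m n v).filter (fun x => r w x = 2*n)).card ≤ (nr r n w).card := by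
            apply Finset.card_le_card
            intro x hx
            rw [mem_filter] at hx
            rw [mem_nr]; exact hx.2
          exact_mod_cast this
        have h3 := mul_le_mul_of_nonneg_right h2 (show (0:ℤ) ≤ a by linarith)
        have h4 := mul_le_mul_of_nonneg_left (h1.trans h3) (show (0:ℤ) ≤ a by linarith)
        linarith
  -- nonnegativity for y
  have hy : ∀ y ∈ YY r e m n v, 0 ≤ ∑ w ∈ H.neighborFinset y,
      (a * ∑ x ∈ T' r m n v, ((m+n-1) - r w x)) := by
    intro y hy
    rw [mem_YY] at hy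
    obtain ⟨hyT, hyZ, hey⟩ := hy
    rw [← Finset.mul_sum, Finset.sum_comm]
    apply mul_nonneg (by linarith)
    apply Finset.sum_nonneg
    intro x hx
    have hyx : y ≠ x := by rintro rfl; exact hyT (sub_TT hx)
    have h1 := D.idt y x hyx
    have h2 : r y x ≤ m+n-1 := by
      apply D.le_mid
      intro h
      apply hyZ
      rw [mem_ZZ]
      exact ⟨hyT, x, hx, by rw [D.symm]; exact h⟩
    have h3 : ∑ w ∈ H.neighborFinset y, (r y x - r w x) ≤
        ∑ w ∈ H.neighborFinset y, ((m+n-1) - r w x) := by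
      apply Finset.sum_le_sum
      intro w _
      linarith
    linarith
  have h1 : (0:ℤ) ≤ ∑ y ∈ YY r e m n v, ∑ w ∈ H.neighborFinset y,
      (-κ * (if w ∈ ZZ r m n v then 1 else 0)
      + a * ((m+n-1) + a*τ) * (if w ∈ TT r m n v then 1 else 0)
      + a^2 * (if w ∉ TT r m n v then ((nr r n w).card : ℤ) else 0)) := by
    apply Finset.sum_nonneg
    intro y hy'
    exact (hy y hy').trans (Finset.sum_le_sum fun w _ => hh w)
  simp only [Finset.sum_add_distrib, ← Finset.mul_sum, Finset.sum_boole] at h1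
  have h2 := e_cut H (TT r m n v) (YY r e m n v) (fun y hy => (mem_YY.mp hy).1)
  have h3 : ∑ y ∈ YY r e m n v, ∑ w ∈ H.neighborFinset y,
      (if w ∉ TT r m n v then ((nr r n w).card : ℤ) else 0) ≤
      ((TT r m n v)ᶜ.card : ℤ) * G := by
    have h4 : ∀ y ∈ YY r e m n v, ∑ w ∈ H.neighborFinset y,
      (if w ∉ TT r m n v then ((nr r n w).card : ℤ) else 0) ≤ G := by
      intro y _
      rw [hG, ← Finset.sum_filter]
      apply Finset.sum_le_sum_of_subset_of_nonneg
      · intro w hw
        rw [mem_filter] at hw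
        rw [mem_compl]; exact hw.2
      · intro i _ _; exact Int.natCast_nonneg _
    have h5 := Finset.sum_le_sum h4
    rw [Finset.sum_const, nsmul_eq_mul] at h5
    have hG0 : 0 ≤ G := Finset.sum_nonneg (fun _ _ => Int.natCast_nonneg _)
    have h6 : ((YY r e m n v).card : ℤ) ≤ ((TT r m n v)ᶜ.card : ℤ) := by
      exact_mod_cast Finset.card_filter_le _ _
    have h7 := mul_le_mul_of_nonneg_right h6 hG0
    linarith
  have h4 := mul_le_mul_of_nonneg_left h2 (show (0:ℤ) ≤ a * ((m+n-1) + a*τ) by
    apply mul_nonneg (by linarith)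
    have : 0 ≤ a*τ := mul_nonneg (by linarith) hτ0
    linarith)
  have h5 := mul_le_mul_of_nonneg_left h3 (show (0:ℤ) ≤ a^2 by positivity)
  linarith

theorem degZ (D : Data H m n r e) {v z : V} (hz : z ∈ ZZ r m n v) :
    m * n ≤ (2*m-n) * (H.degree z : ℤ) := by
  have hn := D.hn
  have hm := D.hm
  rw [mem_ZZ] at hz
  obtain ⟨hzT, x, hx, hxz⟩ := hz
  rw [mem_T'] at hx
  have hzx : r z x = 2*m := by rw [D.symm]; exact hxz
  have hnadj : ¬ H.Adj x z := D.far_not_adj (by rw [D.symm]; exact hx.1) hxz
  have h1 := D.idt z x (D.ne_of_far hzx)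
  have h2 := D.ids z
  have h3 : ∑ w ∈ H.neighborFinset z, (r z x - r w x) ≤ ∑ w ∈ H.neighborFinset z, (2*m - 2*n) := by
    apply Finset.sum_le_sum
    intro w hw
    have hadj : H.Adj z w := by simpa using hw
    have hwx : w ≠ x := by rintro rfl; exact hnadj hadj.symm
    have := D.near_le hwx
    linarith
  have h4 : ∑ w ∈ H.neighborFinset z, r w z ≤ ∑ w ∈ H.neighborFinset z, (2*m) := by
    apply Finset.sum_le_sum
    intro w _
    exact D.le_far w z
  rw [Finset.sum_const, H.card_neighborFinset_eq_degree, nsmul_eq_mul] at h3 h4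
  nlinarith

theorem cardP (D : Data H m n r e) (v : V) :
    ((PP r e m n v).card : ℤ) * (((PP r e m n v).card : ℤ) - 1) ≤
      ∑ x ∈ (TT r m n v)ᶜ, ((nr r n x).card : ℤ) := by
  have hsub : PP r e m n v ⊆ (TT r m n v)ᶜ := Finset.filter_subset _ _
  have h1 : ∑ x ∈ PP r e m n v, (((PP r e m n v).card : ℤ) - 1) ≤
      ∑ x ∈ PP r e m n v, ((nr r n x).card : ℤ) := by
    apply Finset.sum_le_sum
    intro x hx
    have h2 : (PP r e m n v).erase x ⊆ nr r n x := by
      intro y hy
      rw [mem_erase] at hy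
      rw [mem_nr]
      exact D.neg_near (mem_PP.mp hx).2 (mem_PP.mp hy.2).2 hy.1.symm
    have h3 := Finset.card_le_card h2
    rw [Finset.card_erase_of_mem hx] at h3
    have h4 : 0 < (PP r e m n v).card := Finset.card_pos.mpr ⟨x, hx⟩
    have h5 : (PP r e m n v).card ≤ (nr r n x).card + 1 := by omega
    have h6 : ((PP r e m n v).card : ℤ) ≤ ((nr r n x).card : ℤ) + 1 := by exact_mod_cast h5
    linarith
  rw [Finset.sum_const, nsmul_eq_mul] at h1
  refine h1.trans ?_
  apply Finset.sum_le_sum_of_subset_of_nonneg hsub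
  intro i _ _; positivity

theorem sum_degZ (v : V) :
    ∑ z ∈ ZZ r m n v, (H.degree z : ℤ) ≤
      ((ZZ r m n v).card : ℤ) * ((ZZ r m n v).card : ℤ)
      + ∑ y ∈ YY r e m n v, (((H.neighborFinset y).filter (fun w => w ∈ ZZ r m n v)).card : ℤ)
      + ((ZZ r m n v).card : ℤ) * ((PP r e m n v).card : ℤ)
      + ((cutP H (TT r m n v)).card : ℤ) := by
  have h1 : ∀ z ∈ ZZ r m n v, (H.degree z : ℤ) ≤ ((ZZ r m n v).card : ℤ)
      + (((H.neighborFinset z).filter (fun w => w ∈ YY r e m n v)).card : ℤ)
      + ((PP r e m n v).card : ℤ)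
      + (((H.neighborFinset z).filter (fun w => w ∈ TT r m n v)).card : ℤ) := by
    intro z _
    have hsub : H.neighborFinset z ⊆ ((ZZ r m n v ∪
        (H.neighborFinset z).filter (fun w => w ∈ YY r e m n v)) ∪ PP r e m n v) ∪
        (H.neighborFinset z).filter (fun w => w ∈ TT r m n v) := by
      intro w hw
      simp only [mem_union, mem_filter]
      by_cases h1 : w ∈ TT r m n v
      · right; exact ⟨hw, h1⟩
      · left
        by_cases h2 : e w < 0
        · right; exact mem_PP.mpr ⟨h1, h2⟩
        · left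
          by_cases h3 : w ∈ ZZ r m n v
          · left; exact h3
          · right; exact ⟨hw, mem_YY.mpr ⟨h1, h3, by linarith⟩⟩
    have h2 := Finset.card_le_card hsub
    have h3 := Finset.card_union_le ((ZZ r m n v ∪
        (H.neighborFinset z).filter (fun w => w ∈ YY r e m n v)) ∪ PP r e m n v)
        ((H.neighborFinset z).filter (fun w => w ∈ TT r m n v))
    have h4 := Finset.card_union_le (ZZ r m n v ∪
        (H.neighborFinset z).filter (fun w => w ∈ YY r e m n v)) (PP r e m n v)
    have h5 := Finset.card_union_le (ZZ r m n v)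
        ((H.neighborFinset z).filter (fun w => w ∈ YY r e m n v))
    rw [H.card_neighborFinset_eq_degree] at h2
    have h6 : H.degree z ≤ (ZZ r m n v).card
      + ((H.neighborFinset z).filter (fun w => w ∈ YY r e m n v)).card
      + (PP r e m n v).card
      + ((H.neighborFinset z).filter (fun w => w ∈ TT r m n v)).card := by omega
    exact_mod_cast h6
  have h2 := Finset.sum_le_sum h1
  rw [Finset.sum_add_distrib, Finset.sum_add_distrib, Finset.sum_add_distrib, Finset.sum_const,
    Finset.sum_const, nsmul_eq_mul, nsmul_eq_mul] at h2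
  have h3 := e_cut H (TT r m n v) (ZZ r m n v) (fun y hy => (mem_ZZ.mp hy).1)
  have h4 : ∑ z ∈ ZZ r m n v, (((H.neighborFinset z).filter (fun w => w ∈ YY r e m n v)).card : ℤ)
      = ∑ y ∈ YY r e m n v, (((H.neighborFinset y).filter (fun w => w ∈ ZZ r m n v)).card : ℤ) := by
    have h5 : ∑ z ∈ ZZ r m n v, ((H.neighborFinset z).filter (fun w => w ∈ YY r e m n v)).card
      = ∑ y ∈ YY r e m n v, ((H.neighborFinset y).filter (fun w => w ∈ ZZ r m n v)).card := by
      have e1 : ∀ z, ((H.neighborFinset z).filter (fun w => w ∈ YY r e m n v)).card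
          = ((YY r e m n v).filter (fun w => H.Adj z w)).card := by
        intro z
        congr 1
        ext w
        simp only [mem_filter, SimpleGraph.mem_neighborFinset]
        tauto
      have e2 : ∀ z, ((H.neighborFinset z).filter (fun w => w ∈ ZZ r m n v)).card
          = ((ZZ r m n v).filter (fun w => H.Adj w z)).card := by
        intro z
        congr 1
        ext w
        simp only [mem_filter, SimpleGraph.mem_neighborFinset, H.adj_comm z w]
        tauto
      simp only [e1, e2, Finset.card_filter]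
      exact Finset.sum_comm
    exact_mod_cast h5
  linarith

end Data

end Pool.Agent.H59.KRes
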