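import Mathlib

namespace Pool.Agent.H59.KRes

/-- bound for the main part of the quadratic form -/
theorem F_bound {n a t τ rTT : ℝ} (ha : 199 ≤ a) (ht : a ≤ 4*t) (hn : n = a*t)
    (hτ1 : n - 2*t ≤ τ) (hτ2 : τ ≤ n + 2.03*t)
    (hr1 : 2*n*(τ*(τ-1)) ≤ rTT) (hr2 : rTT ≤ 2*(n+a+1)*(τ*(τ-1))) :
    (2*τ*(2*n+a+1) - (2*n+a+1)^2) * rTT
      + 2*τ*(2*n+a+1)*((2*n+a)*τ*((2*n+a+1)-τ))
      - τ^2*((2*n+a)*((2*n+a+1)^2-(2*n+a+1)) - a*(n*(n-1)) + (a+2)*((n+a+1)*(n+a)))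
      ≤ 11*n^4 := by
  have ht1 : 49 ≤ t := by linarith
  have hnt : 199*t ≤ n := by rw [hn]; nlinarith
  have hn0 : 0 < n := by linarith
  obtain ⟨θ, hθ⟩ : ∃ θ, τ = n + θ := ⟨τ - n, by ring⟩
  have hθ1 : -2*t ≤ θ := by linarith
  have hθ2 : θ ≤ 2.03*t := by linarith
  have hτ0 : 0 < τ := by linarith
  have hτu : τ ≤ 1.0103*n := by linarith
  have hN : 0 < 2*n+a+1 := by linarith
  have hNu : 2*n+a+1 ≤ 2.0204*n := by linarith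
  have hτsq : τ^2 ≤ 1.0208*n^2 := by nlinarith
  rcases le_total (2*θ) (a+1) with hc | hc
  · have h1 : (2*n+a+1)*(2*θ-a-1)*rTT ≤ (2*n+a+1)*(2*θ-a-1)*(2*n*(τ*(τ-1))) := by
      apply mul_le_mul_of_nonpos_left hr1
      exact mul_nonpos_of_nonneg_of_nonpos hN.le (by linarith)
    have h2 : (2*τ*(2*n+a+1) - (2*n+a+1)^2) * rTT
      + 2*τ*(2*n+a+1)*((2*n+a)*τ*((2*n+a+1)-τ))
      - τ^2*((2*n+a)*((2*n+a+1)^2-(2*n+a+1)) - a*(n*(n-1)) + (a+2)*((n+a+1)*(n+a)))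
      = (2*n+a+1)*(2*θ-a-1)*rTT - (2*n+a+1)*(2*θ-a-1)*(2*n*(τ*(τ-1)))
        + (τ^2*(2*(n+a+1)*n-(2*a+2)*n-2*(2*n+a+1)*(a*θ)) + 2*n*(2*n+a+1)*τ*(a+1-2*θ)) := by
      rw [hθ]; ring
    have h3 : 2*(n+a+1)*n-(2*a+2)*n-2*(2*n+a+1)*(a*θ) ≤ 10.1*n^2 := by
      have h4 : -(2*n) ≤ a*θ := by rw [hn]; nlinarith
      nlinarith
    have h5 : τ^2*(2*(n+a+1)*n-(2*a+2)*n-2*(2*n+a+1)*(a*θ)) ≤ τ^2*(10.1*n^2) :=
      mul_le_mul_of_nonneg_left h3 (by positivity)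
    have h6 : τ^2*(10.1*n^2) ≤ (1.0208*n^2)*(10.1*n^2) :=
      mul_le_mul_of_nonneg_right hτsq (by positivity)
    have h7 : 2*n*(2*n+a+1)*τ*(a+1-2*θ) ≤ 2*n*(2*n+a+1)*τ*(0.041*n) := by
      apply mul_le_mul_of_nonneg_left _ (by positivity)
      linarith
    have h8 : 2*n*(2*n+a+1)*τ*(0.041*n) ≤ 0.2*n^4 := by
      have h9 : (2*n+a+1)*τ ≤ (2.0204*n)*(1.0103*n) :=
        mul_le_mul hNu hτu hτ0.le (by positivity)
      have h10 : 2*n*(2*n+a+1)*τ*(0.041*n) = (0.082*n^2)*((2*n+a+1)*τ) := by ring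
      rw [h10]
      have := mul_le_mul_of_nonneg_left h9 (show (0:ℝ) ≤ 0.082*n^2 by positivity)
      nlinarith [pow_pos hn0 4]
    have h11 : (1.0208*n^2)*(10.1*n^2) = 10.31008*n^4 := by ring
    rw [h2]
    have := pow_pos hn0 4
    linarith
  · have h1 : (2*n+a+1)*(2*θ-a-1)*rTT ≤ (2*n+a+1)*(2*θ-a-1)*(2*(n+a+1)*(τ*(τ-1))) := by
      apply mul_le_mul_of_nonneg_left hr2
      exact mul_nonneg hN.le (by linarith)
    have h1' : (2*n+a+1)*(2*θ-a-1)*(2*(n+a+1)*(τ*(τ-1))) ≤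
        (2*n+a+1)*(2*θ-a-1)*(2*(n+a+1)*τ^2) := by
      apply mul_le_mul_of_nonneg_left _ (mul_nonneg hN.le (by linarith))
      apply mul_le_mul_of_nonneg_left _ (by linarith)
      nlinarith
    have h2 : (2*τ*(2*n+a+1) - (2*n+a+1)^2) * rTT
      + 2*τ*(2*n+a+1)*((2*n+a)*τ*((2*n+a+1)-τ))
      - τ^2*((2*n+a)*((2*n+a+1)^2-(2*n+a+1)) - a*(n*(n-1)) + (a+2)*((n+a+1)*(n+a)))
      = (2*n+a+1)*(2*θ-a-1)*rTT - (2*n+a+1)*(2*θ-a-1)*(2*(n+a+1)*τ^2)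
        + τ^2*(2*(n+a+1)*n - 2*(a+1)*((n+a+1)^2-n^2) - (2*a+2)*n
          + 2*(2*n+a+1)*((a+2)*θ)) := by
      rw [hθ]; ring
    have h3 : 2*(n+a+1)*n - 2*(a+1)*((n+a+1)^2-n^2) - (2*a+2)*n
          + 2*(2*n+a+1)*((a+2)*θ) ≤ 10.4*n^2 := by
      have h4 : (a+2)*θ ≤ 2.051*n := by
        have h5 : (a+2)*θ ≤ (a+2)*(2.03*t) := mul_le_mul_of_nonneg_left hθ2 (by linarith)
        nlinarith
      have h5 : (2*n+a+1)*((a+2)*θ) ≤ (2.0204*n)*(2.051*n) :=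
        mul_le_mul hNu h4 (mul_nonneg (by linarith) (by linarith)) (by linarith)
      have h6 : 0 ≤ 2*(a+1)*((n+a+1)^2-n^2) := by
        apply mul_nonneg (by linarith)
        nlinarith
      nlinarith
    have h5 := mul_le_mul_of_nonneg_left h3 (show (0:ℝ) ≤ τ^2 by positivity)
    have h6 : τ^2*(10.4*n^2) ≤ (1.0208*n^2)*(10.4*n^2) :=
      mul_le_mul_of_nonneg_right hτsq (by positivity)
    have h11 : (1.0208*n^2)*(10.4*n^2) = 10.61632*n^4 := by ring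
    rw [h2]
    have := pow_pos hn0 4
    linarith

theorem tau_lower {n a t τ : ℝ} (ha : 0 < a) (hn : n = a*t)
    (h1 : a*n - a - 2*n ≤ a*(τ-1)) : n - 2*t ≤ τ := by
  have : a*(n-2*t) ≤ a*τ := by
    have : a*(n-2*t) = a*n - 2*(a*t) := by ring
    rw [this, ← hn]; linarith
  exact le_of_mul_le_mul_left this ha

theorem tau_upper {n a t τ : ℝ} (ha : 199 ≤ a) (hn : n = a*t) (hn0 : 0 < n) (hnt : 199*t ≤ n)
    (e1 : τ*(a*n-2*n) ≤ a*(n*(n-1))) (ht : 0 ≤ t) : τ ≤ n + 2.03*t := by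
  have e2 : n*((a-2)*τ) ≤ n*((a-2)*(n+2.03*t)) := by
    have : n*((a-2)*(n+2.03*t)) = n*(a*n-2*n+2.03*(a*t)-4.06*t) := by ring
    rw [this, ← hn]
    have : n*(a*n-2*n+2.03*n-4.06*t) = a*(n*n) + n*(0.03*n-4.06*t) := by ring
    rw [this]
    have h1 : 0 ≤ n*(0.03*n-4.06*t) := mul_nonneg hn0.le (by linarith)
    have h2 : 0 ≤ a*n := mul_nonneg (by linarith) hn0.le
    have h3 : n*((a-2)*τ) = τ*(a*n-2*n) := by ring
    have h4 : a*(n*(n-1)) = a*(n*n) - a*n := by ring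
    rw [h3]; rw [h4] at e1
    linarith
  have e3 := le_of_mul_le_mul_left e2 hn0
  exact le_of_mul_le_mul_left e3 (by linarith)

theorem G_bound {n a t τ G : ℝ} (ha : 199 ≤ a) (hn : n = a*t) (hn0 : 0 < n) (ht : 0 ≤ t)
    (hτ1 : n - 2*t ≤ τ) (h2 : τ*(a*n-2*n) + a*G ≤ a*(n*(n-1))) : G ≤ 4*n*t := by
  have hc : 0 ≤ a*n - 2*n := by
    have := mul_nonneg (show (0:ℝ) ≤ a-2 by linarith) hn0.le
    linarith
  have e1 : (n-2*t)*(a*n-2*n) ≤ τ*(a*n-2*n) := mul_le_mul_of_nonneg_right hτ1 hc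
  have e2 : a*n-2*n = a*(n-2*t) := by
    have : a*(n-2*t) = a*n - 2*(a*t) := by ring
    rw [this, ← hn]
  rw [e2] at e1 h2
  have e3 : a*G ≤ a*(4*n*t) := by
    have h3 : (n-2*t)*(a*(n-2*t)) = a*(n*n) - a*(4*n*t) + a*(4*t^2) := by ring
    rw [h3] at e1
    have h4 : 0 ≤ a*(4*t^2) := by positivity
    have h5 : 0 ≤ a*n := mul_nonneg (by linarith) hn0.le
    have h6 : a*(n*(n-1)) = a*(n*n) - a*n := by ring
    rw [h6] at h2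
    linarith
  exact le_of_mul_le_mul_left e3 (by linarith)

theorem E_bound {n a t τ E : ℝ} (ha : 199 ≤ a) (ht : a ≤ 4*t) (hn : n = a*t) (hn0 : 0 < n)
    (ht1 : 49 ≤ t) (hnt : 199*t ≤ n) (hτ2 : τ ≤ n + 2.03*t)
    (h3 : a*E ≤ 2*n*(τ-1) + a*(n+a+1)) : E ≤ 2.05*n*t := by
  have e1 : a*E ≤ a*(2.05*n*t) := by
    have : a*(2.05*n*t) = 2.05*n*(a*t) := by ring
    rw [this, ← hn]
    have e2 : 2*n*(τ-1) ≤ 2*n*(n+2.03*t) := mul_le_mul_of_nonneg_left (by linarith) (by linarith)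
    have e3 : a*(n+a+1) ≤ a*n + 4.03*n := by
      have h1 : a*(a+1) ≤ a*(4.03*t) := mul_le_mul_of_nonneg_left (by linarith) (by linarith)
      have h2 : a*(4.03*t) = 4.03*n := by rw [hn]; ring
      linarith
    have e4 : 4.06*(n*t) + a*n + 4.03*n ≤ 0.05*(n*n) := by
      have : 0 ≤ n*(0.05*n - 4.06*t - a - 4.03) := mul_nonneg hn0.le (by linarith)
      linarith
    linarith
  exact le_of_mul_le_mul_left e1 (by linarith)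

theorem Z_bound1 {n a t Z : ℝ} (ha : 199 ≤ a) (ht : a ≤ 4*t) (hn : n = a*t) (hn0 : 0 < n)
    (ht1 : 49 ≤ t) (hnt : 199*t ≤ n) (hm : n+a+1 ≤ 1.0203*n) (hZ : 0 ≤ Z)
    (h4 : 2*((a*n - a - 2*n)*Z) ≤ a*((n+a+1)*(n+a))) : Z ≤ 0.53*n := by
  have e1 : a*n - a - 2*n = a*(n-2*t-1) := by
    have : a*(n-2*t-1) = a*n - 2*(a*t) - a := by ring
    rw [this, ← hn]; ring
  rw [e1] at h4
  have e2 : a*(2*((n-2*t-1)*Z)) ≤ a*((1.0203*n)*(1.0203*n)) := by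
    have h1 : (n+a+1)*(n+a) ≤ (1.0203*n)*(1.0203*n) :=
      mul_le_mul hm (by linarith) (by linarith) (by positivity)
    have h2 := mul_le_mul_of_nonneg_left h1 (show (0:ℝ) ≤ a by linarith)
    linarith
  have e3 := le_of_mul_le_mul_left e2 (by linarith)
  have e4 : (0.989*n)*Z ≤ (n-2*t-1)*Z := mul_le_mul_of_nonneg_right (by linarith) hZ
  have e5 : n*(1.978*Z) ≤ n*(1.04102*n) := by
    have : (1.0203*n)*(1.0203*n) ≤ n*(1.04102*n) := by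
      have : 0 ≤ n*n := by positivity
      linarith
    linarith
  have e6 := le_of_mul_le_mul_left e5 hn0
  linarith

theorem P_bound {n t P G : ℝ} (hn0 : 0 < n) (ht1 : 49 ≤ t) (hnt : 199*t ≤ n) (hP : 0 ≤ P)
    (hG4 : G ≤ 4*n*t) (h6 : P*(P-1) ≤ G) : P ≤ 0.15*n := by
  by_contra hcon
  push Not at hcon
  have e1 : 4*n*t ≤ 0.0202*(n*n) := by
    have : 0 ≤ n*(0.0202*n - 4*t) := mul_nonneg hn0.le (by linarith)
    linarith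
  have e2 : (0.15*n)*(0.15*n-1) ≤ P*(P-1) :=
    mul_le_mul hcon.le (by linarith) (by linarith) hP
  have e3 : 0 ≤ n*(0.002*n - 0.15) := mul_nonneg hn0.le (by linarith)
  have e4 : 0 < n*n := by positivity
  linarith

theorem S_bound {n a t τ S E G : ℝ} (ha : 199 ≤ a) (ht : a ≤ 4*t) (hn : n = a*t) (hn0 : 0 < n)
    (ht1 : 49 ≤ t) (hnt : 199*t ≤ n) (hτ1 : n - 2*t ≤ τ) (hτ2 : τ ≤ n + 2.03*t)
    (hE : 0 ≤ E) (hG : 0 ≤ G) (hS : 0 ≤ S) (hE2 : E ≤ 2.05*n*t) (hG4 : G ≤ 4*n*t)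
    (h5 : ((2*a+2)*(a*n - a - 2*n) - a^2*(τ-1))*S ≤
      a*((2*n+a)+a*(τ-1))*E + a^2*(((2*n+a+1)-τ)*G)) : S ≤ 6.5*n*t := by
  have ha0 : 0 < a := by linarith
  have e1 : a*n - a - 2*n = a*(n-2*t-1) := by
    have : a*(n-2*t-1) = a*n - 2*(a*t) - a := by ring
    rw [this, ← hn]; ring
  rw [e1] at h5
  have k1 : a^2*(0.969*n) ≤ (2*a+2)*(a*(n-2*t-1)) - a^2*(τ-1) := by
    have e2 : (2*a)*(a*(n-2*t-1)) ≤ (2*a+2)*(a*(n-2*t-1)) := by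
      apply mul_le_mul_of_nonneg_right (by linarith)
      apply mul_nonneg ha0.le (by linarith)
    have e3 : a^2*(0.969*n) ≤ a^2*(2*(n-2*t-1)-(τ-1)) :=
      mul_le_mul_of_nonneg_left (by linarith) (by positivity)
    have e4 : a^2*(2*(n-2*t-1)-(τ-1)) = (2*a)*(a*(n-2*t-1)) - a^2*(τ-1) := by ring
    linarith
  have k2 := mul_le_mul_of_nonneg_right k1 hS
  have k3 : a*((2*n+a)+a*(τ-1))*E ≤ a^2*((1.0211*n)*(2.05*n*t)) := by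
    have e2 : a*((2*n+a)+a*(τ-1)) = a^2*(2*t+τ) := by rw [hn]; ring
    rw [e2, mul_assoc]
    apply mul_le_mul_of_nonneg_left _ (by positivity)
    exact mul_le_mul (by linarith) hE2 hE (by positivity)
  have k4 : a^2*(((2*n+a+1)-τ)*G) ≤ a^2*((1.0305*n)*(4*n*t)) := by
    apply mul_le_mul_of_nonneg_left _ (by positivity)
    exact mul_le_mul (by linarith) hG4 hG (by positivity)
  have k5 : (a^2*n)*(0.969*S) ≤ (a^2*n)*(6.21526*n*t) := by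
    have e2 : a^2*((1.0211*n)*(2.05*n*t)) + a^2*((1.0305*n)*(4*n*t))
        = 6.215255*((a^2*n)*(n*t)) := by ring
    have e3 : 0 ≤ (a^2*n)*(n*t) := by positivity
    have e4 : a^2*(0.969*n)*S = (a^2*n)*(0.969*S) := by ring
    have e5 : (a^2*n)*(6.21526*n*t) = 6.21526*((a^2*n)*(n*t)) := by ring
    rw [e4] at k2
    rw [e5]
    linarith
  have k6 := le_of_mul_le_mul_left k5 (by positivity)
  have k7 : 0 < n*t := by positivity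
  linarith

theorem Z_bound2 {n a t Z S P E : ℝ} (ha : 199 ≤ a) (ht : a ≤ 4*t) (hn0 : 0 < n)
    (ht1 : 49 ≤ t) (hnt : 199*t ≤ n) (hZ : 0 ≤ Z) (hP : 0 ≤ P) (hS : 0 ≤ S) (hE : 0 ≤ E)
    (hZ1 : Z ≤ 0.53*n) (hP1 : P ≤ 0.15*n) (hS1 : S ≤ 6.5*n*t) (hE2 : E ≤ 2.05*n*t)
    (h7 : (n+a+1)*n*Z ≤ (n+2*a+2)*(Z*Z+S+Z*P+E)) : Z ≤ 31*t := by
  have e1 : (n+2*a+2) ≤ 1.0406*n := by linarith
  have e2 : n*n*Z ≤ (n+a+1)*n*Z := by
    apply mul_le_mul_of_nonneg_right _ hZ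
    apply mul_le_mul_of_nonneg_right (by linarith) hn0.le
  have e3 : (n+2*a+2)*(Z*Z+S+Z*P+E) ≤ (1.0406*n)*(Z*(0.68*n)+8.55*n*t) := by
    have h1 : Z*Z+S+Z*P+E ≤ Z*(0.68*n)+8.55*n*t := by
      have : Z*(Z+P) ≤ Z*(0.68*n) := mul_le_mul_of_nonneg_left (by linarith) hZ
      linarith
    apply mul_le_mul e1 h1 (by positivity) (by positivity)
  have e4 : n*(n*(0.292*Z)) ≤ n*(n*(8.8972*t)) := by
    have h1 : (1.0406*n)*(Z*(0.68*n)+8.55*n*t) = 0.707608*(n*n*Z) + 8.89713*(n*n*t) := by ring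
    have h2 : 0 ≤ n*n*Z := by positivity
    have h3 : 0 ≤ n*n*t := by positivity
    have h4 : n*(n*(0.292*Z)) = 0.292*(n*n*Z) := by ring
    have h5 : n*(n*(8.8972*t)) = 8.8972*(n*n*t) := by ring
    rw [h1] at e3
    rw [h4, h5]
    linarith
  have e5 := le_of_mul_le_mul_left (le_of_mul_le_mul_left e4 hn0) hn0
  linarith

theorem Q_bound {n a t τ Z rX F0 : ℝ} (ha : 199 ≤ a) (ht : a ≤ 4*t) (hn : n = a*t) (hn0 : 0 < n)
    (ht1 : 49 ≤ t) (hnt : 199*t ≤ n) (hτ1 : n - 2*t ≤ τ) (hτ2 : τ ≤ n + 2.03*t)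
    (hZ : 0 ≤ Z) (hZ2 : Z ≤ 31*t)
    (hF : F0 + 2*τ*(2*n+a+1)*((2*n+a)*τ*((2*n+a+1)-τ)) ≤ 11*n^4)
    (hrX : rX ≤ (2*n+a)*τ*((2*n+a+1)-τ) + (a+2)*(τ*Z + ((2*n+a+1)-τ))) :
    F0 + 2*τ*(2*n+a+1)*rX ≤ 141*n^4 := by
  have hτ0 : 0 < τ := by linarith
  have hτu : τ ≤ 1.0103*n := by linarith
  have ha0 : 0 < a := by linarith
  have e1 : 2*τ*(2*n+a+1)*rX ≤ 2*τ*(2*n+a+1)*((2*n+a)*τ*((2*n+a+1)-τ))
      + 2*τ*(2*n+a+1)*((a+2)*(τ*Z + ((2*n+a+1)-τ))) := by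
    rw [← mul_add]
    exact mul_le_mul_of_nonneg_left hrX (by positivity)
  have e2 : (a+2)*(τ*Z + ((2*n+a+1)-τ)) ≤ 31.7*n^2 := by
    have f1 : (a+2)*t ≤ 1.0101*n := by
      have : (a+2)*t = a*t + 2*t := by ring
      rw [this, ← hn]; linarith
    have f2 : (a+2)*Z ≤ 31.32*n := by
      have : (a+2)*Z ≤ (a+2)*(31*t) := mul_le_mul_of_nonneg_left hZ2 (by linarith)
      linarith
    have f3 : τ*((a+2)*Z) ≤ (1.0103*n)*(31.32*n) :=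
      mul_le_mul hτu f2 (by positivity) (by positivity)
    have f4 : (a+2)*((2*n+a+1)-τ) ≤ (0.0206*n)*(1.0305*n) :=
      mul_le_mul (by linarith) (by linarith) (by linarith) (by positivity)
    have f5 : (a+2)*(τ*Z + ((2*n+a+1)-τ)) = τ*((a+2)*Z) + (a+2)*((2*n+a+1)-τ) := by ring
    have f6 : (1.0103*n)*(31.32*n) + (0.0206*n)*(1.0305*n) ≤ 31.7*n^2 := by
      have : 0 ≤ n^2 := by positivity
      have h1 : (1.0103*n)*(31.32*n) + (0.0206*n)*(1.0305*n)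
        = (1.0103*31.32+0.0206*1.0305)*n^2 := by ring
      rw [h1]
      apply mul_le_mul_of_nonneg_right _ this
      norm_num
    rw [f5]; linarith
  have e3 : 2*τ*(2*n+a+1) ≤ 4.083*n^2 := by
    have h1 : τ*(2*n+a+1) ≤ (1.0103*n)*(2.0204*n) :=
      mul_le_mul hτu (by linarith) (by linarith) (by positivity)
    have h2 : (1.0103*n)*(2.0204*n) = (1.0103*2.0204)*n^2 := by ring
    have h3 : (1.0103*2.0204)*n^2 ≤ 2.0415*n^2 := by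
      apply mul_le_mul_of_nonneg_right _ (by positivity)
      norm_num
    linarith
  have e4 : 2*τ*(2*n+a+1)*((a+2)*(τ*Z + ((2*n+a+1)-τ))) ≤ (4.083*n^2)*(31.7*n^2) := by
    apply mul_le_mul e3 e2 _ (by positivity)
    apply mul_nonneg (by linarith)
    have : 0 ≤ τ*Z := by positivity
    linarith
  have e5 : (4.083*n^2)*(31.7*n^2) = 129.4311*n^4 := by ring
  have := pow_pos hn0 4
  linarith

theorem final_contra {n a t τ E Q : ℝ} (ha : 199 ≤ a) (ht : a ≤ 4*t) (hn : n = a*t) (hn0 : 0 < n)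
    (ht1 : 49 ≤ t) (hnt : 199*t ≤ n) (hτ1 : n - 2*t ≤ τ) (hτ2 : τ ≤ n + 2.03*t)
    (hE : 0 ≤ E) (hE2 : E ≤ 2.05*n*t) (hQ : Q ≤ 141*n^4)
    (h8 : 2*(n+a+1)*n*(τ*((2*n+a+1)-τ))^2 ≤ E*Q) : False := by
  have hτl : 0.9899*n ≤ τ := by linarith
  have hτ0 : 0 < τ := by linarith
  have g1 : E*Q ≤ (2.05*n*t)*(141*n^4) := by
    rcases le_total 0 Q with hq | hq
    · exact mul_le_mul hE2 hQ hq (by positivity)
    · have h1 : E*Q ≤ 0 := mul_nonpos_of_nonneg_of_nonpos hE hq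
      have h2 : 0 ≤ (2.05*n*t)*(141*n^4) := by positivity
      linarith
  have g2 : (0.9899*n)*(0.9897*n) ≤ τ*((2*n+a+1)-τ) :=
    mul_le_mul hτl (by linarith) (by positivity) hτ0.le
  have g3 : ((0.9899*n)*(0.9897*n))^2 ≤ (τ*((2*n+a+1)-τ))^2 :=
    pow_le_pow_left₀ (by positivity) g2 2
  have g4 : 2*n*n*((0.9899*n)*(0.9897*n))^2 ≤ 2*(n+a+1)*n*(τ*((2*n+a+1)-τ))^2 := by
    apply mul_le_mul _ g3 (by positivity) (by positivity)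
    apply mul_le_mul_of_nonneg_right _ hn0.le
    linarith
  have g5 : 1.9*(n^5*n) ≤ 2*n*n*((0.9899*n)*(0.9897*n))^2 := by
    have h1 : 2*n*n*((0.9899*n)*(0.9897*n))^2 = (2*(0.9899*0.9897)^2)*(n^5*n) := by ring
    rw [h1]
    apply mul_le_mul_of_nonneg_right _ (by positivity)
    norm_num
  have g6 : 1.9*(n^5*(199*t)) ≤ 1.9*(n^5*n) := by
    apply mul_le_mul_of_nonneg_left _ (by norm_num)
    exact mul_le_mul_of_nonneg_left hnt (by positivity)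
  have g7 : (2.05*n*t)*(141*n^4) = 289.05*(n^5*t) := by ring
  have g8 : 0 < n^5*t := by positivity
  linarith

/-- the numerical contradiction -/
theorem numeric {n a t τ G E Z P S rTT rX Q : ℝ} (ha : 199 ≤ a) (ht : a ≤ 4*t) (hn : n = a*t)
    (hG : 0 ≤ G) (hE : 0 ≤ E) (hZ : 0 ≤ Z) (hP : 0 ≤ P) (hS : 0 ≤ S)
    (h1 : a*n - a - 2*n ≤ a*(τ-1))
    (h2 : τ*(a*n-2*n) + a*G ≤ a*(n*(n-1)))
    (h3 : a*E ≤ 2*n*(τ-1) + a*(n+a+1))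
    (h4 : 2*((a*n - a - 2*n)*Z) ≤ a*((n+a+1)*(n+a)))
    (h5 : ((2*a+2)*(a*n - a - 2*n) - a^2*(τ-1))*S ≤
      a*((2*n+a)+a*(τ-1))*E + a^2*(((2*n+a+1)-τ)*G))
    (h6 : P*(P-1) ≤ G)
    (h7 : (n+a+1)*n*Z ≤ (n+2*a+2)*(Z*Z+S+Z*P+E))
    (h8 : 2*(n+a+1)*n*(τ*((2*n+a+1)-τ))^2 ≤ E*Q)
    (h9 : Q = (2*τ*(2*n+a+1) - (2*n+a+1)^2) * rTT + 2*τ*(2*n+a+1)*rX
      - τ^2*((2*n+a)*((2*n+a+1)^2-(2*n+a+1)) - a*(n*(n-1)) + (a+2)*((n+a+1)*(n+a))))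
    (hr1 : 2*n*(τ*(τ-1)) ≤ rTT) (hr2 : rTT ≤ 2*(n+a+1)*(τ*(τ-1)))
    (hrX : rX ≤ (2*n+a)*τ*((2*n+a+1)-τ) + (a+2)*(τ*Z + ((2*n+a+1)-τ))) : False := by
  have ht1 : 49 ≤ t := by linarith
  have ha0 : 0 < a := by linarith
  have hnt : 199*t ≤ n := by
    rw [hn]; exact mul_le_mul_of_nonneg_right ha (by linarith)
  have hn0 : 0 < n := by linarith
  have hm : n+a+1 ≤ 1.0203*n := by linarith
  have hτ1 := tau_lower ha0 hn h1
  have hτ2 := tau_upper (τ := τ) ha hn hn0 hnt (by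
    have : 0 ≤ a*G := mul_nonneg ha0.le hG
    linarith) (by linarith)
  have hG4 := G_bound ha hn hn0 (by linarith) hτ1 h2
  have hE2 := E_bound ha ht hn hn0 ht1 hnt hτ2 h3
  have hZ1 := Z_bound1 ha ht hn hn0 ht1 hnt hm hZ h4
  have hP1 := P_bound hn0 ht1 hnt hP hG4 h6
  have hS1 := S_bound ha ht hn hn0 ht1 hnt hτ1 hτ2 hE hG hS hE2 hG4 h5
  have hZ2 := Z_bound2 ha ht hn0 ht1 hnt hZ hP hS hE hZ1 hP1 hS1 hE2 h7
  have hF := F_bound ha ht hn hτ1 hτ2 hr1 hr2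
  have hQ : Q ≤ 141*n^4 := by
    rw [h9]
    have := Q_bound (F0 := (2*τ*(2*n+a+1) - (2*n+a+1)^2) * rTT
      - τ^2*((2*n+a)*((2*n+a+1)^2-(2*n+a+1)) - a*(n*(n-1)) + (a+2)*((n+a+1)*(n+a))))
      ha ht hn hn0 ht1 hnt hτ1 hτ2 hZ hZ2 (by linarith) hrX
    linarith
  exact final_contra ha ht hn hn0 ht1 hnt hτ1 hτ2 hE hE2 hQ h8

end Pool.Agent.H59.KRes
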