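import Mathlib
import Pool.Agent.H59.KRes.Core
import Pool.Agent.H59.KRes.Arith

open Finset

namespace Pool.Agent.H59.KRes

variable {V : Type*} [Fintype V] [DecidableEq V]

namespace Data

variable {H : SimpleGraph V} [DecidableRel H.Adj] {m n : ℤ} {r : V → V → ℤ} {e : V → ℤ}

/-- a sum over neighbours when the values towards `v` are `s` on the side of `v` and `μ` off it -/
theorem sum_side (H : SimpleGraph V) [DecidableRel H.Adj] (A : Finset V) (f : V → ℤ) (s μ c : ℤ)
    (u v : V) (hv : v ∈ A) (h0 : f v = 0) (h1 : ∀ w ∈ A, w ≠ v → f w = s)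
    (h2 : ∀ w, w ∉ A → f w = μ) :
    ∑ w ∈ H.neighborFinset u, (c - f w) = (c - s) * (H.degree u : ℤ)
      + (s - μ) * (((H.neighborFinset u).filter (fun w => w ∉ A)).card : ℤ)
      + if H.Adj u v then s else 0 := by
  have e1 : (c - s) * (H.degree u : ℤ) = ∑ w ∈ H.neighborFinset u, (c - s) := by
    rw [Finset.sum_const, H.card_neighborFinset_eq_degree, nsmul_eq_mul]; ring
  have e2 : (s - μ) * (((H.neighborFinset u).filter (fun w => w ∉ A)).card : ℤ)
      = ∑ w ∈ H.neighborFinset u, (if w ∉ A then (s - μ) else 0) := by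
    rw [← Finset.sum_filter, Finset.sum_const, nsmul_eq_mul]; ring
  have e3 : (if H.Adj u v then s else 0)
      = ∑ w ∈ H.neighborFinset u, (if w = v then s else 0) := by
    rw [Finset.sum_ite_eq']; simp
  rw [e1, e2, e3, ← Finset.sum_add_distrib, ← Finset.sum_add_distrib]
  apply Finset.sum_congr rfl
  intro w _
  by_cases hwv : w = v
  · subst hwv
    rw [h0, if_neg (by simpa using hv), if_pos rfl]; ring
  · by_cases hw : w ∈ A
    · rw [h1 w hw hwv, if_neg (by simpa using hw), if_neg hwv]; ring
    · rw [h2 w hw, if_pos hw, if_neg hwv]; ring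

theorem struct (D : Data H m n r e) (h0 : ∀ u v z, r u v = 2*n → r u z ≠ 2*m) :
    ∃ B : Finset V, (B.card : ℤ) = m ∧
      ∀ u v, H.Adj u v ↔ ((u ∈ B ∧ v ∉ B) ∨ (u ∉ B ∧ v ∈ B)) := by
  have hn := D.hn
  have hm := D.hm
  set A : Finset V := univ.filter (fun u => ∃ v, r u v = 2*n) with hA
  have memA : ∀ u, u ∈ A ↔ ∃ v, r u v = 2*n := by intro u; simp [hA]
  set B : Finset V := W r m with hB
  have hdisj : Disjoint A B := by
    rw [Finset.disjoint_left]
    intro u hu hu'
    rw [memA] at hu
    rw [hB, mem_W] at hu'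
    obtain ⟨v, hv⟩ := hu
    obtain ⟨z, hz⟩ := hu'
    exact h0 u v z hv hz
  have nrsub : ∀ u, nr r n u ⊆ A.erase u := by
    intro u v hv
    rw [mem_nr] at hv
    rw [mem_erase, memA]
    exact ⟨(D.ne_of_near hv).symm, u, by rw [D.symm]; exact hv⟩
  have sumA : ∑ u ∈ A, ((A.card : ℤ) - 1 - ((nr r n u).card : ℤ))
      = (A.card : ℤ) * ((A.card : ℤ) - 1) - n*(n-1) := by
    have h1 : ∑ u ∈ A, ((nr r n u).card : ℤ) = n*(n-1) := by
      rw [← D.sum_nr]
      apply Finset.sum_subset (subset_univ _)
      intro u _ hu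
      have : nr r n u = ∅ := by
        ext z
        simp only [mem_nr, notMem_empty, iff_false]
        intro hz
        exact hu (by rw [memA]; exact ⟨z, hz⟩)
      rw [this]; simp
    rw [Finset.sum_sub_distrib, h1, Finset.sum_const, nsmul_eq_mul]
  have termA : ∀ u ∈ A, (0:ℤ) ≤ ((A.card : ℤ) - 1 - ((nr r n u).card : ℤ)) := by
    intro u hu
    have h3 := Finset.card_le_card (nrsub u)
    rw [Finset.card_erase_of_mem hu] at h3
    have h4 : 0 < A.card := Finset.card_pos.mpr ⟨u, hu⟩
    have h5 : (nr r n u).card + 1 ≤ A.card := by omega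
    have h6 : ((nr r n u).card : ℤ) + 1 ≤ (A.card : ℤ) := by exact_mod_cast h5
    linarith
  have termB : ∀ u ∈ B, (0:ℤ) ≤ ((B.card : ℤ) - 1 - ((fr r m u).card : ℤ)) := by
    intro u hu
    have h3 := Finset.card_le_card (D.fr_subset u)
    rw [Finset.card_erase_of_mem hu] at h3
    have h4 : 0 < B.card := Finset.card_pos.mpr ⟨u, hu⟩
    have h5 : (fr r m u).card + 1 ≤ B.card := by omega
    have h6 : ((fr r m u).card : ℤ) + 1 ≤ (B.card : ℤ) := by exact_mod_cast h5
    linarith
  have hAge : n ≤ (A.card : ℤ) := by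
    have := Finset.sum_nonneg termA
    rw [sumA] at this
    by_contra hcon
    push Not at hcon
    have h0 : (0:ℤ) ≤ (A.card : ℤ) := by positivity
    nlinarith
  have hBge : m ≤ (B.card : ℤ) := D.card_W_ge
  have hsum : (A.card : ℤ) + (B.card : ℤ) ≤ m + n := by
    have h1 := Finset.card_le_univ (A ∪ B)
    rw [Finset.card_union_of_disjoint hdisj] at h1
    rw [← D.card]
    exact_mod_cast h1
  have hAc : (A.card : ℤ) = n := by linarith
  have hBc : (B.card : ℤ) = m := by linarith
  have hun : A ∪ B = univ := by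
    rw [← Finset.card_eq_iff_eq_univ, Finset.card_union_of_disjoint hdisj]
    have : ((A.card + B.card : ℕ) : ℤ) = (Fintype.card V : ℤ) := by
      rw [D.card]; push_cast; linarith
    exact_mod_cast this
  have hpart : ∀ w, w ∉ A ↔ w ∈ B := by
    intro w
    have hw : w ∈ A ∪ B := by rw [hun]; exact mem_univ _
    rw [mem_union] at hw
    constructor
    · intro h; tauto
    · intro h h'; exact (Finset.disjoint_left.mp hdisj h') h
  have hpart' : ∀ w, w ∉ B ↔ w ∈ A := by
    intro w; rw [← hpart]; simp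
  have hAA : ∀ u ∈ A, ∀ v ∈ A, u ≠ v → r u v = 2*n := by
    intro u hu v hv huv
    have hz : ∑ u ∈ A, ((A.card : ℤ) - 1 - ((nr r n u).card : ℤ)) = 0 := by
      rw [sumA, hAc]; ring
    have h1 := (Finset.sum_eq_zero_iff_of_nonneg termA).mp hz u hu
    have h2 : nr r n u = A.erase u := by
      apply Finset.eq_of_subset_of_card_le (nrsub u)
      rw [Finset.card_erase_of_mem hu]
      have : ((nr r n u).card : ℤ) = (A.card : ℤ) - 1 := by linarith
      omega
    have h3 : v ∈ nr r n u := by rw [h2, mem_erase]; exact ⟨huv.symm, hv⟩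
    rwa [mem_nr] at h3
  have hBB : ∀ u ∈ B, ∀ v ∈ B, u ≠ v → r u v = 2*m := by
    intro u hu v hv huv
    have hz : ∑ u ∈ B, ((B.card : ℤ) - 1 - ((fr r m u).card : ℤ)) = 0 := by
      rw [hB, D.sum_h, ← hB, hBc]; ring
    have h1 := (Finset.sum_eq_zero_iff_of_nonneg termB).mp hz u hu
    have h2 : fr r m u = B.erase u := by
      apply Finset.eq_of_subset_of_card_le (D.fr_subset u)
      rw [Finset.card_erase_of_mem hu]
      have : ((fr r m u).card : ℤ) = (B.card : ℤ) - 1 := by linarith
      omega
    have h3 : v ∈ fr r m u := by rw [h2, mem_erase]; exact ⟨huv.symm, hv⟩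
    rwa [mem_fr] at h3
  have hAB : ∀ u ∈ A, ∀ v ∈ B, r u v = m+n-1 := by
    intro u hu v hv
    have huv : u ≠ v := by
      rintro rfl
      exact Finset.disjoint_left.mp hdisj hu hv
    rcases D.val u v huv with h | h | h
    · exfalso
      have : v ∈ A := by rw [memA]; exact ⟨u, by rw [D.symm]; exact h⟩
      exact Finset.disjoint_left.mp hdisj this hv
    · exact h
    · exfalso
      have : u ∈ B := by rw [hB, mem_W]; exact ⟨v, h⟩
      exact Finset.disjoint_left.mp hdisj hu this
  -- the sum formulas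
  have degAB : ∀ u, (H.degree u : ℤ) =
      (((H.neighborFinset u).filter (fun w => w ∉ A)).card : ℤ)
      + (((H.neighborFinset u).filter (fun w => w ∉ B)).card : ℤ) := by
    intro u
    have h1 : H.degree u = ((H.neighborFinset u).filter (fun w => w ∉ A)).card
        + ((H.neighborFinset u).filter (fun w => w ∉ B)).card := by
      rw [← H.card_neighborFinset_eq_degree]
      have : (H.neighborFinset u).filter (fun w => w ∉ B)
          = (H.neighborFinset u).filter (fun w => ¬ (w ∉ A)) := by
        apply Finset.filter_congr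
        intro w _
        rw [hpart', not_not]
      rw [this, Finset.card_filter_add_card_filter_not]
    exact_mod_cast h1
  have fA : ∀ u v, v ∈ A → ∀ c : ℤ, ∑ w ∈ H.neighborFinset u, (c - r w v)
      = (c - 2*n) * (H.degree u : ℤ)
      + (2*n - (m+n-1)) * (((H.neighborFinset u).filter (fun w => w ∉ A)).card : ℤ)
      + if H.Adj u v then 2*n else 0 := by
    intro u v hv c
    apply sum_side H A (fun w => r w v) (2*n) (m+n-1) c u v hv (D.self v)
    · intro w hw hwv; exact hAA w hw v hv hwv
    · intro w hw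
      rw [hpart] at hw
      change r w v = _
      rw [D.symm]
      exact hAB v hv w hw
  have fB : ∀ u v, v ∈ B → ∀ c : ℤ, ∑ w ∈ H.neighborFinset u, (c - r w v)
      = (c - 2*m) * (H.degree u : ℤ)
      + (2*m - (m+n-1)) * (((H.neighborFinset u).filter (fun w => w ∉ B)).card : ℤ)
      + if H.Adj u v then 2*m else 0 := by
    intro u v hv c
    apply sum_side H B (fun w => r w v) (2*m) (m+n-1) c u v hv (D.self v)
    · intro w hw hwv; exact hBB w hw v hv hwv
    · intro w hw
      rw [hpart'] at hw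
      exact hAB w hw v hv
  -- vertices of A
  have adjAB : ∀ u ∈ A, ∀ v ∈ B, H.Adj u v := by
    intro u hu v hv
    by_contra hnadj
    have huv : u ≠ v := by
      rintro rfl
      exact Finset.disjoint_left.mp hdisj hu hv
    have h1 := D.idt u v huv
    rw [hAB u hu v hv, fB u v hv, if_neg hnadj, degAB u] at h1
    -- no neighbour in B
    have h2 : ∀ x ∈ B, ¬ H.Adj u x := by
      intro x hx hadj
      have hux : u ≠ x := hadj.ne
      have h3 := D.idt u x hux
      rw [hAB u hu x hx, fB u x hx, if_pos hadj, degAB u] at h3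
      linarith
    have h3 : (H.neighborFinset u).filter (fun w => w ∉ A) = ∅ := by
      rw [Finset.filter_eq_empty_iff]
      intro x hx
      rw [hpart]
      intro hx'
      exact h2 x hx' (by simpa using hx)
    rw [h3] at h1
    have he : e u = 0 := by
      rw [← h1, Finset.card_empty]; push_cast; ring
    -- a neighbour of u
    have hcard : 1 < Fintype.card V := by
      have h9 := D.card
      have : (1:ℤ) < (Fintype.card V : ℤ) := by rw [h9]; linarith
      exact_mod_cast this
    haveI : Nontrivial V := Fintype.one_lt_card_iff_nontrivial.mp hcard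
    obtain ⟨x, hx⟩ := D.conn.preconnected.exists_adj_of_nontrivial u
    have hxA : x ∈ A := by
      rw [← hpart']
      intro hxB
      exact h2 x hxB hx
    have h4 := D.idt u x hx.ne
    rw [hAA u hu x hxA hx.ne, fA u x hxA, if_pos hx, h3, he] at h4
    simp at h4
    linarith
  have filtA : ∀ u ∈ A, (((H.neighborFinset u).filter (fun w => w ∉ A)).card : ℤ) = m := by
    intro u hu
    rw [← hBc]
    congr 2
    ext x
    simp only [mem_filter, SimpleGraph.mem_neighborFinset, hpart]
    exact ⟨fun h => h.2, fun h => ⟨adjAB u hu x h, h⟩⟩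
  have filtB : ∀ u ∈ B, (((H.neighborFinset u).filter (fun w => w ∉ B)).card : ℤ) = n := by
    intro u hu
    rw [← hAc]
    congr 2
    ext x
    simp only [mem_filter, SimpleGraph.mem_neighborFinset, hpart']
    exact ⟨fun h => h.2, fun h => ⟨(adjAB x h u hu).symm, h⟩⟩
  have nadjAA : ∀ u ∈ A, ∀ v ∈ A, ¬ H.Adj u v := by
    intro u hu v hv hadj
    have h1 := D.idt u v hadj.ne
    rw [hAA u hu v hv hadj.ne, fA u v hv, if_pos hadj, filtA u hu] at h1
    have hBne : B.Nonempty := by
      rw [← Finset.card_pos]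
      have : (0:ℤ) < (B.card : ℤ) := by rw [hBc]; linarith
      exact_mod_cast this
    obtain ⟨x, hx⟩ := hBne
    have hadj' := adjAB u hu x hx
    have h2 := D.idt u x hadj'.ne
    rw [hAB u hu x hx, fB u x hx, if_pos hadj', degAB u, filtA u hu] at h2
    linarith
  have nadjBB : ∀ u ∈ B, ∀ v ∈ B, ¬ H.Adj u v := by
    intro u hu v hv hadj
    have h1 := D.idt u v hadj.ne
    rw [hBB u hu v hv hadj.ne, fB u v hv, if_pos hadj, filtB u hu] at h1
    have hAne : A.Nonempty := by
      rw [← Finset.card_pos]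
      have : (0:ℤ) < (A.card : ℤ) := by rw [hAc]; linarith
      exact_mod_cast this
    obtain ⟨x, hx⟩ := hAne
    have hadj' := (adjAB x hx u hu).symm
    have h2 := D.idt u x hadj'.ne
    have hux : r u x = m+n-1 := by rw [D.symm]; exact hAB x hx u hu
    rw [hux, fA u x hx, if_pos hadj', degAB u, filtB u hu] at h2
    linarith
  refine ⟨B, hBc, ?_⟩
  intro u v
  constructor
  · intro hadj
    by_cases hu : u ∈ B
    · left
      refine ⟨hu, fun hv => nadjBB u hu v hv hadj⟩
    · right
      refine ⟨hu, ?_⟩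
      by_contra hv
      exact nadjAA u ((hpart' u).mp hu) v ((hpart' v).mp hv) hadj
  · rintro (⟨hu, hv⟩ | ⟨hu, hv⟩)
    · exact (adjAB v ((hpart' v).mp hv) u hu).symm
    · exact adjAB u ((hpart' u).mp hu) v hv

/-- the combinatorial core -/
theorem core (D : Data H m n r e) (hmn : n + 18 ≤ m) (hsq : 4*n ≤ (m-n-1)^2) :
    ∃ B : Finset V, (B.card : ℤ) = m ∧
      ∀ u v, H.Adj u v ↔ ((u ∈ B ∧ v ∉ B) ∨ (u ∉ B ∧ v ∈ B)) :=
  D.struct fun u v z h hz => D.noX (arithI D.hn hsq)
    (fun b hb hb1 => arithII D.hn hmn b hb hb1) h hz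

end Data

end Pool.Agent.H59.KRes
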