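import Mathlib
import Pool.Agent.H59.KRes.Clump2
import Pool.Agent.H59.KRes.Numeric
import Pool.Agent.H59.KRes.Arith
import Pool.Agent.H59.KRes.Struct

open Finset

namespace Pool.Agent.H59.KRes

variable {V : Type*} [Fintype V] [DecidableEq V]

namespace Data

variable {H : SimpleGraph V} [DecidableRel H.Adj] {m n : ℤ} {r : V → V → ℤ} {e : V → ℤ}

theorem rtot (D : Data H m n r e) :
    ∑ u, ∑ v, r u v = (m+n-1)*((m+n)^2-(m+n)) - (m-n-1)*(n*(n-1)) + (m-n+1)*(m*(m-1)) := by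
  have hn := D.hn
  have hm := D.hm
  have h : ∀ u v, r u v = (m+n-1) - (if u = v then (m+n-1) else 0)
      - (if r u v = 2*n then (m-n-1) else 0) + (if r u v = 2*m then (m-n+1) else 0) := by
    intro u v
    by_cases huv : u = v
    · subst huv
      rw [if_pos rfl, if_neg, if_neg, D.self]
      · ring
      · rw [D.self]; intro h; linarith
      · rw [D.self]; intro h; linarith
    · rw [if_neg huv]
      rcases D.val u v huv with h | h | h
      · rw [if_pos h, if_neg, h]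
        · ring
        · rw [h]; intro h; linarith
      · rw [if_neg, if_neg, h]
        · ring
        · rw [h]; intro h; linarith
        · rw [h]; intro h; linarith
      · rw [if_neg, if_pos h, h]
        · ring
        · rw [h]; intro h; linarith
  have h1 : ∑ u, ∑ v, r u v = ∑ u, ∑ v, ((m+n-1) - (if u = v then (m+n-1) else 0)
      - (if r u v = 2*n then (m-n-1) else 0) + (if r u v = 2*m then (m-n+1) else 0)) :=
    Finset.sum_congr rfl fun u _ => Finset.sum_congr rfl fun v _ => h u v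
  have h2 : ∀ u, ∑ v, ((m+n-1) - (if u = v then (m+n-1) else 0)
      - (if r u v = 2*n then (m-n-1) else 0) + (if r u v = 2*m then (m-n+1) else 0))
      = (m+n-1)*(m+n) - (m+n-1) - (m-n-1)*((nr r n u).card : ℤ)
        + (m-n+1)*((fr r m u).card : ℤ) := by
    intro u
    rw [Finset.sum_add_distrib, Finset.sum_sub_distrib, Finset.sum_sub_distrib,
      ← Finset.sum_filter (p := fun v => r u v = 2*n), ← Finset.sum_filter (p := fun v => r u v = 2*m)]
    simp only [Finset.sum_const, nsmul_eq_mul, Finset.card_univ, Finset.sum_ite_eq,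
      mem_univ, if_true, D.card, nr, fr]
    ring
  rw [h1, Finset.sum_congr rfl (fun u _ => h2 u), Finset.sum_add_distrib,
    Finset.sum_sub_distrib, ← Finset.mul_sum, ← Finset.mul_sum, D.sum_nr, D.sum_fr,
    Finset.sum_const, nsmul_eq_mul, Finset.card_univ, D.card]
  ring

theorem rTT_lower (D : Data H m n r e) (T : Finset V) :
    2*n*((T.card : ℤ)*((T.card : ℤ)-1)) ≤ ∑ u ∈ T, ∑ w ∈ T, r u w := by
  have h1 : ∑ u ∈ T, ∑ w ∈ T, (2*n - (if u = w then 2*n else 0)) ≤ ∑ u ∈ T, ∑ w ∈ T, r u w := by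
    apply Finset.sum_le_sum
    intro u _
    apply Finset.sum_le_sum
    intro w _
    by_cases h : u = w
    · rw [if_pos h, h, D.self]; linarith
    · rw [if_neg h]; linarith [D.near_le h]
  refine le_trans (le_of_eq ?_) h1
  have h2 : ∀ u ∈ T, ∑ w ∈ T, (2*n - (if u = w then 2*n else 0)) = (T.card : ℤ)*(2*n) - 2*n := by
    intro u hu
    rw [Finset.sum_sub_distrib, Finset.sum_const, nsmul_eq_mul, Finset.sum_ite_eq, if_pos hu]
  rw [Finset.sum_congr rfl h2, Finset.sum_const, nsmul_eq_mul]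
  ring

theorem rTT_upper (D : Data H m n r e) (T : Finset V) :
    ∑ u ∈ T, ∑ w ∈ T, r u w ≤ 2*m*((T.card : ℤ)*((T.card : ℤ)-1)) := by
  have h1 : ∑ u ∈ T, ∑ w ∈ T, r u w ≤ ∑ u ∈ T, ∑ w ∈ T, (2*m - (if u = w then 2*m else 0)) := by
    apply Finset.sum_le_sum
    intro u _
    apply Finset.sum_le_sum
    intro w _
    by_cases h : u = w
    · rw [if_pos h, h, D.self]; linarith
    · rw [if_neg h]; linarith [D.le_far u w]
  refine h1.trans (le_of_eq ?_)
  have h2 : ∀ u ∈ T, ∑ w ∈ T, (2*m - (if u = w then 2*m else 0)) = (T.card : ℤ)*(2*m) - 2*m := by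
    intro u hu
    rw [Finset.sum_sub_distrib, Finset.sum_const, nsmul_eq_mul, Finset.sum_ite_eq, if_pos hu]
  rw [Finset.sum_congr rfl h2, Finset.sum_const, nsmul_eq_mul]
  ring

theorem rcross (D : Data H m n r e) (v : V) :
    ∑ u ∈ TT r m n v, ∑ w ∈ (TT r m n v)ᶜ, r u w ≤
      (m+n-1)*((TT r m n v).card : ℤ)*((TT r m n v)ᶜ.card : ℤ)
      + (m-n+1)*(((TT r m n v).card : ℤ)*((ZZ r m n v).card : ℤ) + ((TT r m n v)ᶜ.card : ℤ)) := by
  have hn := D.hn
  have hm := D.hm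
  set τ := ((TT r m n v).card : ℤ) with hτ
  have hτ0 : 0 ≤ τ := by rw [hτ]; exact Int.natCast_nonneg _
  rw [Finset.sum_comm]
  have h1 : ∀ w ∈ (TT r m n v)ᶜ, ∑ u ∈ TT r m n v, r u w ≤
      (m+n-1)*τ + (m-n+1)*(if w ∈ ZZ r m n v then τ else 0) + (m-n+1) := by
    intro w hw
    rw [mem_compl] at hw
    by_cases hwZ : w ∈ ZZ r m n v
    · rw [if_pos hwZ]
      have h2 : ∑ u ∈ TT r m n v, r u w ≤ ∑ u ∈ TT r m n v, 2*m :=
        Finset.sum_le_sum fun u _ => D.le_far u w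
      rw [Finset.sum_const, nsmul_eq_mul, ← hτ] at h2
      linarith
    · rw [if_neg hwZ]
      have h2 : ∑ u ∈ TT r m n v, r u w ≤
          ∑ u ∈ TT r m n v, ((m+n-1) + (if u = v then (m-n+1) else 0)) := by
        apply Finset.sum_le_sum
        intro u hu
        rw [TT, mem_insert] at hu
        by_cases huv : u = v
        · rw [if_pos huv]
          have := D.le_far u w
          linarith
        · rw [if_neg huv, add_zero]
          apply D.le_mid
          intro hf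
          apply hwZ
          rw [mem_ZZ]
          exact ⟨hw, u, by tauto, hf⟩
      rw [Finset.sum_add_distrib, Finset.sum_const, nsmul_eq_mul, ← hτ, Finset.sum_ite_eq'] at h2
      have h3 : (if v ∈ TT r m n v then (m-n+1) else 0) ≤ m-n+1 := by
        split_ifs
        · exact le_rfl
        · linarith
      linarith
  refine (Finset.sum_le_sum h1).trans ?_
  rw [Finset.sum_add_distrib, Finset.sum_add_distrib, Finset.sum_const, Finset.sum_const,
    nsmul_eq_mul, nsmul_eq_mul, ← Finset.mul_sum, ← Finset.sum_filter, Finset.sum_const,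
    nsmul_eq_mul]
  have h4 : (((TT r m n v)ᶜ.filter (fun w => w ∈ ZZ r m n v)).card : ℤ)
      ≤ ((ZZ r m n v).card : ℤ) := by
    have : ((TT r m n v)ᶜ.filter (fun w => w ∈ ZZ r m n v)).card ≤ (ZZ r m n v).card := by
      apply Finset.card_le_card
      intro w hw
      rw [mem_filter] at hw
      exact hw.2
    exact_mod_cast this
  have h5 := mul_le_mul_of_nonneg_right h4 hτ0
  have h6 := mul_le_mul_of_nonneg_left h5 (show (0:ℤ) ≤ m-n+1 by linarith)
  linarith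

theorem qform (D : Data H m n r e) (T : Finset V) :
    (-∑ u, ∑ v, ((if u ∈ T then (m+n) else 0) - (T.card : ℤ)) *
        ((if v ∈ T then (m+n) else 0) - (T.card : ℤ)) * r u v)
    = (2*(T.card : ℤ)*(m+n) - (m+n)^2) * (∑ u ∈ T, ∑ w ∈ T, r u w)
      + 2*(T.card : ℤ)*(m+n)*(∑ u ∈ T, ∑ w ∈ Tᶜ, r u w)
      - (T.card : ℤ)^2 * ∑ u, ∑ v, r u v := by
  set τ := (T.card : ℤ)
  have e1 : ∀ u v, ((if u ∈ T then (m+n) else 0) - τ) * ((if v ∈ T then (m+n) else 0) - τ) * r u v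
      = (m+n)^2 * (if u ∈ T then (if v ∈ T then r u v else 0) else 0)
        - (m+n)*τ*(if u ∈ T then r u v else 0) - (m+n)*τ*(if v ∈ T then r u v else 0)
        + τ^2 * r u v := by
    intro u v
    split_ifs <;> ring
  simp only [e1, Finset.sum_add_distrib, Finset.sum_sub_distrib, ← Finset.mul_sum]
  have e2 : ∑ u, ∑ v, (if u ∈ T then (if v ∈ T then r u v else 0) else 0)
      = ∑ u ∈ T, ∑ w ∈ T, r u w := by
    have : ∀ u, ∑ v, (if u ∈ T then (if v ∈ T then r u v else 0) else 0)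
        = if u ∈ T then ∑ w ∈ T, r u w else 0 := by
      intro u
      by_cases h : u ∈ T
      · simp [h]
      · simp [h]
    simp only [this]
    simp
  have e3 : ∑ u, ∑ v, (if u ∈ T then r u v else 0) = ∑ u ∈ T, ∑ v, r u v := by
    have : ∀ u, ∑ v, (if u ∈ T then r u v else 0) = if u ∈ T then ∑ v, r u v else 0 := by
      intro u
      by_cases h : u ∈ T
      · simp [h]
      · simp [h]
    simp only [this]
    simp
  have e4 : ∑ u, ∑ v, (if v ∈ T then r u v else 0) = ∑ u ∈ T, ∑ v, r u v := by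
    rw [Finset.sum_comm, ← e3]
    refine Finset.sum_congr rfl fun u _ => Finset.sum_congr rfl fun v _ => ?_
    rw [D.symm]
  have e5 : ∑ u ∈ T, ∑ v, r u v = ∑ u ∈ T, ∑ w ∈ T, r u w + ∑ u ∈ T, ∑ w ∈ Tᶜ, r u w := by
    rw [← Finset.sum_add_distrib]
    refine Finset.sum_congr rfl fun u _ => ?_
    exact (Finset.sum_add_sum_compl T _).symm
  rw [e2, e3, e4, e5]
  ring

/-- Case I for large `a = m - n - 1`. -/
theorem caseI_large (D : Data H m n r e) (ha : 199 ≤ m-n-1) (hI : (m-n-1)^2 ≤ 4*n)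
    {u v z y : V} (h : r u v = 2*n) (hz : r u z = 2*m) (hy : r v y = 2*m) : False := by
  have hn := D.hn
  have hm := D.hm
  have hu : u ∈ T' r m n v := by
    rw [mem_T']
    exact ⟨by rw [D.symm]; exact h, z, hz⟩
  obtain ⟨a, rfl⟩ : ∃ a, m = n + a + 1 := ⟨m - n - 1, by ring⟩
  have ea : n + a + 1 - n - 1 = a := by ring
  -- collect the facts
  have f1 := D.far_in_T' hu hz
  have f1' : (((T' r (n+a+1) n v).filter (fun w => r w z = 2*(n+a+1))).card : ℤ) ≤
      ((T' r (n+a+1) n v).card : ℤ) := by exact_mod_cast Finset.card_filter_le _ _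
  have f2 := D.near_out h hz hy
  have f3 := D.cut_card hy
  have f4 := D.card_Z v
  have f5 := D.eYZ v
  have f6 := D.cardP v
  have f7 := sum_degZ (H := H) (m := n+a+1) (n := n) (r := r) (e := e) v
  have f7' : (n+a+1) * n * ((ZZ r (n+a+1) n v).card : ℤ) ≤
      (2*(n+a+1)-n) * ∑ z ∈ ZZ r (n+a+1) n v, (H.degree z : ℤ) := by
    rw [Finset.mul_sum]
    have := Finset.sum_le_sum (fun z hz => D.degZ (v := v) (z := z) hz)
    rw [Finset.sum_const, nsmul_eq_mul] at this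
    linarith
  have hcard : (((TT r (n+a+1) n v)ᶜ.card : ℕ) : ℤ)
      = (2*n+a+1) - ((TT r (n+a+1) n v).card : ℤ) := by
    have h1 := Finset.card_compl_add_card (TT r (n+a+1) n v)
    have h2 : (((TT r (n+a+1) n v)ᶜ.card : ℕ) : ℤ) + ((TT r (n+a+1) n v).card : ℤ)
      = (Fintype.card V : ℤ) := by exact_mod_cast h1
    rw [D.card] at h2
    linarith
  have f8 := D.cut_ineq (TT r (n+a+1) n v)
    (fun u => (if u ∈ TT r (n+a+1) n v then (n+a+1+n) else 0) - ((TT r (n+a+1) n v).card : ℤ))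
    (by
      rw [Finset.sum_sub_distrib, Finset.sum_const, nsmul_eq_mul, Finset.card_univ, D.card,
        ← Finset.sum_filter, Finset.sum_const, nsmul_eq_mul]
      have : (univ.filter (fun u => u ∈ TT r (n+a+1) n v)) = TT r (n+a+1) n v := by
        ext x; simp
      rw [this]; ring)
  rw [D.qform (TT r (n+a+1) n v), D.rtot] at f8
  have f8' : ∑ u ∈ TT r (n+a+1) n v, ((if u ∈ TT r (n+a+1) n v then (n+a+1+n) else 0)
      - ((TT r (n+a+1) n v).card : ℤ))
      = ((TT r (n+a+1) n v).card : ℤ) * ((2*n+a+1) - ((TT r (n+a+1) n v).card : ℤ)) := by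
    have : ∀ u ∈ TT r (n+a+1) n v, ((if u ∈ TT r (n+a+1) n v then (n+a+1+n) else 0)
      - ((TT r (n+a+1) n v).card : ℤ)) = ((2*n+a+1) - ((TT r (n+a+1) n v).card : ℤ)) := by
      intro u hu
      rw [if_pos hu]; ring
    rw [Finset.sum_congr rfl this, Finset.sum_const, nsmul_eq_mul]
  rw [f8'] at f8
  have f9 := D.rTT_lower (TT r (n+a+1) n v)
  have f10 := D.rTT_upper (TT r (n+a+1) n v)
  have f11 := D.rcross v
  have f12 := D.card_TT v
  rw [hcard] at f5 f11
  have hG : (0:ℤ) ≤ ∑ x ∈ (TT r (n+a+1) n v)ᶜ, ((nr r n x).card : ℤ) :=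
    Finset.sum_nonneg (fun _ _ => Int.natCast_nonneg _)
  have hS : (0:ℤ) ≤ ∑ y ∈ YY r e (n+a+1) n v,
      (((H.neighborFinset y).filter (fun w => w ∈ ZZ r (n+a+1) n v)).card : ℤ) :=
    Finset.sum_nonneg (fun _ _ => Int.natCast_nonneg _)
  have hE : (0:ℤ) ≤ ((cutP H (TT r (n+a+1) n v)).card : ℤ) := Int.natCast_nonneg _
  have hZ : (0:ℤ) ≤ ((ZZ r (n+a+1) n v).card : ℤ) := Int.natCast_nonneg _
  have hP : (0:ℤ) ≤ ((PP r e (n+a+1) n v).card : ℤ) := Int.natCast_nonneg _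
  have f13 : ((T' r (n+a+1) n v).card : ℤ) = ((TT r (n+a+1) n v).card : ℤ) - 1 := by linarith
  rw [f13] at f3 f5 f1'
  generalize ((TT r (n+a+1) n v).card : ℤ) = τ at *
  generalize ((ZZ r (n+a+1) n v).card : ℤ) = Z at *
  generalize ((PP r e (n+a+1) n v).card : ℤ) = P at *
  generalize ((cutP H (TT r (n+a+1) n v)).card : ℤ) = E at *
  generalize ∑ x ∈ (TT r (n+a+1) n v)ᶜ, ((nr r n x).card : ℤ) = G at *
  generalize ∑ y ∈ YY r e (n+a+1) n v,
      (((H.neighborFinset y).filter (fun w => w ∈ ZZ r (n+a+1) n v)).card : ℤ) = S at *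
  generalize ∑ u ∈ TT r (n+a+1) n v, ∑ w ∈ TT r (n+a+1) n v, r u w = rTT at *
  generalize ∑ u ∈ TT r (n+a+1) n v, ∑ w ∈ (TT r (n+a+1) n v)ᶜ, r u w = rX at *
  generalize ∑ z ∈ ZZ r (n+a+1) n v, (H.degree z : ℤ) = dZ at *
  generalize (((T' r (n+a+1) n v).filter (fun w => r w z = 2*(n+a+1))).card : ℤ) = F at *
  rw [ea] at f1 f2 f3 f4 f5 ha hI
  clear f8' hcard f12 f13 hu hz hy h D
  have ha0 : 0 < a := by linarith
  have g1 : a*n - a - 2*n ≤ a*(τ-1) := by
    have := mul_le_mul_of_nonneg_left f1' ha0.le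
    linarith
  have g7 : (n+a+1)*n*Z ≤ (n+2*a+2)*(Z*Z+S+Z*P+E) := by
    have h1 : 2*(n+a+1)-n = n+2*a+2 := by ring
    rw [h1] at f7'
    have := mul_le_mul_of_nonneg_left f7 (show (0:ℤ) ≤ n+2*a+2 by linarith)
    linarith
  -- pass to the reals
  have hnR : (0:ℝ) < (n:ℝ) := by exact_mod_cast (show (0:ℤ) < n by linarith)
  have haR : (0:ℝ) < (a:ℝ) := by exact_mod_cast ha0
  refine numeric (n := (n:ℝ)) (a := (a:ℝ)) (t := (n:ℝ)/(a:ℝ)) (τ := (τ:ℝ)) (G := (G:ℝ))
    (E := (E:ℝ)) (Z := (Z:ℝ)) (P := (P:ℝ)) (S := (S:ℝ)) (rTT := (rTT:ℝ)) (rX := (rX:ℝ))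
    (Q := (((2*τ*(2*n+a+1) - (2*n+a+1)^2) * rTT + 2*τ*(2*n+a+1)*rX
      - τ^2*((2*n+a)*((2*n+a+1)^2-(2*n+a+1)) - a*(n*(n-1)) + (a+2)*((n+a+1)*(n+a))) : ℤ) : ℝ))
    (by exact_mod_cast ha) ?_ ?_ (by exact_mod_cast hG) (by exact_mod_cast hE)
    (by exact_mod_cast hZ) (by exact_mod_cast hP) (by exact_mod_cast hS)
    (by exact_mod_cast g1) ?_ ?_ ?_ ?_ (by exact_mod_cast f6) (by exact_mod_cast g7) ?_
    (by push_cast; ring) (by exact_mod_cast f9) (by exact_mod_cast f10) ?_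
  · -- a ≤ 4 t
    have : (a:ℝ)^2 ≤ 4*n := by exact_mod_cast hI
    rw [← mul_div_assoc, le_div_iff₀ haR]
    linarith
  · field_simp
  · have : τ*(a*n-2*n) + a*G ≤ a*(n*(n-1)) := by linarith
    exact_mod_cast this
  · have : a*E ≤ 2*n*(τ-1) + a*(n+a+1) := by linarith
    exact_mod_cast this
  · have : 2*((a*n - a - 2*n)*Z) ≤ a*((n+a+1)*(n+a)) := by linarith
    exact_mod_cast this
  · have : ((2*a+2)*(a*n - a - 2*n) - a^2*(τ-1))*S ≤
      a*((2*n+a)+a*(τ-1))*E + a^2*(((2*n+a+1)-τ)*G) := by linarith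
    exact_mod_cast this
  · have : 2*(n+a+1)*n*(τ*((2*n+a+1)-τ))^2 ≤ E*((2*τ*(2*n+a+1) - (2*n+a+1)^2) * rTT
      + 2*τ*(2*n+a+1)*rX
      - τ^2*((2*n+a)*((2*n+a+1)^2-(2*n+a+1)) - a*(n*(n-1)) + (a+2)*((n+a+1)*(n+a)))) := by
      linarith
    exact_mod_cast this
  · have : rX ≤ (2*n+a)*τ*((2*n+a+1)-τ) + (a+2)*(τ*Z + ((2*n+a+1)-τ)) := by linarith
    exact_mod_cast this

/-- the combinatorial core for `m ≥ n + 200` -/
theorem core_large (D : Data H m n r e) (hmn : n + 200 ≤ m) :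
    ∃ B : Finset V, (B.card : ℤ) = m ∧
      ∀ u v, H.Adj u v ↔ ((u ∈ B ∧ v ∉ B) ∨ (u ∉ B ∧ v ∈ B)) := by
  have hn := D.hn
  rcases le_total (4*n) ((m-n-1)^2) with hc | hc
  · exact D.core (by linarith) hc
  · exact D.struct fun u v z h hz => D.noX' (fun u v z y h hz hy => D.caseI_large (by linarith) hc h hz hy)
      (fun b hb hb1 => arithII D.hn (by linarith) b hb hb1) h hz

end Data

end Pool.Agent.H59.KRes
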