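import Mathlib

open Finset Matrix

namespace Pool.Agent.H59.KRes

variable {V : Type*} [Fintype V] [DecidableEq V]

/-- The matrix `J / |V|`, the orthogonal projection onto the constant vectors. -/
noncomputable def avg (V : Type*) [Fintype V] : Matrix V V ℝ :=
  Matrix.of fun _ _ => ((Fintype.card V : ℝ))⁻¹

/-- The Moore-Penrose pseudoinverse `L⁺ = (L + J/|V|)⁻¹ - J/|V|` of the Laplacian of a connected
graph (see `lapPinv_penrose`). -/
noncomputable def lapPinv (G : SimpleGraph V) [DecidableRel G.Adj] : Matrix V V ℝ :=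
  (G.lapMatrix ℝ + avg V)⁻¹ - avg V

/-- The resistance distance `R_G(u,v) = (e_u - e_v)ᵀ L⁺ (e_u - e_v)`. -/
noncomputable def resistance (G : SimpleGraph V) [DecidableRel G.Adj] (u v : V) : ℝ :=
  (Pi.single u 1 - Pi.single v 1) ⬝ᵥ (lapPinv G *ᵥ (Pi.single u 1 - Pi.single v 1))

theorem avg_mulVec (x : V → ℝ) : avg V *ᵥ x = fun _ => ((Fintype.card V : ℝ))⁻¹ * ∑ w, x w := by
  ext u
  simp [avg, Matrix.mulVec, dotProduct, Finset.mul_sum]

theorem avg_symm : (avg V)ᵀ = avg V := by
  ext u v; simp [avg]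

theorem avg_mul_avg [Nonempty V] : avg V * avg V = avg V := by
  ext u v
  have : (Fintype.card V : ℝ) ≠ 0 := by
    exact_mod_cast Fintype.card_ne_zero
  simp only [avg, Matrix.mul_apply, Matrix.of_apply, Finset.sum_const, Finset.card_univ,
    nsmul_eq_mul]
  field_simp

theorem lap_mul_avg (G : SimpleGraph V) [DecidableRel G.Adj] :
    G.lapMatrix ℝ * avg V = 0 := by
  ext u v
  have h := congrFun (G.lapMatrix_mulVec_const_eq_zero (R := ℝ)) u
  simp only [Matrix.mulVec, dotProduct, mul_one, Pi.zero_apply] at h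
  simp only [avg, Matrix.mul_apply, Matrix.of_apply, Matrix.zero_apply]
  rw [← Finset.sum_mul, h, zero_mul]

theorem avg_mul_lap (G : SimpleGraph V) [DecidableRel G.Adj] :
    avg V * G.lapMatrix ℝ = 0 := by
  have h := congrArg Matrix.transpose (lap_mul_avg G)
  rw [Matrix.transpose_mul, avg_symm, (G.isSymm_lapMatrix (R := ℝ)).eq, Matrix.transpose_zero] at h
  exact h

theorem det_ne_zero (G : SimpleGraph V) [DecidableRel G.Adj] (hG : G.Connected) :
    (G.lapMatrix ℝ + avg V).det ≠ 0 := by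
  haveI := hG.nonempty
  intro hdet
  obtain ⟨x, hx0, hx⟩ := Matrix.exists_mulVec_eq_zero_iff.mpr hdet
  have hc : (Fintype.card V : ℝ) ≠ 0 := by exact_mod_cast Fintype.card_ne_zero
  have h1 : avg V *ᵥ x = 0 := by
    have h2 : avg V *ᵥ ((G.lapMatrix ℝ + avg V) *ᵥ x) = 0 := by rw [hx, Matrix.mulVec_zero]
    rw [Matrix.mulVec_mulVec, Matrix.mul_add, avg_mul_lap, avg_mul_avg, zero_add] at h2
    exact h2
  have h2 : G.lapMatrix ℝ *ᵥ x = 0 := by
    rw [Matrix.add_mulVec, h1, add_zero] at hx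
    exact hx
  have h3 := (G.lapMatrix_mulVec_eq_zero_iff_forall_reachable).mp h2
  obtain ⟨u0⟩ := hG.nonempty
  have h4 : ∀ v, x v = x u0 := fun v => h3 v u0 (hG.preconnected v u0)
  have h5 : ∑ w, x w = 0 := by
    have h6 := congrFun h1 u0
    rw [avg_mulVec] at h6
    simpa [hc] using h6
  have h6 : x u0 = 0 := by
    simp only [h4, Finset.sum_const, Finset.card_univ, nsmul_eq_mul] at h5
    rcases mul_eq_zero.mp h5 with h | h
    · exact absurd h hc
    · exact h
  apply hx0
  ext v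
  rw [h4 v, h6]; rfl

theorem lap_mul_pinv (G : SimpleGraph V) [DecidableRel G.Adj] (hG : G.Connected) :
    G.lapMatrix ℝ * lapPinv G = 1 - avg V := by
  haveI := hG.nonempty
  have hu : IsUnit (G.lapMatrix ℝ + avg V).det := isUnit_iff_ne_zero.mpr (det_ne_zero G hG)
  have h1 : (G.lapMatrix ℝ + avg V) * (G.lapMatrix ℝ + avg V)⁻¹ = 1 := Matrix.mul_nonsing_inv _ hu
  have h2 : avg V * (G.lapMatrix ℝ + avg V)⁻¹ = avg V := by
    have h3 : avg V * (G.lapMatrix ℝ + avg V) = avg V := by
      rw [Matrix.mul_add, avg_mul_lap, avg_mul_avg, zero_add]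
    calc avg V * (G.lapMatrix ℝ + avg V)⁻¹
        = (avg V * (G.lapMatrix ℝ + avg V)) * (G.lapMatrix ℝ + avg V)⁻¹ := by rw [h3]
      _ = avg V := by rw [Matrix.mul_assoc, h1, Matrix.mul_one]
  rw [lapPinv, Matrix.mul_sub, lap_mul_avg, sub_zero]
  rw [Matrix.add_mul, h2] at h1
  rw [← h1]; simp

theorem lapPinv_symm (G : SimpleGraph V) [DecidableRel G.Adj] : (lapPinv G)ᵀ = lapPinv G := by
  rw [lapPinv, Matrix.transpose_sub, Matrix.transpose_nonsing_inv, Matrix.transpose_add,
    avg_symm, (G.isSymm_lapMatrix (R := ℝ)).eq]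

theorem pinv_mul_lap (G : SimpleGraph V) [DecidableRel G.Adj] (hG : G.Connected) :
    lapPinv G * G.lapMatrix ℝ = 1 - avg V := by
  have h := congrArg Matrix.transpose (lap_mul_pinv G hG)
  rw [Matrix.transpose_mul, lapPinv_symm, (G.isSymm_lapMatrix (R := ℝ)).eq, Matrix.transpose_sub,
    avg_symm, Matrix.transpose_one] at h
  exact h

/-- `lapPinv G` satisfies the four Penrose equations for the Laplacian of a connected graph. -/
theorem lapPinv_penrose (G : SimpleGraph V) [DecidableRel G.Adj] (hG : G.Connected) :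
    G.lapMatrix ℝ * lapPinv G * G.lapMatrix ℝ = G.lapMatrix ℝ ∧
    lapPinv G * G.lapMatrix ℝ * lapPinv G = lapPinv G ∧
    (G.lapMatrix ℝ * lapPinv G)ᵀ = G.lapMatrix ℝ * lapPinv G ∧
    (lapPinv G * G.lapMatrix ℝ)ᵀ = lapPinv G * G.lapMatrix ℝ := by
  haveI := hG.nonempty
  have hu : IsUnit (G.lapMatrix ℝ + avg V).det := isUnit_iff_ne_zero.mpr (det_ne_zero G hG)
  have h1 : (G.lapMatrix ℝ + avg V) * (G.lapMatrix ℝ + avg V)⁻¹ = 1 := Matrix.mul_nonsing_inv _ hu
  have h2 : avg V * (G.lapMatrix ℝ + avg V)⁻¹ = avg V := by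
    have h3 : avg V * (G.lapMatrix ℝ + avg V) = avg V := by
      rw [Matrix.mul_add, avg_mul_lap, avg_mul_avg, zero_add]
    calc avg V * (G.lapMatrix ℝ + avg V)⁻¹
        = (avg V * (G.lapMatrix ℝ + avg V)) * (G.lapMatrix ℝ + avg V)⁻¹ := by rw [h3]
      _ = avg V := by rw [Matrix.mul_assoc, h1, Matrix.mul_one]
  refine ⟨?_, ?_, ?_, ?_⟩
  · rw [lap_mul_pinv G hG, Matrix.sub_mul, avg_mul_lap, Matrix.one_mul, sub_zero]
  · rw [pinv_mul_lap G hG, Matrix.sub_mul, Matrix.one_mul]
    have : avg V * lapPinv G = 0 := by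
      rw [lapPinv, Matrix.mul_sub, h2, avg_mul_avg, sub_self]
    rw [this, sub_zero]
  · rw [lap_mul_pinv G hG, Matrix.transpose_sub, avg_symm, Matrix.transpose_one]
  · rw [pinv_mul_lap G hG, Matrix.transpose_sub, avg_symm, Matrix.transpose_one]

theorem resistance_comm (G : SimpleGraph V) [DecidableRel G.Adj] (u v : V) :
    resistance G u v = resistance G v u := by
  rw [resistance, resistance]
  have h : (Pi.single v 1 - Pi.single u 1 : V → ℝ) = -(Pi.single u 1 - Pi.single v 1) := by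
    rw [neg_sub]
  rw [h, Matrix.mulVec_neg, neg_dotProduct, dotProduct_neg, neg_neg]

theorem resistance_self (G : SimpleGraph V) [DecidableRel G.Adj] (u : V) :
    resistance G u u = 0 := by
  rw [resistance, sub_self, zero_dotProduct]

theorem resistance_eq (G : SimpleGraph V) [DecidableRel G.Adj] (u v : V) :
    resistance G u v = lapPinv G u u + lapPinv G v v - 2 * lapPinv G u v := by
  have hs : lapPinv G v u = lapPinv G u v := by
    conv_lhs => rw [← lapPinv_symm]
    rfl
  rw [resistance, Matrix.mulVec_sub, sub_dotProduct, dotProduct_sub, dotProduct_sub,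
    single_one_dotProduct, single_one_dotProduct, single_one_dotProduct, single_one_dotProduct,
    Matrix.mulVec_single_one, Matrix.mulVec_single_one]
  simp only [Matrix.col_apply]
  rw [hs]; ring

/-- The resistance is the potential difference of any solution of Kirchhoff's equations. -/
theorem resistance_eq_potential (G : SimpleGraph V) [DecidableRel G.Adj] (hG : G.Connected)
    (u v : V) (x : V → ℝ) (hx : G.lapMatrix ℝ *ᵥ x = Pi.single u 1 - Pi.single v 1) :
    resistance G u v = x u - x v := by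
  rw [resistance, ← hx]
  have h1 : (G.lapMatrix ℝ *ᵥ x) ⬝ᵥ (lapPinv G *ᵥ (G.lapMatrix ℝ *ᵥ x))
      = x ⬝ᵥ (G.lapMatrix ℝ *ᵥ x) := by
    have e1 : G.lapMatrix ℝ *ᵥ x = x ᵥ* G.lapMatrix ℝ := by
      conv_lhs => rw [← (G.isSymm_lapMatrix (R := ℝ)).eq]
      rw [Matrix.mulVec_transpose]
    conv_lhs => rw [e1]
    rw [← Matrix.dotProduct_mulVec, Matrix.mulVec_mulVec, ← e1, Matrix.mulVec_mulVec,
      (lapPinv_penrose G hG).1]
  rw [h1, hx, dotProduct_sub, dotProduct_single_one, dotProduct_single_one]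

/-- The curvature identity. -/
theorem exists_curv (G : SimpleGraph V) [DecidableRel G.Adj] (hG : G.Connected) :
    ∃ ε : V → ℝ, ∀ u v, (G.degree u : ℝ) * resistance G u v
      - ∑ w ∈ G.neighborFinset u, resistance G w v = ε u - (if u = v then 2 else 0) := by
  refine ⟨fun u => (G.lapMatrix ℝ *ᵥ fun w => lapPinv G w w) u
    + 2 * ((Fintype.card V : ℝ))⁻¹, ?_⟩
  intro u v
  have h1 : (G.lapMatrix ℝ *ᵥ fun w => resistance G w v) u
      = (G.degree u : ℝ) * resistance G u v
      - ∑ w ∈ G.neighborFinset u, resistance G w v :=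
    G.lapMatrix_mulVec_apply u _
  rw [← h1]
  have h2 : (fun w => resistance G w v) = (fun w => lapPinv G w w)
      + (lapPinv G v v) • (fun _ => (1:ℝ)) - (2:ℝ) • (fun w => lapPinv G w v) := by
    ext w
    rw [resistance_eq]
    simp
  have h3 : G.lapMatrix ℝ *ᵥ (fun w => lapPinv G w v) = fun w => (1 - avg V) w v := by
    rw [← lap_mul_pinv G hG]
    ext w
    rfl
  rw [h2, Matrix.mulVec_sub, Matrix.mulVec_add, Matrix.mulVec_smul, Matrix.mulVec_smul, h3,
    G.lapMatrix_mulVec_const_eq_zero]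
  simp only [Pi.sub_apply, Pi.add_apply, Pi.smul_apply, Pi.zero_apply, smul_eq_mul,
    Matrix.sub_apply, avg, Matrix.of_apply, Matrix.one_apply]
  split_ifs <;> ring

end Pool.Agent.H59.KRes
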