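import Mathlib
import Pool.Agent.H59.KRes.Res

open Finset Matrix

namespace Pool.Agent.H59.KRes

variable {V : Type*} [Fintype V] [DecidableEq V]

/-- The resistance distance as a function on unordered pairs. -/
noncomputable def resSym (G : SimpleGraph V) [DecidableRel G.Adj] : Sym2 V → ℝ :=
  Sym2.lift ⟨fun u v => resistance G u v, fun u v => resistance_comm G u v⟩

/-- The resistance spectrum: the multiset of the resistance distances `R_G(u,v)` over all
unordered pairs `{u,v}` of distinct vertices. -/
noncomputable def resistanceSpectrum (G : SimpleGraph V) [DecidableRel G.Adj] : Multiset ℝ :=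
  (univ.filter (fun e : Sym2 V => ¬ e.IsDiag)).val.map (resSym G)

/-- number of ordered pairs of distinct vertices at resistance `t` -/
noncomputable def cnt (G : SimpleGraph V) [DecidableRel G.Adj] (t : ℝ) : ℕ :=
  (univ.filter (fun p : V × V => p.1 ≠ p.2 ∧ resistance G p.1 p.2 = t)).card

open Classical in
theorem cnt_eq (G : SimpleGraph V) [DecidableRel G.Adj] (t : ℝ) :
    cnt G t = 2 * (resistanceSpectrum G).count t := by
  classical
  let K : SimpleGraph V :=
    { Adj := fun u v => u ≠ v ∧ resistance G u v = t
      symm := ⟨fun u v h => ⟨h.1.symm, by rw [resistance_comm]; exact h.2⟩⟩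
      loopless := ⟨fun u h => h.1 rfl⟩ }
  have h1 := K.sum_degrees_eq_twice_card_edges
  have h2 : ∑ v, K.degree v = cnt G t := by
    rw [cnt, Finset.card_filter, Fintype.sum_prod_type]
    refine Finset.sum_congr rfl fun u _ => ?_
    rw [← K.card_neighborFinset_eq_degree, SimpleGraph.neighborFinset_eq_filter,
      Finset.card_filter]
  have h3 : K.edgeFinset.card = (resistanceSpectrum G).count t := by
    rw [resistanceSpectrum, Multiset.count_map, ← Finset.filter_val, Finset.card_val,
      Finset.filter_filter]
    congr 1
    ext s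
    induction s using Sym2.ind with
    | _ u v =>
      rw [SimpleGraph.mem_edgeFinset, SimpleGraph.mem_edgeSet, Finset.mem_filter]
      constructor
      · rintro ⟨h1, h2⟩
        exact ⟨mem_univ _, by simpa using h1, h2.symm⟩
      · rintro ⟨_, h1, h2⟩
        exact ⟨by simpa using h1, h2.symm⟩
  rw [← h2, h1, h3]

theorem spec_card (G : SimpleGraph V) [DecidableRel G.Adj] :
    Multiset.card (resistanceSpectrum G) = (Fintype.card V).choose 2 := by
  rw [resistanceSpectrum, Multiset.card_map, Finset.card_val, ← Sym2.card_subtype_not_diag,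
    Fintype.card_subtype]

theorem mem_spec (G : SimpleGraph V) [DecidableRel G.Adj] {u v : V} (h : u ≠ v) :
    resistance G u v ∈ resistanceSpectrum G := by
  rw [resistanceSpectrum, Multiset.mem_map]
  exact ⟨s(u, v), by simpa using h, rfl⟩

theorem exists_of_mem_spec (G : SimpleGraph V) [DecidableRel G.Adj] {t : ℝ}
    (h : t ∈ resistanceSpectrum G) : ∃ u v, u ≠ v ∧ resistance G u v = t := by
  rw [resistanceSpectrum, Multiset.mem_map] at h
  obtain ⟨s, hs, rfl⟩ := h
  induction s using Sym2.ind with
  | _ u v =>
    refine ⟨u, v, ?_, rfl⟩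
    simpa using hs

theorem choose_inj {x y : ℕ} (hy : 2 ≤ y) (h : x.choose 2 = y.choose 2) : x = y := by
  rcases lt_trichotomy x y with hxy | hxy | hxy
  · exfalso
    have h1 : (x + 1).choose 2 ≤ y.choose 2 := Nat.choose_le_choose 2 hxy
    have h2 : (x + 1).choose 2 = x.choose 1 + x.choose 2 := Nat.choose_succ_succ x 1
    rw [Nat.choose_one_right] at h2
    have h3 : x = 0 := by omega
    subst h3
    have h4 : 0 < y.choose 2 := Nat.choose_pos hy
    simp at h
    omega
  · exact hxy
  · exfalso
    have h1 : (y + 1).choose 2 ≤ x.choose 2 := Nat.choose_le_choose 2 hxy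
    have h2 : (y + 1).choose 2 = y.choose 1 + y.choose 2 := Nat.choose_succ_succ y 1
    rw [Nat.choose_one_right] at h2
    omega

end Pool.Agent.H59.KRes
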