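import Mathlib
import Pool.Agent.H59.KRes.Spec

open Finset Matrix

namespace Pool.Agent.H59.KRes

/-- The complete bipartite graph `K_{m,n}`. -/
abbrev Kmn (m n : ℕ) : SimpleGraph (Fin m ⊕ Fin n) := completeBipartiteGraph (Fin m) (Fin n)

instance instDecKmn (m n : ℕ) : DecidableRel (Kmn m n).Adj := fun v w =>
  inferInstanceAs (Decidable (v.isLeft ∧ w.isRight ∨ v.isRight ∧ w.isLeft))

theorem Kmn_connected {m n : ℕ} (hm : 0 < m) (hn : 0 < n) : (Kmn m n).Connected := by
  haveI : Nonempty (Fin m) := ⟨⟨0, hm⟩⟩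
  haveI : Nonempty (Fin n) := ⟨⟨0, hn⟩⟩
  have hlr : ∀ (i : Fin m) (j : Fin n), (Kmn m n).Reachable (Sum.inl i) (Sum.inr j) := by
    intro i j
    apply SimpleGraph.Adj.reachable
    simp
  refine ⟨?_⟩
  rintro (i | i) (j | j)
  · exact (hlr i ⟨0, hn⟩).trans (hlr j ⟨0, hn⟩).symm
  · exact hlr i j
  · exact (hlr j i).symm
  · exact (hlr ⟨0, hm⟩ i).symm.trans (hlr ⟨0, hm⟩ j)

theorem lapK_inl (m n : ℕ) (x : Fin m ⊕ Fin n → ℝ) (i : Fin m) :
    ((Kmn m n).lapMatrix ℝ *ᵥ x) (Sum.inl i) = n * x (Sum.inl i) - ∑ j, x (Sum.inr j) := by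
  have hN : (Kmn m n).neighborFinset (Sum.inl i) = univ.map Function.Embedding.inr := by
    ext w; cases w <;> simp
  rw [SimpleGraph.lapMatrix_mulVec_apply, ← SimpleGraph.card_neighborFinset_eq_degree, hN,
    Finset.card_map, Finset.card_univ, Fintype.card_fin, Finset.sum_map]
  rfl

theorem lapK_inr (m n : ℕ) (x : Fin m ⊕ Fin n → ℝ) (j : Fin n) :
    ((Kmn m n).lapMatrix ℝ *ᵥ x) (Sum.inr j) = m * x (Sum.inr j) - ∑ i, x (Sum.inl i) := by
  have hN : (Kmn m n).neighborFinset (Sum.inr j) = univ.map Function.Embedding.inl := by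
    ext w; cases w <;> simp
  rw [SimpleGraph.lapMatrix_mulVec_apply, ← SimpleGraph.card_neighborFinset_eq_degree, hN,
    Finset.card_map, Finset.card_univ, Fintype.card_fin, Finset.sum_map]
  rfl

theorem resK_ll {m n : ℕ} (hm : 0 < m) (hn : 0 < n) {i j : Fin m} (h : i ≠ j) :
    resistance (Kmn m n) (Sum.inl i) (Sum.inl j) = 2 / n := by
  have hn' : (n : ℝ) ≠ 0 := by positivity
  have hL : (Kmn m n).lapMatrix ℝ *ᵥ (Sum.elim (fun k => (if k = i then (1/n : ℝ) else 0)
      - (if k = j then (1/n : ℝ) else 0)) (fun _ => 0))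
      = Pi.single (Sum.inl i) 1 - Pi.single (Sum.inl j) 1 := by
    ext w
    rcases w with k | k
    · rw [lapK_inl]
      simp only [Sum.elim_inl, Sum.elim_inr, Finset.sum_const_zero, sub_zero, Pi.sub_apply,
        Pi.single_apply, Sum.inl.injEq]
      split_ifs <;> field_simp <;> ring
    · rw [lapK_inr]
      simp [Pi.single_apply]
  rw [resistance_eq_potential _ (Kmn_connected hm hn) _ _ _ hL]
  simp only [Sum.elim_inl, if_neg h, if_neg h.symm, if_true]
  ring

theorem resK_rr {m n : ℕ} (hm : 0 < m) (hn : 0 < n) {i j : Fin n} (h : i ≠ j) :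
    resistance (Kmn m n) (Sum.inr i) (Sum.inr j) = 2 / m := by
  have hm' : (m : ℝ) ≠ 0 := by positivity
  have hL : (Kmn m n).lapMatrix ℝ *ᵥ (Sum.elim (fun _ => 0) (fun k => (if k = i then (1/m : ℝ)
      else 0) - (if k = j then (1/m : ℝ) else 0)))
      = Pi.single (Sum.inr i) 1 - Pi.single (Sum.inr j) 1 := by
    ext w
    rcases w with k | k
    · rw [lapK_inl]
      simp [Pi.single_apply]
    · rw [lapK_inr]
      simp only [Sum.elim_inl, Sum.elim_inr, Finset.sum_const_zero, sub_zero, Pi.sub_apply,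
        Pi.single_apply, Sum.inr.injEq]
      split_ifs <;> field_simp <;> ring
  rw [resistance_eq_potential _ (Kmn_connected hm hn) _ _ _ hL]
  simp only [Sum.elim_inr, if_neg h, if_neg h.symm, if_true]
  ring

theorem resK_lr {m n : ℕ} (hm : 0 < m) (hn : 0 < n) (i : Fin m) (j : Fin n) :
    resistance (Kmn m n) (Sum.inl i) (Sum.inr j) = ((m:ℝ) + n - 1) / (m * n) := by
  have hm' : (m : ℝ) ≠ 0 := by positivity
  have hn' : (n : ℝ) ≠ 0 := by positivity
  have hL : (Kmn m n).lapMatrix ℝ *ᵥ (Sum.elim (fun k => (if k = i then (1/n : ℝ) else 0))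
      (fun k => 1/((m:ℝ)*n) - (if k = j then (1/m : ℝ) else 0)))
      = Pi.single (Sum.inl i) 1 - Pi.single (Sum.inr j) 1 := by
    ext w
    rcases w with k | k
    · rw [lapK_inl]
      simp only [Sum.elim_inl, Sum.elim_inr, Pi.sub_apply, Finset.sum_sub_distrib,
        Finset.sum_ite_eq', Finset.mem_univ, if_true, Finset.sum_const, Finset.card_univ,
        Fintype.card_fin, nsmul_eq_mul, Pi.single_apply, Sum.inl.injEq, reduceCtorEq, if_false]
      split_ifs <;> field_simp <;> ring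
    · rw [lapK_inr]
      simp only [Sum.elim_inl, Sum.elim_inr, Pi.sub_apply,
        Finset.sum_ite_eq', Finset.mem_univ, if_true, Pi.single_apply, Sum.inr.injEq,
        reduceCtorEq, if_false]
      split_ifs <;> field_simp <;> ring
  rw [resistance_eq_potential _ (Kmn_connected hm hn) _ _ _ hL]
  simp only [Sum.elim_inl, Sum.elim_inr, if_true]
  field_simp
  ring

theorem sum_ne_ite {k : ℕ} (i : Fin k) (c : ℕ) :
    ∑ j : Fin k, (if i ≠ j then c else 0) = (k - 1) * c := by
  rw [← Finset.sum_filter, Finset.sum_const, smul_eq_mul, Finset.filter_ne,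
    Finset.card_erase_of_mem (mem_univ _), Finset.card_univ, Fintype.card_fin]

theorem cntK {m n : ℕ} (hm : 0 < m) (hn : 0 < n) (t : ℝ) :
    cnt (Kmn m n) t = m * ((m-1) * (if (2/n : ℝ) = t then 1 else 0))
      + 2 * (m * n * (if ((m:ℝ) + n - 1) / (m * n) = t then 1 else 0))
      + n * ((n-1) * (if (2/m : ℝ) = t then 1 else 0)) := by
  classical
  rw [cnt, Finset.card_filter, Fintype.sum_prod_type, Fintype.sum_sum_type]
  simp only [Fintype.sum_sum_type]
  have e1 : ∀ i j : Fin m, (if (Sum.inl i : Fin m ⊕ Fin n) ≠ Sum.inl j ∧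
      resistance (Kmn m n) (Sum.inl i) (Sum.inl j) = t then 1 else 0)
      = if i ≠ j then (if (2/n : ℝ) = t then 1 else 0) else 0 := by
    intro i j
    by_cases h : i = j
    · simp [h]
    · simp [h, resK_ll hm hn h]
  have e2 : ∀ i j : Fin n, (if (Sum.inr i : Fin m ⊕ Fin n) ≠ Sum.inr j ∧
      resistance (Kmn m n) (Sum.inr i) (Sum.inr j) = t then 1 else 0)
      = if i ≠ j then (if (2/m : ℝ) = t then 1 else 0) else 0 := by
    intro i j
    by_cases h : i = j
    · simp [h]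
    · simp [h, resK_rr hm hn h]
  have e3 : ∀ (i : Fin m) (j : Fin n), (if (Sum.inl i : Fin m ⊕ Fin n) ≠ Sum.inr j ∧
      resistance (Kmn m n) (Sum.inl i) (Sum.inr j) = t then 1 else 0)
      = (if ((m:ℝ) + n - 1) / (m * n) = t then 1 else 0) := by
    intro i j
    simp [resK_lr hm hn i j]
  have e4 : ∀ (i : Fin n) (j : Fin m), (if (Sum.inr i : Fin m ⊕ Fin n) ≠ Sum.inl j ∧
      resistance (Kmn m n) (Sum.inr i) (Sum.inl j) = t then 1 else 0)
      = (if ((m:ℝ) + n - 1) / (m * n) = t then 1 else 0) := by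
    intro i j
    rw [resistance_comm]
    simp [resK_lr hm hn j i]
  simp only [e1, e2, e3, e4, sum_ne_ite, Finset.sum_add_distrib, Finset.sum_const,
    Finset.card_univ, Fintype.card_fin, smul_eq_mul]
  ring

end Pool.Agent.H59.KRes
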