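import Mathlib
import Pool.Agent.H59.KRes.KVals
import Pool.Agent.H59.KRes.Struct

open Finset Matrix

namespace Pool.Agent.H59.KRes

theorem iso_of_parts {W : Type*} [Fintype W] [DecidableEq W] (H : SimpleGraph W) {m n : ℕ}
    (B : Finset W) (hB : B.card = m) (hW : Fintype.card W = m + n)
    (h : ∀ u v, H.Adj u v ↔ ((u ∈ B ∧ v ∉ B) ∨ (u ∉ B ∧ v ∈ B))) :
    Nonempty (H ≃g Kmn m n) := by
  have h1 : Fintype.card {x // x ∈ B} = m := by simpa using hB
  have h2 : Fintype.card {x // x ∉ B} = n := by
    rw [Fintype.card_subtype_compl, hW, h1]; omega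
  let f1 := Fintype.equivFinOfCardEq h1
  let f2 := Fintype.equivFinOfCardEq h2
  let f : W ≃ Fin m ⊕ Fin n := (Equiv.sumCompl (fun x => x ∈ B)).symm.trans (Equiv.sumCongr f1 f2)
  have fB : ∀ x, x ∈ B → ∃ i, f x = Sum.inl i := by
    intro x hx
    refine ⟨f1 ⟨x, hx⟩, ?_⟩
    simp [f, Equiv.sumCompl_symm_apply_of_pos hx]
  have fA : ∀ x, x ∉ B → ∃ i, f x = Sum.inr i := by
    intro x hx
    refine ⟨f2 ⟨x, hx⟩, ?_⟩
    simp [f, Equiv.sumCompl_symm_apply_of_neg hx]
  refine ⟨⟨f, ?_⟩⟩
  intro a b
  rw [h]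
  by_cases ha : a ∈ B <;> by_cases hb : b ∈ B
  · obtain ⟨i, hi⟩ := fB a ha
    obtain ⟨j, hj⟩ := fB b hb
    rw [hi, hj]; simp [ha, hb]
  · obtain ⟨i, hi⟩ := fB a ha
    obtain ⟨j, hj⟩ := fA b hb
    rw [hi, hj]; simp [ha, hb]
  · obtain ⟨i, hi⟩ := fA a ha
    obtain ⟨j, hj⟩ := fB b hb
    rw [hi, hj]; simp [ha, hb]
  · obtain ⟨i, hi⟩ := fA a ha
    obtain ⟨j, hj⟩ := fA b hb
    rw [hi, hj]; simp [ha, hb]

/-- From the equality of the resistance spectra to the integer data. -/
theorem exists_data {m n : ℕ} (hn : 2 ≤ n) (hmn : n + 2 ≤ m)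
    {W : Type*} [Fintype W] [DecidableEq W] (H : SimpleGraph W) [DecidableRel H.Adj]
    (hH : H.Connected)
    (hRS : resistanceSpectrum H = resistanceSpectrum (Kmn m n)) :
    Fintype.card W = m + n ∧
      ∃ (r : W → W → ℤ) (e : W → ℤ), Data H (m:ℤ) (n:ℤ) r e := by
  classical
  have hm0 : 0 < m := by omega
  have hn0 : 0 < n := by omega
  have hmR : (0:ℝ) < m := by exact_mod_cast hm0
  have hnR : (0:ℝ) < n := by exact_mod_cast hn0
  have hmn' : (n:ℝ) + 2 ≤ m := by exact_mod_cast hmn
  have hcard : Fintype.card W = m + n := by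
    have h1 := spec_card H
    rw [hRS, spec_card] at h1
    have h2 : Fintype.card (Fin m ⊕ Fin n) = m + n := by simp
    rw [h2] at h1
    exact choose_inj (by omega) h1.symm
  have hval : ∀ u v, u ≠ v → resistance H u v = 2 / m ∨
      resistance H u v = ((m:ℝ) + n - 1) / (m * n) ∨ resistance H u v = 2 / n := by
    intro u v huv
    have h1 := mem_spec H huv
    rw [hRS] at h1
    obtain ⟨x, y, hxy, hx⟩ := exists_of_mem_spec _ h1
    rw [← hx]
    rcases x with i | i <;> rcases y with j | j
    · right; right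
      exact resK_ll hm0 hn0 (fun h => hxy (by rw [h]))
    · right; left
      exact resK_lr hm0 hn0 i j
    · right; left
      rw [resistance_comm]
      exact resK_lr hm0 hn0 j i
    · left
      exact resK_rr hm0 hn0 (fun h => hxy (by rw [h]))
  have hcnt : ∀ t, cnt H t = cnt (Kmn m n) t := by
    intro t
    rw [cnt_eq, cnt_eq, hRS]
  -- the integer matrix
  have hint : ∀ u v, ∃ k : ℤ, (k : ℝ) = m * n * resistance H u v := by
    intro u v
    rcases eq_or_ne u v with rfl | huv
    · exact ⟨0, by rw [resistance_self]; simp⟩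
    · rcases hval u v huv with h | h | h
      · exact ⟨2 * n, by rw [h]; push_cast; field_simp⟩
      · exact ⟨m + n - 1, by rw [h]; push_cast; field_simp⟩
      · exact ⟨2 * m, by rw [h]; push_cast; field_simp⟩
  choose r hr using hint
  obtain ⟨ε, hε⟩ := exists_curv H hH
  have hnearR : ∀ u v, r u v = 2 * (n:ℤ) ↔ (u ≠ v ∧ resistance H u v = 2 / m) := by
    intro u v
    constructor
    · intro h
      have h1 := hr u v
      rw [h] at h1
      push_cast at h1
      have h2 : resistance H u v = 2 / m := by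
        field_simp
        nlinarith
      refine ⟨?_, h2⟩
      rintro rfl
      rw [resistance_self] at h2
      have : (0:ℝ) < 2 / m := by positivity
      linarith
    · rintro ⟨_, h⟩
      have h1 := hr u v
      rw [h] at h1
      have h2 : (r u v : ℝ) = 2 * n := by rw [h1]; field_simp
      exact_mod_cast h2
  have hfarR : ∀ u v, r u v = 2 * (m:ℤ) ↔ (u ≠ v ∧ resistance H u v = 2 / n) := by
    intro u v
    constructor
    · intro h
      have h1 := hr u v
      rw [h] at h1
      push_cast at h1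
      have h2 : resistance H u v = 2 / n := by
        field_simp
        nlinarith
      refine ⟨?_, h2⟩
      rintro rfl
      rw [resistance_self] at h2
      have : (0:ℝ) < 2 / n := by positivity
      linarith
    · rintro ⟨_, h⟩
      have h1 := hr u v
      rw [h] at h1
      have h2 : (r u v : ℝ) = 2 * m := by rw [h1]; field_simp
      exact_mod_cast h2
  have hne1 : (2 / n : ℝ) ≠ 2 / m := by
    intro h
    rw [div_eq_div_iff hnR.ne' hmR.ne'] at h
    linarith
  have hne2 : ((m:ℝ) + n - 1) / (m * n) ≠ 2 / m := by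
    intro h
    rw [div_eq_div_iff (by positivity) hmR.ne'] at h
    have : (m:ℝ) * (m + n - 1) = m * (2 * n) := by linarith
    have := mul_left_cancel₀ hmR.ne' this
    linarith
  have hne3 : ((m:ℝ) + n - 1) / (m * n) ≠ 2 / n := by
    intro h
    rw [div_eq_div_iff (by positivity) hnR.ne'] at h
    have : (n:ℝ) * (m + n - 1) = n * (2 * m) := by linarith
    have := mul_left_cancel₀ hnR.ne' this
    linarith
  -- the scaled curvature
  have heint : ∀ u, (m * n * ε u : ℝ) =
      ((2 * m * n - ∑ w ∈ H.neighborFinset u, r w u : ℤ) : ℝ) := by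
    intro u
    have h1 := hε u u
    rw [resistance_self, if_pos rfl] at h1
    push_cast
    simp only [hr]
    rw [← Finset.mul_sum]
    have : ε u = 2 - ∑ w ∈ H.neighborFinset u, resistance H w u := by linarith
    rw [this]; ring
  have D : Data H (m:ℤ) (n:ℤ) r
      (fun u => 2 * m * n - ∑ w ∈ H.neighborFinset u, r w u) := by
    refine ⟨by exact_mod_cast hn, by exact_mod_cast (show n + 2 ≤ m by omega), ?_, ?_, ?_, ?_, ?_,
      hH, ?_, ?_, ?_⟩
    · intro u
      have h1 := hr u u
      rw [resistance_self, mul_zero] at h1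
      exact_mod_cast h1
    · intro u v
      have h1 := hr u v
      rw [resistance_comm, ← hr v u] at h1
      exact_mod_cast h1
    · intro u v huv
      rcases hval u v huv with h | h | h
      · left; exact (hnearR u v).mpr ⟨huv, h⟩
      · right; left
        have h1 := hr u v
        rw [h] at h1
        have h2 : (r u v : ℝ) = m + n - 1 := by rw [h1]; field_simp
        exact_mod_cast h2
      · right; right; exact (hfarR u v).mpr ⟨huv, h⟩
    · intro u v huv
      have h1 := hε u v
      rw [if_neg huv, sub_zero] at h1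
      have h2 : ((∑ w ∈ H.neighborFinset u, (r u v - r w v) : ℤ) : ℝ)
          = ((2 * m * n - ∑ w ∈ H.neighborFinset u, r w u : ℤ) : ℝ) := by
        rw [← heint u, ← h1]
        push_cast
        simp only [hr]
        rw [Finset.sum_sub_distrib, Finset.sum_const, H.card_neighborFinset_eq_degree,
          nsmul_eq_mul, ← Finset.mul_sum]
        ring
      exact_mod_cast h2
    · intro u
      change _ = 2 * (m:ℤ) * n - (2 * (m:ℤ) * n - ∑ w ∈ H.neighborFinset u, r w u)
      ring
    · rw [hcard]; push_cast; ring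
    · have h1 : (univ.filter (fun p : W × W => r p.1 p.2 = 2 * (n:ℤ))).card = cnt H (2 / m) := by
        rw [cnt]
        congr 1
        apply Finset.filter_congr
        intro p _
        exact hnearR p.1 p.2
      rw [h1, hcnt, cntK hm0 hn0, if_neg hne1, if_neg hne2, if_pos rfl]
      push_cast [Nat.cast_sub (show 1 ≤ n by omega)]
      ring
    · have h1 : (univ.filter (fun p : W × W => r p.1 p.2 = 2 * (m:ℤ))).card = cnt H (2 / n) := by
        rw [cnt]
        congr 1
        apply Finset.filter_congr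
        intro p _
        exact hfarR p.1 p.2
      rw [h1, hcnt, cntK hm0 hn0, if_pos rfl, if_neg hne3, if_neg hne1.symm]
      push_cast [Nat.cast_sub (show 1 ≤ m by omega)]
      ring
  exact ⟨hcard, r, _, D⟩

theorem main {m n : ℕ} (hn : 2 ≤ n) (hmn : n + 18 ≤ m) (hsq : 4 * n ≤ (m - n - 1)^2)
    {W : Type*} [Fintype W] [DecidableEq W] (H : SimpleGraph W) [DecidableRel H.Adj]
    (hH : H.Connected)
    (hRS : resistanceSpectrum H = resistanceSpectrum (Kmn m n)) : Nonempty (H ≃g Kmn m n) := by
  obtain ⟨hcard, r, e, D⟩ := exists_data hn (by omega) H hH hRS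
  have hsq' : 4 * (n:ℤ) ≤ ((m:ℤ) - n - 1)^2 := by
    have h1 : ((m - n - 1 : ℕ) : ℤ) = (m:ℤ) - n - 1 := by omega
    rw [← h1]
    exact_mod_cast hsq
  obtain ⟨B, hB, hadj⟩ := D.core (by exact_mod_cast hmn) hsq'
  exact iso_of_parts H B (by exact_mod_cast hB) hcard hadj

end Pool.Agent.H59.KRes
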