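import Mathlib
import Pool.Agent.H59.KRes.Final
import Pool.Agent.H59.KRes.Clump3

open Finset Matrix

namespace Pool.Agent.H59.KRes

/-- `K_{m,n}` is determined by its resistance spectrum for `m ≥ n + 200`. -/
theorem main_large {m n : ℕ} (hn : 2 ≤ n) (hmn : n + 200 ≤ m)
    {W : Type*} [Fintype W] [DecidableEq W] (H : SimpleGraph W) [DecidableRel H.Adj]
    (hH : H.Connected)
    (hRS : resistanceSpectrum H = resistanceSpectrum (Kmn m n)) : Nonempty (H ≃g Kmn m n) := by
  obtain ⟨hcard, r, e, D⟩ := exists_data hn (by omega) H hH hRS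
  obtain ⟨B, hB, hadj⟩ := D.core_large (by exact_mod_cast hmn)
  exact iso_of_parts H B (by exact_mod_cast hB) hcard hadj

end Pool.Agent.H59.KRes
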